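import Mathlib

set_option autoImplicit false

namespace Pool.Agent.Work.MP_9159b8_an

open MeasureTheory Set Filter Topology
open scoped ENNReal

/-- Upper bound for the length of an arc. -/
lemma hausdorff_arc_le {c v : ℝ → ℂ} {L : ℝ} (hv : IntervalIntegrable v volume 0 L)
    (hc : ∀ x y, 0 ≤ x → x ≤ y → y ≤ L → c y - c x = ∫ t in x..y, v t)
    {a b : ℝ} (ha : 0 ≤ a) (hab : a ≤ b) (hb : b ≤ L) :
    μH[1] (c '' Ioc a b) ≤ ENNReal.ofReal (∫ t in a..b, ‖v t‖) := by
  set s : ℝ → ℝ := fun x => ∫ t in (0:ℝ)..x, ‖v t‖ with hs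
  have hL : 0 ≤ L := ha.trans (hab.trans hb)
  have hint : ∀ x y, 0 ≤ x → x ≤ y → y ≤ L → IntervalIntegrable v volume x y := by
    intro x y hx hxy hy
    apply hv.mono_set
    rw [uIcc_of_le hxy, uIcc_of_le hL]
    exact Icc_subset_Icc hx hy
  have hsub : ∀ x y, 0 ≤ x → x ≤ y → y ≤ L → s y - s x = ∫ t in x..y, ‖v t‖ := by
    intro x y hx hxy hy
    rw [hs]
    simp only
    rw [intervalIntegral.integral_interval_sub_left]
    · exact (hint 0 y le_rfl (hx.trans hxy) hy).norm
    · exact (hint 0 x le_rfl hx (hxy.trans hy)).norm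
  have hcs : ∀ x y, 0 ≤ x → x ≤ y → y ≤ L → ‖c y - c x‖ ≤ s y - s x := by
    intro x y hx hxy hy
    rw [hsub x y hx hxy hy, hc x y hx hxy hy]
    exact intervalIntegral.norm_integral_le_integral_norm hxy
  have hdist : ∀ x ∈ Ioc a b, ∀ y ∈ Ioc a b, dist (c x) (c y) ≤ dist (s x) (s y) := by
    intro x hx y hy
    rcases le_total x y with h | h
    · have := hcs x y (ha.trans hx.1.le) h (hy.2.trans hb)
      rw [dist_comm (c x), dist_comm (s x), dist_eq_norm, Real.dist_eq]
      exact this.trans (le_abs_self _)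
    · have := hcs y x (ha.trans hy.1.le) h (hx.2.trans hb)
      rw [dist_eq_norm, Real.dist_eq]
      exact this.trans (le_abs_self _)
  set K := Ioc a b
  set C : ℝ → ℂ := c ∘ Function.invFunOn s K with hC
  have hinv : ∀ p ∈ s '' K, Function.invFunOn s K p ∈ K ∧ s (Function.invFunOn s K p) = p := by
    intro p hp
    exact ⟨Function.invFunOn_mem hp, Function.invFunOn_eq hp⟩
  have hLip : LipschitzOnWith 1 C (s '' K) := by
    apply LipschitzOnWith.of_dist_le_mul
    intro p hp q hq
    obtain ⟨h1, h2⟩ := hinv p hp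
    obtain ⟨h3, h4⟩ := hinv q hq
    have := hdist _ h1 _ h3
    rw [h2, h4] at this
    simpa [hC] using this
  have hsubset : c '' K ⊆ C '' (s '' K) := by
    rintro _ ⟨x, hx, rfl⟩
    refine ⟨s x, mem_image_of_mem s hx, ?_⟩
    obtain ⟨h1, h2⟩ := hinv (s x) (mem_image_of_mem s hx)
    have := hdist _ h1 _ hx
    rw [h2, dist_self] at this
    exact dist_le_zero.mp this
  have hsK : s '' K ⊆ Icc (s a) (s b) := by
    rintro _ ⟨x, hx, rfl⟩
    have h1 := hcs a x ha hx.1.le (hx.2.trans hb)
    have h2 := hcs x b (ha.trans hx.1.le) hx.2 hb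
    constructor
    · linarith [norm_nonneg (c x - c a)]
    · linarith [norm_nonneg (c b - c x)]
  calc μH[1] (c '' K) ≤ μH[1] (C '' (s '' K)) := measure_mono hsubset
    _ ≤ (1:NNReal) ^ (1:ℝ) * μH[1] (s '' K) := hLip.hausdorffMeasure_image_le zero_le_one
    _ = μH[1] (s '' K) := by simp
    _ ≤ μH[1] (Icc (s a) (s b)) := measure_mono hsK
    _ = ENNReal.ofReal (s b - s a) := by
      rw [hausdorffMeasure_real, Real.volume_Icc]
    _ = _ := by rw [hsub a b ha hab hb]

/-- Lower bound for the length of an arc by its chord. -/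
lemma le_hausdorff_arc {c : ℝ → ℂ} (hcc : Continuous c) {x y : ℝ} (hxy : x ≤ y) :
    ENNReal.ofReal ‖c y - c x‖ ≤ μH[1] (c '' Ioc x y) := by
  set f : ℂ → ℝ := fun w => dist w (c x) with hf
  have hLip : LipschitzWith 1 f := LipschitzWith.dist_left (c x)
  have hsub : Ioc 0 ‖c y - c x‖ ⊆ f '' (c '' Ioc x y) := by
    intro r hr
    have hcont : ContinuousOn (fun t => f (c t)) (Icc x y) :=
      (hLip.continuous.comp hcc).continuousOn
    have h0 : f (c x) = 0 := by simp [hf]
    have h1 : f (c y) = ‖c y - c x‖ := by simp [hf, dist_eq_norm]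
    have := intermediate_value_Icc hxy hcont
    have hr' : r ∈ Icc (f (c x)) (f (c y)) := by
      rw [h0, h1]; exact ⟨hr.1.le, hr.2⟩
    obtain ⟨t, ht, htr⟩ := this hr'
    refine ⟨c t, ⟨t, ⟨?_, ht.2⟩, rfl⟩, htr⟩
    rcases eq_or_lt_of_le ht.1 with h | h
    · exfalso
      rw [← h] at htr
      change f (c x) = r at htr
      rw [h0] at htr
      exact hr.1.ne htr
    · exact h
  calc ENNReal.ofReal ‖c y - c x‖ = volume (Ioc 0 ‖c y - c x‖) := by
        rw [Real.volume_Ioc, sub_zero]
    _ = μH[1] (Ioc 0 ‖c y - c x‖) := by rw [hausdorffMeasure_real]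
    _ ≤ μH[1] (f '' (c '' Ioc x y)) := measure_mono hsub
    _ ≤ (1:NNReal) ^ (1:ℝ) * μH[1] (c '' Ioc x y) :=
        hLip.hausdorffMeasure_image_le zero_le_one _
    _ = _ := by simp

/-- The length measure of a curve, pulled back to the parameter interval. -/
noncomputable def arcMeasure (c : ℝ → ℂ) (L : ℝ) : Measure ℝ :=
  ((μH[1] : Measure ℂ).comap (fun x : Ioc (0:ℝ) L => c x)).map Subtype.val

lemma arcMeasure_apply {c : ℝ → ℂ} {L : ℝ} (hcc : Continuous c) (hinj : InjOn c (Ioc 0 L))
    {E : Set ℝ} (hE : MeasurableSet E) :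
    arcMeasure c L E = μH[1] (c '' (E ∩ Ioc 0 L)) := by
  have hemb : MeasurableEmbedding (Subtype.val : Ioc (0:ℝ) L → ℝ) :=
    MeasurableEmbedding.subtype_coe measurableSet_Ioc
  unfold arcMeasure
  rw [Measure.map_apply hemb.measurable hE, Measure.comap_apply]
  · congr 1
    ext w
    constructor
    · rintro ⟨x, hx, rfl⟩
      exact ⟨x, ⟨hx, x.2⟩, rfl⟩
    · rintro ⟨x, hx, rfl⟩
      exact ⟨⟨x, hx.2⟩, hx.1, rfl⟩
  · intro x y hxy
    exact Subtype.ext (hinj x.2 y.2 hxy)
  · intro s hs
    have h1 : MeasurableSet (Subtype.val '' s) := hemb.measurableSet_image.mpr hs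
    have h2 : (fun x : Ioc (0:ℝ) L => c x) '' s = c '' (Subtype.val '' s) := by
      rw [image_image]
    rw [h2]
    refine h1.image_of_continuousOn_injOn hcc.continuousOn (hinj.mono ?_)
    rintro _ ⟨x, -, rfl⟩
    exact x.2
  · exact hemb.measurable hE

/-- Riemann sums of chord type for a continuous function. -/
lemma riemann_sum_continuous {w : ℝ → ℂ} {a b : ℝ} (hab : a ≤ b) (hw : Continuous w) {δ : ℝ}
    (hδ : 0 < δ) : ∃ n : ℕ, 0 < n ∧
      (∫ t in a..b, ‖w t‖) - δ ≤ ∑ i ∈ Finset.range n,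
        ‖∫ t in (a + i * ((b - a) / n))..(a + (i + 1 : ℕ) * ((b - a) / n)), w t‖ := by
  have hcomp : IsCompact (Icc a b) := isCompact_Icc
  have huc : UniformContinuousOn w (Icc a b) := hcomp.uniformContinuousOn_of_continuous hw.continuousOn
  set δ' : ℝ := δ / (2 * (b - a) + 1) with hδ'
  have hden : 0 < 2 * (b - a) + 1 := by linarith
  have hδ'pos : 0 < δ' := div_pos hδ hden
  rw [Metric.uniformContinuousOn_iff] at huc
  obtain ⟨η, hη, hηw⟩ := huc δ' hδ'pos
  obtain ⟨n, hn⟩ := exists_nat_gt ((b - a) / η)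
  have hn0 : (0:ℝ) < n := lt_of_le_of_lt (div_nonneg (by linarith) hη.le) hn
  have hnpos : 0 < n := by exact_mod_cast hn0
  refine ⟨n, hnpos, ?_⟩
  set h : ℝ := (b - a) / n with hh
  have hh0 : 0 ≤ h := div_nonneg (by linarith) hn0.le
  have hhη : h < η := by
    rw [hh, div_lt_iff₀ hn0]
    rw [div_lt_iff₀ hη] at hn
    linarith
  have hnh : n * h = b - a := by rw [hh]; field_simp
  set x : ℕ → ℝ := fun i => a + i * h with hx
  have hx0 : x 0 = a := by simp [hx]
  have hxn : x n = b := by simp only [hx]; rw [hnh]; ring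
  have hxs : ∀ i, x (i+1) - x i = h := by
    intro i; simp only [hx]; push_cast; ring
  have hsum : ∑ i ∈ Finset.range n, ∫ t in (x i)..(x (i+1)), ‖w t‖ = ∫ t in a..b, ‖w t‖ := by
    have := intervalIntegral.sum_integral_adjacent_intervals (f := fun t => ‖w t‖) (a := x)
      (μ := volume) (n := n) (fun k _ => (hw.norm.intervalIntegrable _ _))
    rw [this, hx0, hxn]
  rw [← hsum]
  have hterm : ∀ i ∈ Finset.range n, (∫ t in (x i)..(x (i+1)), ‖w t‖) - 2 * δ' * h ≤
      ‖∫ t in (x i)..(x (i+1)), w t‖ := by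
    intro i hi
    have hin : i < n := Finset.mem_range.mp hi
    have hle : x i ≤ x (i+1) := by linarith [hxs i]
    have hxia : a ≤ x i := by simp only [hx]; nlinarith [Nat.cast_nonneg (α := ℝ) i]
    have hxib : x (i+1) ≤ b := by
      simp only [hx]
      have : ((i + 1 : ℕ) : ℝ) ≤ n := by exact_mod_cast hin
      nlinarith
    have hclose : ∀ t ∈ Icc (x i) (x (i+1)), ‖w t - w (x i)‖ ≤ δ' := by
      intro t ht
      have := hηw t ⟨hxia.trans ht.1, ht.2.trans hxib⟩ (x i) ⟨hxia, hle.trans hxib⟩ ?_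
      · rw [dist_eq_norm] at this; exact this.le
      · rw [Real.dist_eq, abs_of_nonneg (by linarith [ht.1])]
        linarith [ht.2, hxs i]
    -- first estimate
    have e1 : (∫ t in (x i)..(x (i+1)), ‖w t‖) ≤ (‖w (x i)‖ + δ') * h := by
      have : (∫ t in (x i)..(x (i+1)), ‖w t‖) ≤ ∫ t in (x i)..(x (i+1)), (‖w (x i)‖ + δ') := by
        apply intervalIntegral.integral_mono_on hle (hw.norm.intervalIntegrable _ _)
          (by simp)
        intro t ht
        have h1 := hclose t ht
        have h2 : ‖w t‖ ≤ ‖w t - w (x i)‖ + ‖w (x i)‖ := by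
          simpa using norm_add_le (w t - w (x i)) (w (x i))
        linarith
      rw [intervalIntegral.integral_const, hxs i, smul_eq_mul] at this
      linarith
    have e2 : (‖w (x i)‖ - δ') * h ≤ ‖∫ t in (x i)..(x (i+1)), w t‖ := by
      have h3 : ∫ t in (x i)..(x (i+1)), w t = (∫ t in (x i)..(x (i+1)), (w t - w (x i))) +
          (h : ℂ) * w (x i) := by
        rw [intervalIntegral.integral_sub (hw.intervalIntegrable _ _) (by simp),
          intervalIntegral.integral_const, hxs i]
        simp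
      have h4 : ‖∫ t in (x i)..(x (i+1)), (w t - w (x i))‖ ≤ δ' * |x (i+1) - x i| := by
        apply intervalIntegral.norm_integral_le_of_norm_le_const
        intro t ht
        rw [uIoc_of_le hle] at ht
        exact hclose t ⟨ht.1.le, ht.2⟩
      rw [hxs i, abs_of_nonneg hh0] at h4
      have h5 : ‖(h:ℂ) * w (x i)‖ = h * ‖w (x i)‖ := by
        rw [norm_mul, Complex.norm_real, Real.norm_eq_abs, abs_of_nonneg hh0]
      have h6 : ‖(h:ℂ) * w (x i)‖ ≤ ‖∫ t in (x i)..(x (i+1)), w t‖ +
          ‖∫ t in (x i)..(x (i+1)), (w t - w (x i))‖ := by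
        rw [h3]
        set A := ∫ t in (x i)..(x (i+1)), (w t - w (x i))
        have := norm_sub_le (A + (h:ℂ) * w (x i)) A
        simpa using this
      rw [h5] at h6
      nlinarith
    nlinarith
  have hS := Finset.sum_le_sum hterm
  rw [Finset.sum_sub_distrib, Finset.sum_const, Finset.card_range, nsmul_eq_mul] at hS
  have hlast : (n:ℝ) * (2 * δ' * h) ≤ δ := by
    have : (n:ℝ) * (2 * δ' * h) = 2 * δ' * (b - a) := by rw [← hnh]; ring
    rw [this, hδ']
    rw [show 2 * (δ / (2 * (b - a) + 1)) * (b - a) = δ * ((2 * (b - a)) / (2 * (b - a) + 1)) by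
      ring]
    have h7 : (2 * (b - a)) / (2 * (b - a) + 1) ≤ 1 := by
      rw [div_le_one hden]; linarith
    nlinarith
  linarith

/-- The main statement on arcs. -/
lemma arcMeasure_Ioc {c v : ℝ → ℂ} {L : ℝ} (hcc : Continuous c) (hinj : InjOn c (Ioc 0 L))
    (hv : IntervalIntegrable v volume 0 L)
    (hc : ∀ x y, 0 ≤ x → x ≤ y → y ≤ L → c y - c x = ∫ t in x..y, v t)
    {a b : ℝ} (ha : 0 ≤ a) (hab : a ≤ b) (hb : b ≤ L) :
    arcMeasure c L (Ioc a b) = ENNReal.ofReal (∫ t in a..b, ‖v t‖) := by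
  have hL : 0 ≤ L := ha.trans (hab.trans hb)
  have happ : ∀ x y, 0 ≤ x → y ≤ L → arcMeasure c L (Ioc x y) = μH[1] (c '' Ioc x y) := by
    intro x y hx hy
    rw [arcMeasure_apply hcc hinj measurableSet_Ioc]
    congr 2
    apply inter_eq_left.mpr
    exact Ioc_subset_Ioc hx hy
  have hint : ∀ x y, 0 ≤ x → x ≤ y → y ≤ L → IntervalIntegrable v volume x y := by
    intro x y hx hxy hy
    apply hv.mono_set
    rw [uIcc_of_le hxy, uIcc_of_le hL]
    exact Icc_subset_Icc hx hy
  apply le_antisymm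
  · rw [happ a b ha hb]
    exact hausdorff_arc_le hv hc ha hab hb
  · -- lower bound
    have hfin : arcMeasure c L (Ioc a b) ≠ ∞ := by
      rw [happ a b ha hb]
      exact ((hausdorff_arc_le hv hc ha hab hb).trans_lt ENNReal.ofReal_lt_top).ne
    rw [ENNReal.ofReal_le_iff_le_toReal hfin]
    apply le_of_forall_pos_le_add
    intro δ hδ
    -- approximate v by a continuous function
    have hvint : Integrable (v) (volume.restrict (Ioc a b)) := by
      have := hint a b ha hab hb
      rwa [intervalIntegrable_iff_integrableOn_Ioc_of_le hab] at this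
    obtain ⟨w, hw1, hw2⟩ := hvint.exists_boundedContinuous_integral_sub_le (half_pos (half_pos hδ))
    obtain ⟨n, hn, hsum⟩ := riemann_sum_continuous hab w.continuous (half_pos hδ)
    set h : ℝ := (b - a) / n with hh
    have hn0 : (0:ℝ) < n := by exact_mod_cast hn
    have hh0 : 0 ≤ h := div_nonneg (by linarith) hn0.le
    have hnh : n * h = b - a := by rw [hh]; field_simp
    set x : ℕ → ℝ := fun i => a + i * h with hx
    have hx0 : x 0 = a := by simp [hx]
    have hxn : x n = b := by simp only [hx]; rw [hnh]; ring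
    have hxs : ∀ i, x (i+1) - x i = h := by
      intro i; simp only [hx]; push_cast; ring
    have hxmono : Monotone x := monotone_nat_of_le_succ (fun i => by linarith [hxs i])
    have hxa : ∀ i, a ≤ x i := fun i => by rw [← hx0]; exact hxmono (Nat.zero_le i)
    have hxb : ∀ i, i ≤ n → x i ≤ b := fun i hi => by rw [← hxn]; exact hxmono hi
    -- additivity
    have hadd : ∀ m, m ≤ n → arcMeasure c L (Ioc a (x m)) =
        ∑ i ∈ Finset.range m, arcMeasure c L (Ioc (x i) (x (i+1))) := by
      intro m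
      induction m with
      | zero => intro _; simp [hx0]
      | succ m ih =>
        intro hm
        rw [Finset.sum_range_succ, ← ih (by omega)]
        rw [← measure_union _ measurableSet_Ioc]
        · rw [Ioc_union_Ioc_eq_Ioc (hxa m) (hxmono (Nat.le_succ m))]
        · exact Set.Ioc_disjoint_Ioc_of_le le_rfl
    have htot := hadd n le_rfl
    rw [hxn] at htot
    have hterm : ∀ i ∈ Finset.range n, ENNReal.ofReal ‖c (x (i+1)) - c (x i)‖ ≤
        arcMeasure c L (Ioc (x i) (x (i+1))) := by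
      intro i hi
      have hin : i < n := Finset.mem_range.mp hi
      rw [happ _ _ (ha.trans (hxa i)) ((hxb (i+1) hin).trans hb)]
      exact le_hausdorff_arc hcc (hxmono (Nat.le_succ i))
    have hS : ENNReal.ofReal (∑ i ∈ Finset.range n, ‖c (x (i+1)) - c (x i)‖) ≤
        arcMeasure c L (Ioc a b) := by
      rw [htot, ENNReal.ofReal_sum_of_nonneg (fun i _ => norm_nonneg _)]
      exact Finset.sum_le_sum hterm
    rw [ENNReal.ofReal_le_iff_le_toReal hfin] at hS
    -- compare sums
    have hI1 : ∀ i ∈ Finset.range n, ‖∫ t in (x i)..(x (i+1)), w t‖ ≤ ‖c (x (i+1)) - c (x i)‖ +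
        ∫ t in (x i)..(x (i+1)), ‖v t - w t‖ := by
      intro i hi
      have hin : i < n := Finset.mem_range.mp hi
      have h1 := hxmono (Nat.le_succ i)
      have h2 := hint (x i) (x (i+1)) (ha.trans (hxa i)) h1 ((hxb (i+1) hin).trans hb)
      rw [hc (x i) (x (i+1)) (ha.trans (hxa i)) h1 ((hxb (i+1) hin).trans hb)]
      have hwi : IntervalIntegrable (fun t => w t) volume (x i) (x (i+1)) :=
        w.continuous.intervalIntegrable _ _
      have h3 : ∫ t in (x i)..(x (i+1)), w t = (∫ t in (x i)..(x (i+1)), v t) -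
          ∫ t in (x i)..(x (i+1)), (v t - w t) := by
        rw [intervalIntegral.integral_sub h2 hwi]; ring
      rw [h3]
      refine (norm_sub_le _ _).trans ?_
      gcongr
      exact intervalIntegral.norm_integral_le_integral_norm h1
    have hS2 := Finset.sum_le_sum hI1
    rw [Finset.sum_add_distrib] at hS2
    have hsum2 : ∑ i ∈ Finset.range n, ∫ t in (x i)..(x (i+1)), ‖v t - w t‖ =
        ∫ t in a..b, ‖v t - w t‖ := by
      have := intervalIntegral.sum_integral_adjacent_intervals (f := fun t => ‖v t - w t‖) (a := x)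
        (μ := volume) (n := n) (fun k hk => ?_)
      · rw [this, hx0, hxn]
      · exact ((hint (x k) (x (k+1)) (ha.trans (hxa k)) (hxmono (Nat.le_succ k))
          ((hxb (k+1) hk).trans hb)).sub (w.continuous.intervalIntegrable _ _)).norm
    rw [hsum2] at hS2
    have hw1' : ∫ t in a..b, ‖v t - w t‖ ≤ δ / 2 / 2 := by
      rw [intervalIntegral.integral_of_le hab]; exact hw1
    have hv3 : ∫ t in a..b, ‖v t‖ ≤ (∫ t in a..b, ‖w t‖) + ∫ t in a..b, ‖v t - w t‖ := by
      have hwi : IntervalIntegrable (fun t => w t) volume a b := w.continuous.intervalIntegrable _ _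
      rw [← intervalIntegral.integral_add hwi.norm ((hint a b ha hab hb).sub hwi).norm]
      apply intervalIntegral.integral_mono_on hab (hint a b ha hab hb).norm
        (hwi.norm.add ((hint a b ha hab hb).sub hwi).norm)
      intro t _
      simpa [add_comm] using norm_add_le (v t - w t) (w t)
    linarith

/-- Arc length measure on the image of the curve. -/
theorem curve_measure {c v : ℝ → ℂ} {L : ℝ} (hL : 0 ≤ L) (hcc : Continuous c)
    (hinj : InjOn c (Ioc 0 L)) (hv : IntervalIntegrable v volume 0 L)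
    (hc : ∀ x y, 0 ≤ x → x ≤ y → y ≤ L → c y - c x = ∫ t in x..y, v t) :
    (μH[1] : Measure ℂ).restrict (c '' Ioc 0 L) =
      Measure.map c ((volume.restrict (Ioc 0 L)).withDensity (fun x => ‖v x‖ₑ)) := by
  have hvI : IntegrableOn v (Ioc 0 L) volume := by
    rwa [intervalIntegrable_iff_integrableOn_Ioc_of_le hL] at hv
  have key : arcMeasure c L = (volume.restrict (Ioc 0 L)).withDensity (fun x => ‖v x‖ₑ) := by
    have hcomp : ∀ a b : ℝ, arcMeasure c L (Ioc a b) =
        ((volume.restrict (Ioc 0 L)).withDensity (fun x => ‖v x‖ₑ)) (Ioc a b) := by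
      intro a b
      have h1 : arcMeasure c L (Ioc a b) = arcMeasure c L (Ioc (max a 0) (min b L)) := by
        rw [arcMeasure_apply hcc hinj measurableSet_Ioc,
          arcMeasure_apply hcc hinj measurableSet_Ioc, Ioc_inter_Ioc, Ioc_inter_Ioc]
        congr 3
        · simp
        · simp
      rw [h1, withDensity_apply _ measurableSet_Ioc, Measure.restrict_restrict measurableSet_Ioc,
        Ioc_inter_Ioc]
      change _ = ∫⁻ x in Ioc (max a 0) (min b L), ‖v x‖ₑ
      rcases le_or_gt (max a 0) (min b L) with hle | hgt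
      · have hIle : IntegrableOn v (Ioc (max a 0) (min b L)) volume :=
          hvI.mono_set (Ioc_subset_Ioc (le_max_right _ _) (min_le_right _ _))
        rw [arcMeasure_Ioc hcc hinj hv hc (le_max_right _ _) hle (min_le_right _ _),
          intervalIntegral.integral_of_le hle, ofReal_integral_norm_eq_lintegral_enorm hIle]
      · rw [Ioc_eq_empty (not_lt.mpr hgt.le)]
        simp
    refine Measure.ext_of_Ioc' _ _ ?_ (fun a b _ => hcomp a b)
    intro a b _
    rw [hcomp a b, withDensity_apply _ measurableSet_Ioc]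
    have hfin : ∫⁻ x in Ioc 0 L, ‖v x‖ₑ < ∞ := hvI.2
    refine (lt_of_le_of_lt ?_ hfin).ne
    exact lintegral_mono' Measure.restrict_le_self le_rfl
  rw [← key]
  ext A hA
  rw [Measure.restrict_apply hA, Measure.map_apply hcc.measurable hA,
    arcMeasure_apply hcc hinj (hcc.measurable hA)]
  congr 1
  ext w
  constructor
  · rintro ⟨hw, x, hx, rfl⟩
    exact ⟨x, ⟨hw, hx⟩, rfl⟩
  · rintro ⟨x, ⟨hx1, hx2⟩, rfl⟩
    exact ⟨hx1, x, hx2, rfl⟩

end Pool.Agent.Work.MP_9159b8_an
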