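import Mathlib

set_option autoImplicit false

namespace Pool.Agent.Work.MP_9159b8_an

open Polynomial Finset ComplexConjugate

/-- Finite double sum defining the balayage density of `‖p‖²` (coefficient sequence `f`). -/
noncomputable def BN (N : ℕ) (f : ℕ → ℂ) (ζ : ℂ) : ℂ :=
  ∑ j ∈ range N, ∑ l ∈ range N,
    (f j * ζ ^ j) * conj (f l * ζ ^ l) / (2 * ((max j l : ℕ) : ℂ) + 2)

/-- The balayage density of `‖p‖²` on the unit circle. -/
noncomputable def Bf (p : ℂ[X]) (ζ : ℂ) : ℝ := (BN (p.natDegree + 1) p.coeff ζ).re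

lemma BN_eq_of_le {N M : ℕ} {f : ℕ → ℂ} (hNM : N ≤ M) (hf : ∀ j, N ≤ j → f j = 0) (ζ : ℂ) :
    BN N f ζ = BN M f ζ := by
  unfold BN
  have hsub : range N ⊆ range M := range_subset_range.mpr hNM
  have h1 : ∀ j, ∑ l ∈ range M, (f j * ζ ^ j) * conj (f l * ζ ^ l) / (2 * ((max j l : ℕ) : ℂ) + 2) =
      ∑ l ∈ range N, (f j * ζ ^ j) * conj (f l * ζ ^ l) / (2 * ((max j l : ℕ) : ℂ) + 2) := by
    intro j
    symm
    apply sum_subset hsub
    intro l _ hl
    rw [hf l (by simpa using hl)]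
    simp
  rw [sum_congr rfl (fun j _ => (h1 j).symm)]
  apply sum_subset hsub
  intro j _ hj
  rw [hf j (by simpa using hj)]
  simp

lemma Bf_eq {p : ℂ[X]} {M : ℕ} (hM : p.natDegree < M) (ζ : ℂ) :
    Bf p ζ = (BN M p.coeff ζ).re := by
  unfold Bf
  rw [BN_eq_of_le hM (fun j hj => coeff_eq_zero_of_natDegree_lt hj)]

lemma BN_conj (N : ℕ) (f : ℕ → ℂ) (ζ : ℂ) : conj (BN N f ζ) = BN N f ζ := by
  unfold BN
  rw [map_sum]
  simp_rw [map_sum]
  rw [sum_comm]
  refine sum_congr rfl fun l _ => sum_congr rfl fun j _ => ?_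
  rw [map_div₀, map_mul, Complex.conj_conj, max_comm j l]
  simp only [map_add, map_mul, Complex.conj_ofNat, Complex.conj_natCast]
  ring

lemma Bf_coe (p : ℂ[X]) (ζ : ℂ) : ((Bf p ζ : ℝ) : ℂ) = BN (p.natDegree + 1) p.coeff ζ := by
  unfold Bf
  exact Complex.conj_eq_iff_re.mp (BN_conj _ _ _)

lemma BN_continuous (N : ℕ) (f : ℕ → ℂ) : Continuous (BN N f) := by
  unfold BN
  fun_prop

lemma Bf_continuous (p : ℂ[X]) : Continuous (Bf p) := by
  unfold Bf
  exact Complex.continuous_re.comp (BN_continuous _ _)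

/-- `ℓ¹` norm of the coefficients. -/
noncomputable def n1 (p : ℂ[X]) : ℝ := ∑ j ∈ p.support, ‖p.coeff j‖

lemma n1_nonneg (p : ℂ[X]) : 0 ≤ n1 p := sum_nonneg fun _ _ => norm_nonneg _

lemma sum_range_le_n1 (p : ℂ[X]) (N : ℕ) : ∑ j ∈ range N, ‖p.coeff j‖ ≤ n1 p := by
  unfold n1
  have h1 : ∑ j ∈ range N, ‖p.coeff j‖ = ∑ j ∈ range N ∩ p.support, ‖p.coeff j‖ := by
    symm
    apply sum_subset inter_subset_left
    intro j hj hj'
    have : j ∉ p.support := fun h => hj' (mem_inter.mpr ⟨hj, h⟩)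
    rw [notMem_support_iff.mp this, norm_zero]
  rw [h1]
  exact sum_le_sum_of_subset_of_nonneg inter_subset_right (fun _ _ _ => norm_nonneg _)

lemma coeff_step_lt {p q : ℂ[X]} {M j : ℕ} (hj : j < M) :
    (p * (1 + X ^ M * q)).coeff j = p.coeff j := by
  have : p * (1 + X ^ M * q) = p + X ^ M * (p * q) := by ring
  rw [this, coeff_add, coeff_X_pow_mul', if_neg (by omega), add_zero]

lemma coeff_step_ge {p q : ℂ[X]} {M j : ℕ} (hM : p.natDegree < M) (hj : M ≤ j) :
    (p * (1 + X ^ M * q)).coeff j = (p * q).coeff (j - M) := by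
  have : p * (1 + X ^ M * q) = p + X ^ M * (p * q) := by ring
  rw [this, coeff_add, coeff_X_pow_mul', if_pos hj,
    coeff_eq_zero_of_natDegree_lt (lt_of_lt_of_le hM hj), zero_add]

lemma n1_step {p q : ℂ[X]} {M : ℕ} (N : ℕ) :
    ∑ j ∈ range N, ‖(p * (1 + X ^ M * q)).coeff j‖ ≤ n1 p + n1 (p * q) := by
  have h0 : p * (1 + X ^ M * q) = p + X ^ M * (p * q) := by ring
  rw [h0]
  have h1 : ∑ j ∈ range N, ‖(p + X ^ M * (p * q)).coeff j‖ ≤
      ∑ j ∈ range N, ‖p.coeff j‖ + ∑ j ∈ range N, ‖(X ^ M * (p * q)).coeff j‖ := by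
    rw [← sum_add_distrib]
    apply sum_le_sum
    intro j _
    rw [coeff_add]
    exact norm_add_le _ _
  have h2 : ∑ j ∈ range N, ‖(X ^ M * (p * q)).coeff j‖ ≤ n1 (p * q) := by
    have h3 : ∑ j ∈ range N, ‖(X ^ M * (p * q)).coeff j‖ ≤
        ∑ j ∈ range (M + N), ‖(X ^ M * (p * q)).coeff j‖ :=
      sum_le_sum_of_subset_of_nonneg (range_subset_range.mpr (by omega))
        (fun _ _ _ => norm_nonneg _)
    refine h3.trans ?_
    rw [sum_range_add]
    have h4 : ∑ x ∈ range M, ‖(X ^ M * (p * q)).coeff x‖ = 0 := by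
      apply sum_eq_zero
      intro x hx
      rw [coeff_X_pow_mul', if_neg (by simpa using hx), norm_zero]
    rw [h4, zero_add]
    have h5 : ∀ x ∈ range N, ‖(X ^ M * (p * q)).coeff (M + x)‖ = ‖(p * q).coeff x‖ := by
      intro x _
      rw [coeff_X_pow_mul', if_pos (by omega), Nat.add_sub_cancel_left]
    rw [sum_congr rfl h5]
    exact sum_range_le_n1 _ _
  linarith [sum_range_le_n1 p N]

/-- Changing `p` to `p (1 + X^M q)` changes `Bf` very little when `M` is large. -/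
lemma Bf_step {p q : ℂ[X]} {M : ℕ} (hM : p.natDegree < M) {ζ : ℂ} (hζ : ‖ζ‖ = 1) :
    |Bf (p * (1 + X ^ M * q)) ζ - Bf p ζ| ≤ (n1 p + n1 (p * q)) ^ 2 / (2 * M + 2) := by
  set p' := p * (1 + X ^ M * q) with hp'
  set N := max M p'.natDegree + 1 with hN
  have hN1 : p'.natDegree < N := by omega
  have hN2 : p.natDegree < N := by omega
  rw [Bf_eq hN1, Bf_eq hN2, ← Complex.sub_re]
  refine (Complex.abs_re_le_norm _).trans ?_
  unfold BN
  rw [← sum_sub_distrib]
  simp_rw [← sum_sub_distrib]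
  have hterm : ∀ j ∈ range N, ∀ l ∈ range N,
      ‖(p'.coeff j * ζ ^ j) * conj (p'.coeff l * ζ ^ l) / (2 * ((max j l : ℕ) : ℂ) + 2) -
        (p.coeff j * ζ ^ j) * conj (p.coeff l * ζ ^ l) / (2 * ((max j l : ℕ) : ℂ) + 2)‖ ≤
      ‖p'.coeff j‖ * ‖p'.coeff l‖ / (2 * M + 2) := by
    intro j _ l _
    rcases lt_or_ge (max j l) M with h | h
    · have hj : j < M := lt_of_le_of_lt (le_max_left _ _) h
      have hl : l < M := lt_of_le_of_lt (le_max_right _ _) h
      rw [hp', coeff_step_lt hj, coeff_step_lt hl, sub_self, norm_zero]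
      positivity
    · have hz : (p.coeff j * ζ ^ j) * conj (p.coeff l * ζ ^ l) = 0 := by
        rcases le_max_iff.mp h with h' | h'
        · rw [coeff_eq_zero_of_natDegree_lt (lt_of_lt_of_le hM h')]; simp
        · rw [coeff_eq_zero_of_natDegree_lt (lt_of_lt_of_le hM h')]; simp
      rw [hz, zero_div, sub_zero, norm_div, norm_mul, norm_mul, RCLike.norm_conj, norm_mul,
        norm_pow, norm_pow, hζ, one_pow, one_pow, mul_one, mul_one]
      have hden : ‖(2 * ((max j l : ℕ) : ℂ) + 2)‖ = 2 * ((max j l : ℕ) : ℝ) + 2 := by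
        have : (2 * ((max j l : ℕ) : ℂ) + 2) = ((2 * ((max j l : ℕ) : ℝ) + 2 : ℝ) : ℂ) := by
          simp only [Complex.ofReal_add, Complex.ofReal_mul, Complex.ofReal_natCast,
            Complex.ofReal_ofNat]
        rw [this, Complex.norm_real, Real.norm_eq_abs, abs_of_nonneg (by positivity)]
      rw [hden]
      have hM' : (M:ℝ) ≤ ((max j l : ℕ) : ℝ) := by exact_mod_cast h
      apply div_le_div_of_nonneg_left (by positivity) (by positivity)
      linarith
  calc ‖∑ j ∈ range N, ∑ l ∈ range N,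
      ((p'.coeff j * ζ ^ j) * conj (p'.coeff l * ζ ^ l) / (2 * ((max j l : ℕ) : ℂ) + 2) -
        (p.coeff j * ζ ^ j) * conj (p.coeff l * ζ ^ l) / (2 * ((max j l : ℕ) : ℂ) + 2))‖
      ≤ ∑ j ∈ range N, ∑ l ∈ range N, ‖p'.coeff j‖ * ‖p'.coeff l‖ / (2 * M + 2) := by
        refine (norm_sum_le _ _).trans (sum_le_sum fun j hj => ?_)
        exact (norm_sum_le _ _).trans (sum_le_sum fun l hl => hterm j hj l hl)
    _ = (∑ j ∈ range N, ‖p'.coeff j‖) ^ 2 / (2 * M + 2) := by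
        rw [sq, sum_mul_sum, sum_div]
        refine sum_congr rfl fun j _ => ?_
        rw [sum_div]
    _ ≤ (n1 p + n1 (p * q)) ^ 2 / (2 * M + 2) := by
        have := n1_step (p := p) (q := q) (M := M) N
        have h0 : 0 ≤ ∑ j ∈ range N, ‖p'.coeff j‖ := sum_nonneg fun _ _ => norm_nonneg _
        gcongr

end Pool.Agent.Work.MP_9159b8_an
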