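import Mathlib
import Pool.Agent.Work.MP_9159b8_an.Bfun

set_option autoImplicit false

namespace Pool.Agent.Work.MP_9159b8_an

open Polynomial Set Metric MeasureTheory ComplexConjugate

/-- Polar coordinates on the unit disc. -/
lemma ball_integral_polar {h : ℂ → ℂ} (hc : ContinuousOn h (closedBall 0 1)) :
    ∫ z in ball (0:ℂ) 1, h z =
      ∫ r in (0:ℝ)..1, (r:ℂ) * ∫ θ in (0:ℝ)..2 * Real.pi, h (circleMap 0 r θ) := by
  have hpi := Real.pi_pos
  have hsymm : ∀ p : ℝ × ℝ, (Complex.polarCoord.symm p : ℂ) = circleMap 0 p.1 p.2 := by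
    intro p
    rw [Complex.polarCoord_symm_apply, circleMap_zero, Complex.exp_mul_I]
    push_cast
    ring
  rw [← integral_indicator measurableSet_ball, ← Complex.integral_comp_polarCoord_symm,
    polarCoord_target]
  have h1 : ∫ p in Ioi (0:ℝ) ×ˢ Ioo (-Real.pi) Real.pi,
      p.1 • (ball (0:ℂ) 1).indicator h (Complex.polarCoord.symm p) =
      ∫ p in Ioo (0:ℝ) 1 ×ˢ Ioo (-Real.pi) Real.pi, (p.1:ℂ) * h (circleMap 0 p.1 p.2) := by
    rw [setIntegral_eq_of_subset_of_forall_sdiff_eq_zero
      (s := Ioo (0:ℝ) 1 ×ˢ Ioo (-Real.pi) Real.pi)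
      (t := Ioi (0:ℝ) ×ˢ Ioo (-Real.pi) Real.pi)
      (measurableSet_Ioi.prod measurableSet_Ioo)
      (prod_mono_left Ioo_subset_Ioi_self)]
    · apply setIntegral_congr_fun (measurableSet_Ioo.prod measurableSet_Ioo)
      rintro ⟨r, θ⟩ ⟨hr, -⟩
      simp only
      rw [hsymm, indicator_of_mem]
      · simp
      · simp only at hr
        rw [mem_ball_zero_iff, norm_circleMap_zero, abs_of_pos hr.1]
        exact hr.2
    · rintro ⟨r, θ⟩ ⟨⟨hr, hθ⟩, hnot⟩
      simp only at hr hθ hnot ⊢
      rw [hsymm, indicator_of_notMem, smul_zero]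
      intro hmem
      rw [mem_ball_zero_iff, norm_circleMap_zero, abs_of_pos hr] at hmem
      exact hnot ⟨⟨hr, hmem⟩, hθ⟩
  rw [h1]
  have hcontP : ContinuousOn (fun p : ℝ × ℝ => (p.1:ℂ) * h (circleMap 0 p.1 p.2))
      (Icc (0:ℝ) 1 ×ˢ Icc (-Real.pi) Real.pi) := by
    apply ContinuousOn.mul
    · exact (Complex.continuous_ofReal.comp continuous_fst).continuousOn
    · apply hc.comp
      · have : Continuous (fun p : ℝ × ℝ => circleMap 0 p.1 p.2) := by
          simp only [circleMap]
          fun_prop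
        exact this.continuousOn
      · rintro ⟨r, θ⟩ ⟨hr, -⟩
        simp only at hr ⊢
        rw [mem_closedBall_zero_iff, norm_circleMap_zero, abs_of_nonneg hr.1]
        exact hr.2
  have hint : IntegrableOn (fun p : ℝ × ℝ => (p.1:ℂ) * h (circleMap 0 p.1 p.2))
      (Ioo (0:ℝ) 1 ×ˢ Ioo (-Real.pi) Real.pi) (volume.prod volume) := by
    apply IntegrableOn.mono_set (t := Icc (0:ℝ) 1 ×ˢ Icc (-Real.pi) Real.pi)
    · exact hcontP.integrableOn_compact (isCompact_Icc.prod isCompact_Icc)
    · exact prod_mono Ioo_subset_Icc_self Ioo_subset_Icc_self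
  rw [Measure.volume_eq_prod, setIntegral_prod _ hint, intervalIntegral.integral_of_le zero_le_one,
    ← integral_Ioc_eq_integral_Ioo]
  apply setIntegral_congr_fun measurableSet_Ioc
  intro r _
  simp only
  rw [integral_const_mul]
  congr 1
  rw [← integral_Ioc_eq_integral_Ioo, ← intervalIntegral.integral_of_le (by linarith)]
  have hper : Function.Periodic (fun θ => h (circleMap 0 r θ)) (2 * Real.pi) := by
    intro θ
    simp only
    rw [periodic_circleMap]
  have := hper.intervalIntegral_add_eq (-Real.pi) 0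
  rw [show -Real.pi + 2 * Real.pi = Real.pi by ring, zero_add] at this
  exact this

lemma circle_moment_indep {g : ℂ → ℂ} (hg : DiffContOnCl ℂ g (ball 0 1)) (k : ℤ) {r : ℝ}
    (hr : 0 < r) (hr1 : r ≤ 1) :
    ∫ θ in (0:ℝ)..2 * Real.pi, g (circleMap 0 r θ) * (circleMap 0 r θ) ^ k =
      ∫ θ in (0:ℝ)..2 * Real.pi, g (circleMap 0 1 θ) * (circleMap 0 1 θ) ^ k := by
  have hcont : ContinuousOn g (closedBall 0 1) := by
    have := hg.continuousOn
    rwa [closure_ball (0:ℂ) one_ne_zero] at this
  have hdiff : DifferentiableOn ℂ g (ball 0 1) := hg.differentiableOn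
  have key := Complex.circleIntegral_eq_of_differentiable_on_annulus_off_countable (c := (0:ℂ))
    hr hr1 (f := fun z => g z * z ^ (k - 1)) (s := ∅) countable_empty ?_ ?_
  · have e : ∀ ρ : ℝ, 0 < ρ → (∮ z in C(0, ρ), g z * z ^ (k - 1)) =
        Complex.I * ∫ θ in (0:ℝ)..2 * Real.pi, g (circleMap 0 ρ θ) * (circleMap 0 ρ θ) ^ k := by
      intro ρ hρ
      rw [circleIntegral, ← intervalIntegral.integral_const_mul]
      congr 1
      ext θ
      have hne : circleMap 0 ρ θ ≠ 0 := by simp [circleMap, hρ.ne']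
      rw [deriv_circleMap, smul_eq_mul, zpow_sub_one₀ hne]
      field_simp
    rw [e r hr, e 1 one_pos] at key
    exact (mul_left_cancel₀ Complex.I_ne_zero key).symm
  · apply ContinuousOn.mul
    · exact hcont.mono sdiff_subset
    · intro z hz
      apply ContinuousAt.continuousWithinAt
      apply continuousAt_zpow₀
      left
      rintro rfl
      exact hz.2 (by simpa using hr)
  · rintro z ⟨⟨hz1, hz2⟩, -⟩
    apply DifferentiableAt.mul
    · exact (hdiff z hz1).differentiableAt (isOpen_ball.mem_nhds hz1)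
    · apply differentiableAt_zpow.mpr
      left
      rintro rfl
      exact hz2 (by simpa using hr.le)

lemma circle_moment_zero {g : ℂ → ℂ} (hg : DiffContOnCl ℂ g (ball 0 1)) {k : ℕ} (hk : 1 ≤ k) :
    ∫ θ in (0:ℝ)..2 * Real.pi, g (circleMap 0 1 θ) * (circleMap 0 1 θ) ^ k = 0 := by
  obtain ⟨m, rfl⟩ : ∃ m, k = m + 1 := ⟨k - 1, by omega⟩
  have hd : DiffContOnCl ℂ (fun z => z ^ m * g z) (ball 0 1) := by
    have : DiffContOnCl ℂ (fun z : ℂ => z ^ m) (ball 0 1) :=
      (differentiable_pow m).diffContOnCl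
    exact this.smul hg
  have key := hd.circleIntegral_eq_zero zero_le_one
  rw [circleIntegral] at key
  have : Complex.I * ∫ θ in (0:ℝ)..2 * Real.pi, g (circleMap 0 1 θ) * (circleMap 0 1 θ) ^ (m + 1)
      = 0 := by
    refine Eq.trans ?_ key
    rw [← intervalIntegral.integral_const_mul]
    congr 1
    ext θ
    rw [deriv_circleMap, smul_eq_mul, pow_succ]
    ring
  exact (mul_eq_zero.mp this).resolve_left Complex.I_ne_zero

/-- The basic monomial computation. -/
lemma ball_monomial {g : ℂ → ℂ} (hg : DiffContOnCl ℂ g (ball 0 1)) (j l : ℕ) :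
    ∫ z in ball (0:ℂ) 1, g z * (z ^ j * conj (z ^ l)) =
      (∫ θ in (0:ℝ)..2 * Real.pi, g (circleMap 0 1 θ) *
        ((circleMap 0 1 θ) ^ j * conj ((circleMap 0 1 θ) ^ l))) /
        (2 * ((max j l : ℕ) : ℂ) + 2) := by
  have hcont : ContinuousOn g (closedBall 0 1) := by
    have := hg.continuousOn
    rwa [closure_ball (0:ℂ) one_ne_zero] at this
  rw [ball_integral_polar (h := fun z => g z * (z ^ j * conj (z ^ l)))]
  swap
  · apply hcont.mul
    apply Continuous.continuousOn
    exact (continuous_pow j).mul (Complex.continuous_conj.comp (continuous_pow l))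
  -- J(r)
  set K : ℂ := ∫ θ in (0:ℝ)..2 * Real.pi, g (circleMap 0 1 θ) *
    (circleMap 0 1 θ) ^ ((j:ℤ) - (l:ℤ)) with hK
  have hconj : ∀ r : ℝ, ∀ θ : ℝ, 0 < r → (circleMap 0 r θ) ^ j * conj ((circleMap 0 r θ) ^ l) =
      ((r ^ (2 * l) : ℝ) : ℂ) * (circleMap 0 r θ) ^ ((j:ℤ) - (l:ℤ)) := by
    intro r θ hr
    have hne : circleMap 0 r θ ≠ 0 := by simp [circleMap, hr.ne']
    have h1 : circleMap 0 r θ * conj (circleMap 0 r θ) = ((r ^ 2 : ℝ) : ℂ) := by
      rw [Complex.mul_conj, Complex.normSq_eq_norm_sq, norm_circleMap_zero, sq_abs]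
    rw [zpow_sub₀ hne, zpow_natCast, zpow_natCast, map_pow]
    rw [eq_comm, mul_div_assoc', div_eq_iff (pow_ne_zero _ hne), pow_mul, Complex.ofReal_pow,
      ← h1, mul_pow]
    ring
  have hJ : ∀ r : ℝ, 0 < r → r ≤ 1 → ∫ θ in (0:ℝ)..2 * Real.pi, g (circleMap 0 r θ) *
      ((circleMap 0 r θ) ^ j * conj ((circleMap 0 r θ) ^ l)) = ((r ^ (2 * l) : ℝ) : ℂ) * K := by
    intro r hr hr1
    rw [hK, ← circle_moment_indep hg _ hr hr1, ← intervalIntegral.integral_const_mul]
    congr 1
    ext θ
    rw [hconj r θ hr]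
    ring
  have hJ1 := hJ 1 one_pos le_rfl
  rw [one_pow, Complex.ofReal_one, one_mul] at hJ1
  rw [hJ1]
  have hK0 : l < j → K = 0 := by
    intro hlj
    have := circle_moment_zero hg (k := j - l) (by omega)
    have e : ((j:ℤ) - (l:ℤ)) = ((j - l : ℕ) : ℤ) := by omega
    rw [hK, e]
    simp_rw [zpow_natCast]
    exact this
  have hJ' : ∀ r : ℝ, 0 < r → r ≤ 1 → ∫ θ in (0:ℝ)..2 * Real.pi, g (circleMap 0 r θ) *
      ((circleMap 0 r θ) ^ j * conj ((circleMap 0 r θ) ^ l)) =
        ((r ^ (2 * (max j l)) : ℝ) : ℂ) * K := by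
    intro r hr hr1
    rw [hJ r hr hr1]
    rcases le_or_gt j l with h | h
    · rw [max_eq_right h]
    · rw [hK0 h]; simp
  have hfin : ∫ r in (0:ℝ)..1, (r:ℂ) * ∫ θ in (0:ℝ)..2 * Real.pi, g (circleMap 0 r θ) *
      ((circleMap 0 r θ) ^ j * conj ((circleMap 0 r θ) ^ l)) =
      ∫ r in (0:ℝ)..1, ((r ^ (2 * (max j l) + 1) : ℝ) : ℂ) * K := by
    apply intervalIntegral.integral_congr_ae
    apply Filter.Eventually.of_forall
    intro r hr
    rw [uIoc_of_le zero_le_one] at hr
    rw [hJ' r hr.1 hr.2]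
    push_cast
    ring
  rw [hfin, intervalIntegral.integral_mul_const, intervalIntegral.integral_ofReal, integral_pow]
  rw [one_pow, zero_pow (by omega), sub_zero]
  generalize max j l = m
  push_cast
  rw [div_eq_mul_inv K, mul_comm, one_div]
  congr 2
  ring

/-- The quadrature identity with balayage density, for polynomials. -/
theorem ball_poly {g : ℂ → ℂ} (hg : DiffContOnCl ℂ g (ball 0 1)) (p : ℂ[X]) :
    ∫ z in ball (0:ℂ) 1, g z * ((‖p.eval z‖ ^ 2 : ℝ) : ℂ) =
      ∫ θ in (0:ℝ)..2 * Real.pi, g (circleMap 0 1 θ) * (Bf p (circleMap 0 1 θ) : ℂ) := by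
  have hcont : ContinuousOn g (closedBall 0 1) := by
    have := hg.continuousOn
    rwa [closure_ball (0:ℂ) one_ne_zero] at this
  set N := p.natDegree + 1 with hN
  have hexp : ∀ z : ℂ, ((‖p.eval z‖ ^ 2 : ℝ) : ℂ) = ∑ j ∈ Finset.range N, ∑ l ∈ Finset.range N,
      (p.coeff j * conj (p.coeff l)) * (z ^ j * conj (z ^ l)) := by
    intro z
    rw [← Complex.normSq_eq_norm_sq, ← Complex.mul_conj, eval_eq_sum_range, map_sum,
      Finset.sum_mul_sum]
    refine Finset.sum_congr rfl fun j _ => Finset.sum_congr rfl fun l _ => ?_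
    rw [map_mul]
    ring
  have hgmeas : ∀ j l : ℕ, IntegrableOn (fun z => g z * (z ^ j * conj (z ^ l))) (ball (0:ℂ) 1) := by
    intro j l
    apply IntegrableOn.mono_set (t := closedBall (0:ℂ) 1) _ ball_subset_closedBall
    apply ContinuousOn.integrableOn_compact (isCompact_closedBall _ _)
    apply hcont.mul
    apply Continuous.continuousOn
    exact (continuous_pow j).mul (Complex.continuous_conj.comp (continuous_pow l))
  have hgc : Continuous (fun θ : ℝ => g (circleMap 0 1 θ)) := by
    apply hcont.comp_continuous (continuous_circleMap 0 1)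
    intro θ
    rw [mem_closedBall_zero_iff, norm_circleMap_zero]
    simp
  have hL : ∫ z in ball (0:ℂ) 1, g z * ((‖p.eval z‖ ^ 2 : ℝ) : ℂ) =
      ∑ j ∈ Finset.range N, ∑ l ∈ Finset.range N, (p.coeff j * conj (p.coeff l)) *
        ∫ z in ball (0:ℂ) 1, g z * (z ^ j * conj (z ^ l)) := by
    simp_rw [hexp, Finset.mul_sum]
    rw [integral_finsetSum]
    · refine Finset.sum_congr rfl fun j _ => ?_
      rw [integral_finsetSum]
      · refine Finset.sum_congr rfl fun l _ => ?_
        rw [← integral_const_mul]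
        congr 1
        ext z
        ring
      · intro l _
        have := (hgmeas j l).const_mul (p.coeff j * conj (p.coeff l))
        refine this.congr ?_
        apply Filter.Eventually.of_forall
        intro z
        simp only
        ring
    · intro j _
      apply integrable_finsetSum
      intro l _
      have := (hgmeas j l).const_mul (p.coeff j * conj (p.coeff l))
      refine this.congr ?_
      apply Filter.Eventually.of_forall
      intro z
      simp only
      ring
  rw [hL]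
  have hR : ∫ θ in (0:ℝ)..2 * Real.pi, g (circleMap 0 1 θ) * (Bf p (circleMap 0 1 θ) : ℂ) =
      ∑ j ∈ Finset.range N, ∑ l ∈ Finset.range N, (p.coeff j * conj (p.coeff l)) *
        ((∫ θ in (0:ℝ)..2 * Real.pi, g (circleMap 0 1 θ) *
        ((circleMap 0 1 θ) ^ j * conj ((circleMap 0 1 θ) ^ l))) /
        (2 * ((max j l : ℕ) : ℂ) + 2)) := by
    simp_rw [Bf_coe, BN, ← hN, Finset.mul_sum]
    have hci : ∀ j l : ℕ, Continuous (fun θ : ℝ => g (circleMap 0 1 θ) *
        ((p.coeff j * circleMap 0 1 θ ^ j) * conj (p.coeff l * circleMap 0 1 θ ^ l) /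
        (2 * ((max j l : ℕ) : ℂ) + 2))) := by
      intro j l
      apply hgc.mul
      have := continuous_circleMap (0:ℂ) 1
      fun_prop
    rw [intervalIntegral.integral_finsetSum]
    · refine Finset.sum_congr rfl fun j _ => ?_
      rw [intervalIntegral.integral_finsetSum]
      · refine Finset.sum_congr rfl fun l _ => ?_
        rw [div_eq_mul_inv, ← intervalIntegral.integral_mul_const,
          ← intervalIntegral.integral_const_mul]
        congr 1
        ext θ
        rw [map_mul]
        ring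
      · intro l _
        exact (hci j l).intervalIntegrable _ _
    · intro j _
      apply Continuous.intervalIntegrable
      exact continuous_finsetSum _ (fun l _ => hci j l)
  rw [hR]
  refine Finset.sum_congr rfl fun j _ => Finset.sum_congr rfl fun l _ => ?_
  rw [ball_monomial hg]

end Pool.Agent.Work.MP_9159b8_an
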