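import Mathlib

set_option autoImplicit false

namespace Pool.Agent.Work.MP_9159b8_an

open Polynomial Set Metric

/-- A Gronwall type comparison: if `‖G'‖ (1 - t) < a ‖G‖` on `[0,1)`, then `G` stays close to `G 0`
in a controlled way. -/
lemma ode_bound {G G' : ℝ → ℂ} {a : ℝ} (ha : 0 < a)
    (hG : ∀ t ∈ Ico (0:ℝ) 1, HasDerivAt G (G' t) t)
    (hb : ∀ t ∈ Ico (0:ℝ) 1, ‖G' t‖ * (1 - t) < a * ‖G t‖) :
    ∀ t ∈ Ico (0:ℝ) 1, ‖G t - G 0‖ ≤ ((1 - t) ^ (-a) - 1) * ‖G 0‖ := by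
  intro T hT
  have hsub : Icc (0:ℝ) T ⊆ Ico (0:ℝ) 1 := fun x hx => ⟨hx.1, lt_of_le_of_lt hx.2 hT.2⟩
  have hBderiv : ∀ x ∈ Ico (0:ℝ) 1, HasDerivAt (fun t : ℝ => ((1 - t) ^ (-a) - 1) * ‖G 0‖)
      ((a * (1 - x) ^ (-a - 1)) * ‖G 0‖) x := by
    intro x hx
    have h1 : HasDerivAt (fun t : ℝ => 1 - t) (-1) x := by
      simpa using (hasDerivAt_id x).const_sub 1
    have hpos : (0:ℝ) < 1 - x := by linarith [hx.2]
    have h2 := h1.rpow_const (p := -a) (Or.inl hpos.ne')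
    have h3 : HasDerivAt (fun t : ℝ => (1 - t) ^ (-a) - 1) (a * (1 - x) ^ (-a - 1)) x := by
      exact (h2.sub_const 1).congr_deriv (by ring)
    exact h3.mul_const _
  have key := image_norm_le_of_norm_deriv_right_lt_deriv_boundary'
    (f := fun t => G t - G 0) (a := 0) (b := T) (f' := G')
    (fun x hx => ((hG x (hsub hx)).continuousAt.sub continuousAt_const).continuousWithinAt)
    (fun x hx => ((hG x (hsub ⟨hx.1, hx.2.le⟩)).sub_const (G 0)).hasDerivWithinAt)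
    (B := fun t : ℝ => ((1 - t) ^ (-a) - 1) * ‖G 0‖)
    (B' := fun x : ℝ => (a * (1 - x) ^ (-a - 1)) * ‖G 0‖)
    (by simp)
    (fun x hx => (hBderiv x (hsub hx)).continuousAt.continuousWithinAt)
    (fun x hx => (hBderiv x (hsub ⟨hx.1, hx.2.le⟩)).hasDerivWithinAt)
    ?_
  · exact key ⟨hT.1, le_refl T⟩
  · intro x hx heq
    have hx' : x ∈ Ico (0:ℝ) 1 := hsub ⟨hx.1, hx.2.le⟩
    have hpos : (0:ℝ) < 1 - x := by linarith [hx'.2]
    have h1 : ‖G x‖ ≤ (1 - x) ^ (-a) * ‖G 0‖ := by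
      have : ‖G x‖ ≤ ‖G x - G 0‖ + ‖G 0‖ := by
        simpa using norm_add_le (G x - G 0) (G 0)
      rw [heq] at this
      linarith
    have h2 := hb x hx'
    have h3 : (1 - x) ^ (-a - 1) = (1 - x) ^ (-a) / (1 - x) := by
      rw [Real.rpow_sub hpos, Real.rpow_one]
    rw [h3]
    have h4 : ‖G' x‖ < a * ‖G x‖ / (1 - x) := by
      rw [lt_div_iff₀ hpos]; exact h2
    calc ‖G' x‖ < a * ‖G x‖ / (1 - x) := h4
      _ ≤ a * ((1 - x) ^ (-a) * ‖G 0‖) / (1 - x) := by gcongr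
      _ = a * ((1 - x) ^ (-a) / (1 - x)) * ‖G 0‖ := by ring

/-- The class of polynomials with small Bloch type norm of `log p`. -/
def SB (p : ℂ[X]) : Prop :=
  ∀ z : ℂ, ‖z‖ ≤ 1 → (1 - ‖z‖) * ‖(derivative p).eval z‖ < (1/10) * ‖p.eval z‖

lemma SB.ne_zero {p : ℂ[X]} (h : SB p) {z : ℂ} (hz : ‖z‖ ≤ 1) : p.eval z ≠ 0 := by
  intro h0
  have := h z hz
  rw [h0, norm_zero, mul_zero] at this
  have h2 : 0 ≤ (1 - ‖z‖) * ‖(derivative p).eval z‖ :=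
    mul_nonneg (by linarith) (norm_nonneg _)
  linarith

lemma norm_seg {z w : ℂ} (hw : ‖w‖ ≤ 1) {t : ℝ} (ht : t ∈ Icc (0:ℝ) 1) :
    (1 - t) * (1 - ‖z‖) ≤ 1 - ‖z + (t:ℂ) * (w - z)‖ := by
  have h1 : z + (t:ℂ) * (w - z) = ((1 - t : ℝ) : ℂ) * z + (t:ℂ) * w := by
    push_cast; ring
  have h2 : ‖z + (t:ℂ) * (w - z)‖ ≤ (1 - t) * ‖z‖ + t * ‖w‖ := by
    rw [h1]
    refine (norm_add_le _ _).trans ?_
    rw [norm_mul, norm_mul, Complex.norm_real, Complex.norm_real, Real.norm_eq_abs,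
      Real.norm_eq_abs, abs_of_nonneg ht.1, abs_of_nonneg (by linarith [ht.2] : (0:ℝ) ≤ 1 - t)]
  have h3 : t * ‖w‖ ≤ t := by nlinarith [ht.1, ht.2]
  nlinarith

lemma seg_deriv (p : ℂ[X]) (z w : ℂ) (t : ℝ) :
    HasDerivAt (fun s : ℝ => p.eval (z + (s:ℂ) * (w - z)))
      ((derivative p).eval (z + (t:ℂ) * (w - z)) * (w - z)) t := by
  have h1 : HasDerivAt (fun s : ℝ => z + (s:ℂ) * (w - z)) (w - z) t := by
    have := ((Complex.ofRealCLM.hasDerivAt (x := t)).mul_const (w - z)).const_add z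
    simpa using this
  have h2 := (p.hasDerivAt (z + (t:ℂ) * (w - z))).comp t h1
  simpa [Function.comp_def] using h2

/-- Along a segment from `z` (interior) to `w` (closed disc) with `‖w - z‖ ≤ 2 (1 - ‖z‖)`. -/
lemma seg_bound {p : ℂ[X]} (hp : SB p) {z w : ℂ} (hw : ‖w‖ ≤ 1) (hz : ‖z‖ < 1)
    (hzw : ‖w - z‖ ≤ 2 * (1 - ‖z‖)) {t : ℝ} (ht : t ∈ Ico (0:ℝ) 1) :
    ‖p.eval (z + (t:ℂ) * (w - z)) - p.eval z‖ ≤ ((1 - t) ^ (-(1/5:ℝ)) - 1) * ‖p.eval z‖ := by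
  have := ode_bound (G := fun s : ℝ => p.eval (z + (s:ℂ) * (w - z)))
    (G' := fun s : ℝ => (derivative p).eval (z + (s:ℂ) * (w - z)) * (w - z))
    (a := 1/5) (by norm_num) (fun s _ => seg_deriv p z w s) ?_ t ht
  · simpa using this
  · intro s hs
    have hs' : s ∈ Icc (0:ℝ) 1 := ⟨hs.1, hs.2.le⟩
    have hn := norm_seg (z := z) hw hs'
    have h1 : ‖z + (s:ℂ) * (w - z)‖ ≤ 1 := by
      have : 0 ≤ (1 - s) * (1 - ‖z‖) := mul_nonneg (by linarith [hs.2]) (by linarith)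
      linarith
    have h2 := hp _ h1
    rw [norm_mul]
    set A := ‖(derivative p).eval (z + (s:ℂ) * (w - z))‖ with hA
    have hA0 : 0 ≤ A := norm_nonneg _
    have h1s : 0 < 1 - s := by linarith [hs.2]
    calc A * ‖w - z‖ * (1 - s) ≤ A * (2 * (1 - ‖z‖)) * (1 - s) := by gcongr
      _ = 2 * (A * ((1 - s) * (1 - ‖z‖))) := by ring
      _ ≤ 2 * (A * (1 - ‖z + (s:ℂ) * (w - z)‖)) := by gcongr
      _ < 1/5 * ‖p.eval (z + (s:ℂ) * (w - z))‖ := by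
        have : A * (1 - ‖z + (s:ℂ) * (w - z)‖) < (1/10) * ‖p.eval (z + (s:ℂ) * (w - z))‖ := by
          rw [mul_comm]; exact h2
        linarith

/-- Integrated version for a primitive `q` of `p`. -/
lemma seg_prim {p q : ℂ[X]} (hp : SB p) (hq : derivative q = p) {z w : ℂ} (hw : ‖w‖ ≤ 1)
    (hz : ‖z‖ < 1) (hzw : ‖w - z‖ ≤ 2 * (1 - ‖z‖)) :
    ‖q.eval w - q.eval z - (w - z) * p.eval z‖ ≤ (1/4) * (‖w - z‖ * ‖p.eval z‖) := by
  set H : ℝ → ℂ := fun s => q.eval (z + (s:ℂ) * (w - z)) - q.eval z - (s:ℂ) * ((w - z) * p.eval z)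
    with hH
  have hHd : ∀ s : ℝ, HasDerivAt H ((p.eval (z + (s:ℂ) * (w - z)) - p.eval z) * (w - z)) s := by
    intro s
    have h1 := seg_deriv q z w s
    rw [hq] at h1
    have h2 : HasDerivAt (fun s : ℝ => (s:ℂ) * ((w - z) * p.eval z)) ((w - z) * p.eval z) s := by
      have := (Complex.ofRealCLM.hasDerivAt (x := s)).mul_const ((w - z) * p.eval z)
      simpa using this
    have h3 := (h1.sub_const (q.eval z)).sub h2
    exact h3.congr_deriv (by ring)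
  have hcont : ContinuousOn (fun t : ℝ => ((5/4) * (1 - (1 - t) ^ (4/5:ℝ)) - t) *
      (‖w - z‖ * ‖p.eval z‖)) (Icc 0 1) := by
    apply ContinuousOn.mul _ continuousOn_const
    apply ContinuousOn.sub _ continuousOn_id
    apply ContinuousOn.mul continuousOn_const
    apply ContinuousOn.sub continuousOn_const
    exact (continuousOn_const.sub continuousOn_id).rpow_const (fun x _ => Or.inr (by norm_num))
  have key := image_norm_le_of_norm_deriv_right_le_deriv_boundary'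
    (f := H) (a := 0) (b := 1) (f' := fun s => (p.eval (z + (s:ℂ) * (w - z)) - p.eval z) * (w - z))
    (fun x _ => (hHd x).continuousAt.continuousWithinAt)
    (fun x _ => (hHd x).hasDerivWithinAt)
    (B := fun t : ℝ => ((5/4) * (1 - (1 - t) ^ (4/5:ℝ)) - t) * (‖w - z‖ * ‖p.eval z‖))
    (B' := fun t : ℝ => ((1 - t) ^ (-(1/5:ℝ)) - 1) * (‖w - z‖ * ‖p.eval z‖))
    (by simp [hH]) hcont ?_ ?_
  · have h1 := key (x := 1) ⟨by norm_num, le_refl _⟩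
    have h2 : H 1 = q.eval w - q.eval z - (w - z) * p.eval z := by
      simp [hH]
    rw [h2] at h1
    refine h1.trans ?_
    have h3 : ((1:ℝ) - 1) ^ (4/5:ℝ) = 0 := by
      rw [sub_self]; exact Real.zero_rpow (by norm_num)
    simp only [h3]
    norm_num
  · intro x hx
    have hpos : (0:ℝ) < 1 - x := by linarith [hx.2]
    have h1 : HasDerivAt (fun t : ℝ => 1 - t) (-1) x := by
      simpa using (hasDerivAt_id x).const_sub 1
    have h2 := h1.rpow_const (p := 4/5) (Or.inl hpos.ne')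
    have h3 : HasDerivAt (fun t : ℝ => (5/4) * (1 - (1 - t) ^ (4/5:ℝ)) - t)
        ((1 - x) ^ (-(1/5:ℝ)) - 1) x := by
      have h4 := ((h2.const_sub 1).const_mul (5/4)).sub (hasDerivAt_id x)
      have h5 : (4/5:ℝ) - 1 = -(1/5) := by norm_num
      refine h4.congr_deriv ?_
      rw [h5]
      ring
    exact (h3.mul_const _).hasDerivWithinAt
  · intro x hx
    have := seg_bound hp hw hz hzw hx
    rw [norm_mul]
    calc ‖p.eval (z + (x:ℂ) * (w - z)) - p.eval z‖ * ‖w - z‖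
        ≤ (((1 - x) ^ (-(1/5:ℝ)) - 1) * ‖p.eval z‖) * ‖w - z‖ := by gcongr
      _ = _ := by ring

/-- The auxiliary interior point attached to two points of the closed disc. -/
noncomputable def midpt (z₁ z₂ : ℂ) : ℂ := ((1 - ‖z₁ - z₂‖ / 2 : ℝ) : ℂ) * ((z₁ + z₂) / 2)

lemma norm_midpt_le {z₁ z₂ : ℂ} (h₁ : ‖z₁‖ ≤ 1) (h₂ : ‖z₂‖ ≤ 1) :
    ‖midpt z₁ z₂‖ ≤ 1 - ‖z₁ - z₂‖ / 2 := by
  have hd : ‖z₁ - z₂‖ ≤ 2 := (norm_sub_le _ _).trans (by linarith)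
  have hm : ‖(z₁ + z₂) / 2‖ ≤ 1 := by
    rw [norm_div]
    have := norm_add_le z₁ z₂
    simp only [Complex.norm_ofNat]
    linarith
  unfold midpt
  rw [norm_mul, Complex.norm_real, Real.norm_eq_abs, abs_of_nonneg (by linarith)]
  nlinarith [norm_nonneg ((z₁ + z₂) / 2)]

lemma midpt_comm (z₁ z₂ : ℂ) : midpt z₁ z₂ = midpt z₂ z₁ := by
  unfold midpt
  rw [norm_sub_rev, add_comm]

lemma dist_midpt_le {z₁ z₂ : ℂ} (h₁ : ‖z₁‖ ≤ 1) (h₂ : ‖z₂‖ ≤ 1) :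
    ‖z₁ - midpt z₁ z₂‖ ≤ ‖z₁ - z₂‖ := by
  have hm : ‖(z₁ + z₂) / 2‖ ≤ 1 := by
    rw [norm_div]
    have := norm_add_le z₁ z₂
    simp only [Complex.norm_ofNat]
    linarith
  have h : z₁ - midpt z₁ z₂ = (z₁ - z₂) / 2 + ((‖z₁ - z₂‖ / 2 : ℝ) : ℂ) * ((z₁ + z₂) / 2) := by
    unfold midpt; push_cast; ring
  rw [h]
  refine (norm_add_le _ _).trans ?_
  rw [norm_mul, Complex.norm_real, Real.norm_eq_abs, abs_of_nonneg (by positivity), norm_div]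
  simp only [Complex.norm_ofNat]
  nlinarith [norm_nonneg (z₁ - z₂)]

/-- The basic two point estimate. -/
lemma two_point {p q : ℂ[X]} (hp : SB p) (hq : derivative q = p) {z₁ z₂ : ℂ} (h₁ : ‖z₁‖ ≤ 1)
    (h₂ : ‖z₂‖ ≤ 1) :
    ‖q.eval z₁ - q.eval z₂ - (z₁ - z₂) * p.eval (midpt z₁ z₂)‖ ≤
      (1/2) * (‖z₁ - z₂‖ * ‖p.eval (midpt z₁ z₂)‖) := by
  rcases eq_or_ne z₁ z₂ with rfl | hne
  · simp
  have hd : 0 < ‖z₁ - z₂‖ := norm_pos_iff.mpr (sub_ne_zero.mpr hne)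
  set m := midpt z₁ z₂ with hm
  have hm1 : ‖m‖ ≤ 1 - ‖z₁ - z₂‖ / 2 := norm_midpt_le h₁ h₂
  have hm2 : ‖m‖ < 1 := by linarith
  have hz1 : ‖z₁ - m‖ ≤ ‖z₁ - z₂‖ := dist_midpt_le h₁ h₂
  have hz2 : ‖z₂ - m‖ ≤ ‖z₁ - z₂‖ := by
    rw [hm, midpt_comm, norm_sub_rev z₁ z₂]; exact dist_midpt_le h₂ h₁
  have e1 := seg_prim hp hq h₁ hm2 (by linarith)
  have e2 := seg_prim hp hq h₂ hm2 (by linarith)
  have hid : q.eval z₁ - q.eval z₂ - (z₁ - z₂) * p.eval m =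
      (q.eval z₁ - q.eval m - (z₁ - m) * p.eval m) -
      (q.eval z₂ - q.eval m - (z₂ - m) * p.eval m) := by ring
  rw [hid]
  refine (norm_sub_le _ _).trans ?_
  have hP : 0 ≤ ‖p.eval m‖ := norm_nonneg _
  nlinarith

/-- Lower bound for `p` inside the disc. -/
lemma lower_bound {p : ℂ[X]} (hp : SB p) {z : ℂ} (hz : ‖z‖ < 1) :
    ‖p.eval 0‖ * (1 - ‖z‖) ^ (1/10:ℝ) ≤ ‖p.eval z‖ := by
  rcases eq_or_ne z 0 with rfl | hz0
  · simp
  have hzpos : 0 < ‖z‖ := norm_pos_iff.mpr hz0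
  set e : ℂ := z / (‖z‖ : ℂ) with he
  have hzc : (‖z‖ : ℂ) ≠ 0 := by exact_mod_cast hzpos.ne'
  have hen : ‖e‖ = 1 := by
    rw [he, norm_div, Complex.norm_real, norm_norm, div_self hzpos.ne']
  have hG : ∀ t ∈ Ico (0:ℝ) 1, HasDerivAt (fun s : ℝ => (p.eval ((s:ℂ) * e))⁻¹)
      (-((derivative p).eval ((t:ℂ) * e) * e) / (p.eval ((t:ℂ) * e)) ^ 2) t := by
    intro t ht
    have h1 := seg_deriv p 0 e t
    simp only [sub_zero, zero_add] at h1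
    have hne : p.eval ((t:ℂ) * e) ≠ 0 := by
      apply hp.ne_zero
      rw [norm_mul, hen, Complex.norm_real, Real.norm_eq_abs, abs_of_nonneg ht.1]
      linarith [ht.2]
    exact h1.inv hne
  have key := ode_bound (a := 1/10) (by norm_num) hG ?_ ‖z‖ ⟨hzpos.le, hz⟩
  · have hze : (‖z‖ : ℂ) * e = z := by rw [he]; field_simp
    simp only [hze, Complex.ofReal_zero, zero_mul] at key
    have hp0 : p.eval 0 ≠ 0 := hp.ne_zero (by simp)
    have hpz : p.eval z ≠ 0 := hp.ne_zero hz.le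
    have hpos : (0:ℝ) < 1 - ‖z‖ := by linarith
    have h1 : ‖(p.eval z)⁻¹‖ ≤ (1 - ‖z‖) ^ (-(1/10:ℝ)) * ‖(p.eval 0)⁻¹‖ := by
      have : ‖(p.eval z)⁻¹‖ ≤ ‖(p.eval z)⁻¹ - (p.eval 0)⁻¹‖ + ‖(p.eval 0)⁻¹‖ := by
        simpa using norm_add_le ((p.eval z)⁻¹ - (p.eval 0)⁻¹) ((p.eval 0)⁻¹)
      linarith
    rw [norm_inv, norm_inv, Real.rpow_neg hpos.le] at h1
    have hA : 0 < ‖p.eval z‖ := norm_pos_iff.mpr hpz
    have hB : 0 < ‖p.eval 0‖ := norm_pos_iff.mpr hp0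
    have hC : 0 < (1 - ‖z‖) ^ (1/10:ℝ) := Real.rpow_pos_of_pos hpos _
    rw [← mul_inv, inv_le_inv₀ hA (by positivity)] at h1
    linarith
  · intro t ht
    have hn : ‖(t:ℂ) * e‖ = t := by
      rw [norm_mul, hen, Complex.norm_real, Real.norm_eq_abs, abs_of_nonneg ht.1, mul_one]
    have hle : ‖(t:ℂ) * e‖ ≤ 1 := by rw [hn]; exact ht.2.le
    have hne := hp.ne_zero hle
    have h1 := hp _ hle
    rw [hn] at h1
    have hA : 0 < ‖p.eval ((t:ℂ) * e)‖ := norm_pos_iff.mpr hne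
    rw [norm_div, norm_neg, norm_mul, hen, mul_one, norm_pow, norm_inv, div_mul_eq_mul_div,
      div_lt_iff₀ (by positivity)]
    calc ‖(derivative p).eval ((t:ℂ) * e)‖ * (1 - t)
        < (1/10) * ‖p.eval ((t:ℂ) * e)‖ := by linarith
      _ = 1/10 * ‖p.eval ((t:ℂ) * e)‖⁻¹ * ‖p.eval ((t:ℂ) * e)‖ ^ 2 := by
        field_simp

end Pool.Agent.Work.MP_9159b8_an
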