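import Mathlib
import Pool.Agent.Work.MP_9159b8_an.Univ
import Pool.Agent.Work.MP_9159b8_an.Bfun

set_option autoImplicit false

namespace Pool.Agent.Work.MP_9159b8_an

open Polynomial Set Metric Filter Topology

/-! ### Approximation of positive continuous functions by moduli of polynomials -/

lemma span_fourier_poly (h : C(AddCircle (1:ℝ), ℂ)) (hh : h ∈ Submodule.span ℂ (range (fourier (T := 1)))) :
    ∃ (m : ℕ) (q : ℂ[X]), ∀ x, (fourier 1 x) ^ m * h x = q.eval (fourier 1 x : ℂ) := by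
  induction hh using Submodule.span_induction with
  | mem h hh =>
    obtain ⟨n, rfl⟩ := hh
    rcases le_total 0 n with hn | hn
    · obtain ⟨k, rfl⟩ := Int.eq_ofNat_of_zero_le hn
      refine ⟨0, X ^ k, fun x => ?_⟩
      rw [pow_zero, one_mul, eval_pow, eval_X]
      simp only [fourier_apply, one_zsmul, AddCircle.toCircle_zsmul, Circle.coe_zpow]
      simp
    · obtain ⟨k, hk⟩ := Int.eq_ofNat_of_zero_le (neg_nonneg.mpr hn)
      have hn' : n = -(k:ℤ) := by linarith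
      subst hn'
      refine ⟨k, 1, fun x => ?_⟩
      rw [eval_one]
      simp only [fourier_apply, one_zsmul, AddCircle.toCircle_zsmul, Circle.coe_zpow]
      rw [zpow_neg, zpow_natCast]
      exact mul_inv_cancel₀ (pow_ne_zero _ (Circle.coe_ne_zero _))
  | zero => exact ⟨0, 0, fun x => by simp⟩
  | add h₁ h₂ _ _ ih₁ ih₂ =>
    obtain ⟨m₁, q₁, e₁⟩ := ih₁
    obtain ⟨m₂, q₂, e₂⟩ := ih₂
    refine ⟨m₁ + m₂, X ^ m₂ * q₁ + X ^ m₁ * q₂, fun x => ?_⟩
    rw [eval_add, eval_mul, eval_mul, eval_pow, eval_pow, eval_X, ← e₁ x, ← e₂ x,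
      ContinuousMap.add_apply]
    ring
  | smul a h _ ih =>
    obtain ⟨m, q, e⟩ := ih
    refine ⟨m, C a * q, fun x => ?_⟩
    rw [eval_mul, eval_C, ← e x, ContinuousMap.smul_apply, smul_eq_mul]
    ring

lemma exists_poly_approx {τ : ℂ → ℝ} (hτ : ContinuousOn τ (sphere 0 1))
    (hpos : ∀ ζ, ‖ζ‖ = 1 → 0 < τ ζ) :
    ∃ q : ℂ[X], ∀ ζ, ‖ζ‖ = 1 → τ ζ / 2 < ‖q.eval ζ‖ ∧ ‖q.eval ζ‖ < τ ζ := by
  have : Fact ((0:ℝ) < 1) := ⟨one_pos⟩
  -- positive minimum
  have hcpt : IsCompact (sphere (0:ℂ) 1) := isCompact_sphere _ _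
  have hne : (sphere (0:ℂ) 1).Nonempty := ⟨1, by simp⟩
  obtain ⟨ζ₀, hζ₀, hmin⟩ := hcpt.exists_isMinOn hne hτ
  have hζ₀' : ‖ζ₀‖ = 1 := by simpa using hζ₀
  set δ := τ ζ₀ / 4 with hδ
  have hδpos : 0 < δ := by have := hpos ζ₀ hζ₀'; positivity
  have hmem : ∀ x : AddCircle (1:ℝ), (fourier 1 x : ℂ) ∈ sphere (0:ℂ) 1 := by
    intro x
    rw [mem_sphere_zero_iff_norm, fourier_apply]
    exact Circle.norm_coe _
  set F : C(AddCircle (1:ℝ), ℂ) :=
    ⟨fun x => (((3/4) * τ (fourier 1 x) : ℝ) : ℂ), by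
      apply Complex.continuous_ofReal.comp
      apply continuous_const.mul
      exact hτ.comp_continuous (ContinuousMap.continuous _) hmem⟩ with hF
  have hFmem : F ∈ (Submodule.span ℂ (range (fourier (T := 1)))).topologicalClosure := by
    rw [span_fourier_closure_eq_top]; exact Submodule.mem_top
  rw [← SetLike.mem_coe, Submodule.topologicalClosure_coe, Metric.mem_closure_iff] at hFmem
  obtain ⟨h, hh, hFh⟩ := hFmem δ hδpos
  obtain ⟨m, q, hq⟩ := span_fourier_poly h hh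
  refine ⟨q, fun ζ hζ => ?_⟩
  -- ζ is in the range
  obtain ⟨x, hx⟩ : ∃ x : AddCircle (1:ℝ), (fourier 1 x : ℂ) = ζ := by
    obtain ⟨x, hx⟩ := (AddCircle.homeomorphCircle (T := 1) one_ne_zero).surjective
      (⟨ζ, mem_sphere_zero_iff_norm.2 hζ⟩ : Circle)
    refine ⟨x, ?_⟩
    rw [AddCircle.homeomorphCircle_apply] at hx
    rw [fourier_apply, one_zsmul, hx]
  have h2 : ‖q.eval ζ‖ = ‖h x‖ := by
    have := hq x
    rw [hx] at this
    rw [← this, norm_mul, norm_pow, hζ, one_pow, one_mul]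
  have h3 : ‖F x - h x‖ < δ := by
    have := ContinuousMap.dist_lt_iff hδpos |>.mp hFh x
    rwa [dist_eq_norm] at this
  have h4 : ‖F x‖ = (3/4) * τ ζ := by
    rw [hF]
    simp only [ContinuousMap.coe_mk]
    rw [hx, Complex.norm_real, Real.norm_eq_abs, abs_of_nonneg]
    have := hpos ζ hζ
    positivity
  have h5 : τ ζ₀ ≤ τ ζ := hmin (by simpa using hζ)
  have h6 : ‖F x‖ ≤ ‖F x - h x‖ + ‖h x‖ := by simpa using norm_add_le (F x - h x) (h x)
  have h7 : ‖h x‖ ≤ ‖F x - h x‖ + ‖F x‖ := by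
    have := norm_sub_le (F x) (F x - h x)
    simp only [sub_sub_cancel] at this
    linarith
  have h8 := hpos ζ hζ
  rw [h2]
  rw [h4] at h6 h7
  constructor <;> linarith

/-! ### Elementary inequalities -/

lemma pow_mul_one_sub_le (m : ℕ) {r : ℝ} (h0 : 0 ≤ r) (h1 : r ≤ 1) :
    ((m:ℝ) + 1) * r ^ m * (1 - r) ≤ 1 := by
  have hs : ((m:ℝ) + 1) * r ^ m ≤ ∑ i ∈ Finset.range (m + 1), r ^ i := by
    have : ∑ i ∈ Finset.range (m + 1), r ^ m ≤ ∑ i ∈ Finset.range (m + 1), r ^ i := by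
      apply Finset.sum_le_sum
      intro i hi
      exact pow_le_pow_of_le_one h0 h1 (by simpa [Nat.lt_succ_iff] using hi)
    simpa using this
  have hg : (∑ i ∈ Finset.range (m + 1), r ^ i) * (1 - r) = 1 - r ^ (m + 1) := by
    have := geom_sum_mul_neg r (m + 1)
    simpa using this
  calc ((m:ℝ) + 1) * r ^ m * (1 - r) ≤ (∑ i ∈ Finset.range (m + 1), r ^ i) * (1 - r) :=
        mul_le_mul_of_nonneg_right hs (by linarith)
    _ = 1 - r ^ (m + 1) := hg
    _ ≤ 1 := by linarith [pow_nonneg h0 (m + 1)]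

/-- The maximum principle for polynomials on the unit disc. -/
lemma poly_max {q : ℂ[X]} {C : ℝ} (h : ∀ ζ, ‖ζ‖ = 1 → ‖q.eval ζ‖ ≤ C) {z : ℂ} (hz : ‖z‖ ≤ 1) :
    ‖q.eval z‖ ≤ C := by
  have hd : DiffContOnCl ℂ (fun z => q.eval z) (ball (0:ℂ) 1) :=
    q.differentiable.diffContOnCl
  apply Complex.norm_le_of_forall_mem_frontier_norm_le isBounded_ball hd
  · intro ζ hζ
    rw [frontier_ball (0:ℂ) one_ne_zero] at hζ
    exact h ζ (by simpa using hζ)
  · rw [closure_ball (0:ℂ) one_ne_zero]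
    simpa using hz

/-- Preservation of the Bloch type bound. -/
lemma SB_step {p q : ℂ[X]} (hp : SB p) (hq : ∀ ζ, ‖ζ‖ = 1 → ‖q.eval ζ‖ ≤ 1/20) :
    ∀ᶠ M : ℕ in atTop, SB (p * (1 + X ^ M * q)) := by
  have hq' : ∀ z : ℂ, ‖z‖ ≤ 1 → ‖q.eval z‖ ≤ 1/20 := fun z hz => poly_max hq hz
  have hK : IsCompact (closedBall (0:ℂ) 1) := isCompact_closedBall _ _
  have hKne : (closedBall (0:ℂ) 1).Nonempty := ⟨0, by simp⟩
  -- bounds for p
  have hcont : ContinuousOn (fun z : ℂ => (1 - ‖z‖) * ‖(derivative p).eval z‖ / ‖p.eval z‖)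
      (closedBall 0 1) := by
    apply ContinuousOn.div
    · exact ((continuous_const.sub continuous_norm).mul
        (derivative p).continuous.norm).continuousOn
    · exact p.continuous.norm.continuousOn
    · intro z hz
      exact (norm_pos_iff.mpr (hp.ne_zero (by simpa using hz))).ne'
  obtain ⟨z₁, hz₁, hmax₁⟩ := hK.exists_isMaxOn hKne hcont
  set η₁ := (1 - ‖z₁‖) * ‖(derivative p).eval z₁‖ / ‖p.eval z₁‖ with hη₁
  have hη₁lt : η₁ < 1/10 := by
    have h1 : ‖z₁‖ ≤ 1 := by simpa using hz₁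
    rw [hη₁, div_lt_iff₀ (norm_pos_iff.mpr (hp.ne_zero h1))]
    exact hp z₁ h1
  have hb1 : ∀ z : ℂ, ‖z‖ ≤ 1 → (1 - ‖z‖) * ‖(derivative p).eval z‖ ≤ η₁ * ‖p.eval z‖ := by
    intro z hz
    have := hmax₁ (show z ∈ closedBall (0:ℂ) 1 by simpa using hz)
    simp only [mem_ofPred_eq] at this
    rwa [← hη₁, div_le_iff₀ (norm_pos_iff.mpr (hp.ne_zero hz))] at this
  have hcont2 : ContinuousOn (fun z : ℂ => ‖(derivative p).eval z‖ / ‖p.eval z‖)
      (closedBall 0 1) := by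
    apply ContinuousOn.div
    · exact (derivative p).continuous.norm.continuousOn
    · exact p.continuous.norm.continuousOn
    · intro z hz
      exact (norm_pos_iff.mpr (hp.ne_zero (by simpa using hz))).ne'
  obtain ⟨z₂, hz₂, hmax₂⟩ := hK.exists_isMaxOn hKne hcont2
  set Cp := ‖(derivative p).eval z₂‖ / ‖p.eval z₂‖ with hCp
  have hCp0 : 0 ≤ Cp := by positivity
  have hb2 : ∀ z : ℂ, ‖z‖ ≤ 1 → ‖(derivative p).eval z‖ ≤ Cp * ‖p.eval z‖ := by
    intro z hz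
    have := hmax₂ (show z ∈ closedBall (0:ℂ) 1 by simpa using hz)
    simp only [mem_ofPred_eq] at this
    rwa [← hCp, div_le_iff₀ (norm_pos_iff.mpr (hp.ne_zero hz))] at this
  -- bound for q'
  obtain ⟨z₃, hz₃, hmax₃⟩ := hK.exists_isMaxOn hKne (derivative q).continuous.norm.continuousOn
  set Cq := ‖(derivative q).eval z₃‖ with hCq
  have hCq0 : 0 ≤ Cq := norm_nonneg _
  have hb3 : ∀ z : ℂ, ‖z‖ ≤ 1 → ‖(derivative q).eval z‖ ≤ Cq := by
    intro z hz
    exact hmax₃ (show z ∈ closedBall (0:ℂ) 1 by simpa using hz)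
  -- radius
  set r₀ : ℝ := 1 - 1 / (100 * (Cp + 1)) with hr₀
  have hfrac : 0 < 1 / (100 * (Cp + 1)) := by positivity
  have hfrac2 : 1 / (100 * (Cp + 1)) ≤ 1/100 := by
    apply div_le_div_of_nonneg_left (by norm_num) (by norm_num)
    linarith
  have hr₀pos : 0 < r₀ := by rw [hr₀]; linarith
  have hr₀lt : r₀ < 1 := by rw [hr₀]; linarith
  have hδ₁ : 0 < 1/10 - η₁ := by linarith
  -- eventual conditions
  have ev1 : ∀ᶠ M : ℕ in atTop, (M:ℝ) * r₀ ^ M / r₀ * (1/20) + r₀ ^ M * Cq < (1/10 - η₁) * (19/20) := by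
    have t1 : Tendsto (fun M : ℕ => (M:ℝ) * r₀ ^ M / r₀ * (1/20) + r₀ ^ M * Cq) atTop
        (𝓝 (0 / r₀ * (1/20) + 0 * Cq)) := by
      apply Tendsto.add
      · apply Tendsto.mul_const
        apply Tendsto.div_const
        exact tendsto_self_mul_const_pow_of_lt_one hr₀pos.le hr₀lt
      · apply Tendsto.mul_const
        exact tendsto_pow_atTop_nhds_zero_of_lt_one hr₀pos.le hr₀lt
    have : 0 / r₀ * (1/20) + 0 * Cq < (1/10 - η₁) * (19/20) := by
      simp only [zero_div, zero_mul, add_zero]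
      positivity
    exact t1.eventually (gt_mem_nhds this)
  have ev2 : ∀ᶠ M : ℕ in atTop, Cq / ((M:ℝ) + 1) < 1/100 := by
    have t2 : Tendsto (fun M : ℕ => Cq / ((M:ℝ) + 1)) atTop (𝓝 0) :=
      tendsto_const_div_atTop_nhds_zero_nat Cq |>.comp (tendsto_add_atTop_nat 1) |>.congr
        (fun M => by simp)
    exact t2.eventually (gt_mem_nhds (by norm_num))
  filter_upwards [ev1, ev2, eventually_ge_atTop 1] with M h1 h2 hM1
  intro z hz
  set r := ‖z‖ with hr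
  have hr0 : 0 ≤ r := norm_nonneg _
  have hrM : r ^ M ≤ 1 := pow_le_one₀ hr0 hz
  -- derivative
  have hder : (derivative (p * (1 + X ^ M * q))).eval z =
      (derivative p).eval z * (1 + z ^ M * q.eval z) +
        p.eval z * ((M:ℂ) * z ^ (M - 1) * q.eval z + z ^ M * (derivative q).eval z) := by
    simp only [derivative_mul, derivative_add, derivative_one, derivative_X_pow, zero_add,
      eval_add, eval_mul, eval_one, eval_pow, eval_X, map_natCast, eval_natCast]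
  have hval : (p * (1 + X ^ M * q)).eval z = p.eval z * (1 + z ^ M * q.eval z) := by
    simp
  rw [hder, hval, norm_mul]
  set W := ‖1 + z ^ M * q.eval z‖ with hW
  have hWlow : 19/20 ≤ W := by
    have h3 : ‖z ^ M * q.eval z‖ ≤ 1/20 := by
      rw [norm_mul, norm_pow, ← hr]
      have := hq' z hz
      nlinarith [norm_nonneg (q.eval z), pow_nonneg hr0 M]
    have h4 : ‖(1:ℂ)‖ ≤ ‖1 + z ^ M * q.eval z‖ + ‖z ^ M * q.eval z‖ := by
      have := norm_sub_le (1 + z ^ M * q.eval z) (z ^ M * q.eval z)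
      simpa using this
    rw [norm_one] at h4
    linarith
  have hPpos : 0 < ‖p.eval z‖ := norm_pos_iff.mpr (hp.ne_zero hz)
  set P := ‖p.eval z‖ with hP
  set DP := ‖(derivative p).eval z‖ with hDP
  have hr1 : 0 ≤ 1 - r := by linarith
  -- the second factor
  have hS : ‖(M:ℂ) * z ^ (M - 1) * q.eval z + z ^ M * (derivative q).eval z‖ ≤
      (M:ℝ) * r ^ (M - 1) * (1/20) + r ^ M * Cq := by
    refine (norm_add_le _ _).trans ?_
    rw [norm_mul, norm_mul, norm_mul, norm_pow, norm_pow, ← hr, Complex.norm_natCast]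
    have := hq' z hz
    have := hb3 z hz
    gcongr
  have hmain : (1 - r) * ‖(derivative p).eval z * (1 + z ^ M * q.eval z) +
        p.eval z * ((M:ℂ) * z ^ (M - 1) * q.eval z + z ^ M * (derivative q).eval z)‖ ≤
      ((1 - r) * DP) * W + P * ((1 - r) * ((M:ℝ) * r ^ (M - 1) * (1/20) + r ^ M * Cq)) := by
    have h5 : ‖(derivative p).eval z * (1 + z ^ M * q.eval z) +
        p.eval z * ((M:ℂ) * z ^ (M - 1) * q.eval z + z ^ M * (derivative q).eval z)‖ ≤
        DP * W + P * ((M:ℝ) * r ^ (M - 1) * (1/20) + r ^ M * Cq) := by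
      refine (norm_add_le _ _).trans ?_
      rw [norm_mul, norm_mul]
      gcongr
    calc _ ≤ (1 - r) * (DP * W + P * ((M:ℝ) * r ^ (M - 1) * (1/20) + r ^ M * Cq)) := by gcongr
      _ = _ := by ring
  refine lt_of_le_of_lt hmain ?_
  obtain ⟨m, rfl⟩ : ∃ m, M = m + 1 := ⟨M - 1, by omega⟩
  rw [Nat.add_sub_cancel]
  rcases le_or_gt r r₀ with hcase | hcase
  · -- inner region
    have h6 : ((m + 1 : ℕ):ℝ) * r ^ m * (1/20) + r ^ (m + 1) * Cq < (1/10 - η₁) * (19/20) := by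
      refine lt_of_le_of_lt ?_ h1
      have h7 : r ^ m ≤ r₀ ^ (m + 1) / r₀ := by
        rw [pow_succ, mul_div_assoc, div_self hr₀pos.ne', mul_one]
        exact pow_le_pow_left₀ hr0 hcase m
      have h8 : r ^ (m + 1) ≤ r₀ ^ (m + 1) := pow_le_pow_left₀ hr0 hcase _
      have h9 : ((m + 1 : ℕ):ℝ) * r₀ ^ (m + 1) / r₀ = ((m + 1 : ℕ):ℝ) * (r₀ ^ (m + 1) / r₀) := by
        ring
      rw [h9]
      gcongr
    have h10 : (1 - r) * (((m + 1 : ℕ):ℝ) * r ^ m * (1/20) + r ^ (m + 1) * Cq) ≤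
        (((m + 1 : ℕ):ℝ) * r ^ m * (1/20) + r ^ (m + 1) * Cq) := by
      have : 0 ≤ (((m + 1 : ℕ):ℝ) * r ^ m * (1/20) + r ^ (m + 1) * Cq) := by positivity
      nlinarith
    have h11 : (1 - r) * DP ≤ η₁ * P := hb1 z hz
    have hW0 : 0 < W := by linarith
    calc (1 - r) * DP * W + P * ((1 - r) * (((m + 1 : ℕ):ℝ) * r ^ m * (1/20) + r ^ (m + 1) * Cq))
        < η₁ * P * W + P * ((1/10 - η₁) * (19/20)) := by
          apply add_lt_add_of_le_of_lt
          · gcongr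
          · apply mul_lt_mul_of_pos_left _ hPpos
            linarith
      _ ≤ η₁ * P * W + P * ((1/10 - η₁) * W) := by gcongr
      _ = 1/10 * (P * W) := by ring
  · -- outer region
    have h12 : (1 - r) * DP ≤ (1/100) * P := by
      have h13 : DP ≤ Cp * P := hb2 z hz
      have h14 : (1 - r) ≤ 1 / (100 * (Cp + 1)) := by rw [hr₀] at hcase; linarith
      calc (1 - r) * DP ≤ (1 / (100 * (Cp + 1))) * (Cp * P) := by gcongr
        _ = (1/100) * P * (Cp / (Cp + 1)) := by field_simp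
        _ ≤ (1/100) * P * 1 := by
            gcongr
            rw [div_le_one (by linarith)]; linarith
        _ = (1/100) * P := by ring
    have h15 : (1 - r) * (((m + 1 : ℕ):ℝ) * r ^ m * (1/20)) ≤ 1/20 := by
      have := pow_mul_one_sub_le m hr0 hz
      push_cast
      nlinarith
    have h16 : (1 - r) * (r ^ (m + 1) * Cq) ≤ 1/100 := by
      have h17 := pow_mul_one_sub_le (m + 1) hr0 hz
      have h18 : (1 - r) * r ^ (m + 1) ≤ 1 / (((m + 1 : ℕ):ℝ) + 1) := by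
        rw [le_div_iff₀ (by positivity)]
        calc _ = (((m + 1 : ℕ):ℝ) + 1) * r ^ (m + 1) * (1 - r) := by ring
          _ ≤ 1 := h17
      calc (1 - r) * (r ^ (m + 1) * Cq) = ((1 - r) * r ^ (m + 1)) * Cq := by ring
        _ ≤ (1 / (((m + 1 : ℕ):ℝ) + 1)) * Cq := by gcongr
        _ = Cq / (((m + 1 : ℕ):ℝ) + 1) := by ring
        _ ≤ 1/100 := h2.le
    have hW0 : 0 < W := by linarith
    calc (1 - r) * DP * W + P * ((1 - r) * (((m + 1 : ℕ):ℝ) * r ^ m * (1/20) + r ^ (m + 1) * Cq))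
        = (1 - r) * DP * W + P * ((1 - r) * (((m + 1 : ℕ):ℝ) * r ^ m * (1/20)) +
          (1 - r) * (r ^ (m + 1) * Cq)) := by ring
      _ ≤ (1/100) * P * W + P * (1/20 + 1/100) :=
          add_le_add (mul_le_mul_of_nonneg_right h12 hW0.le)
            (mul_le_mul_of_nonneg_left (add_le_add h15 h16) hPpos.le)
      _ < 1/10 * (P * W) := by nlinarith [mul_pos hPpos hW0]

/-- The invariants kept along the construction. -/
structure Good (p : ℂ[X]) : Prop where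
  sb : SB p
  lt : ∀ ζ : ℂ, ‖ζ‖ = 1 → ‖p.eval ζ‖ < Bf p ζ
  lo : ∀ ζ : ℂ, ‖ζ‖ = 1 → 45 < Bf p ζ
  hi : ∀ ζ : ℂ, ‖ζ‖ = 1 → Bf p ζ < 51
  c0 : p.eval 0 = 10

lemma good_init : Good (C 10) := by
  have hB : ∀ ζ : ℂ, Bf (C 10) ζ = 50 := by
    intro ζ
    unfold Bf BN
    simp only [natDegree_C, zero_add, Finset.range_one, Finset.sum_singleton, coeff_C_zero,
      pow_zero, mul_one, max_self, Nat.cast_zero, mul_zero]
    norm_num
  refine ⟨?_, ?_, ?_, ?_, ?_⟩
  · intro z hz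
    simp
  · intro ζ _
    rw [hB]
    simp
    norm_num
  · intro ζ _; rw [hB]; norm_num
  · intro ζ _; rw [hB]; norm_num
  · simp

/-- The step of the construction. -/
lemma good_step {p : ℂ[X]} (hp : Good p) (n₀ : ℕ) :
    ∃ (q : ℂ[X]) (M : ℕ), n₀ ≤ M ∧ p.natDegree < M ∧
      (∀ ζ : ℂ, ‖ζ‖ = 1 → min ((1/10) * ‖p.eval ζ‖) (Bf p ζ - ‖p.eval ζ‖) ≤
        4 * (‖p.eval ζ‖ * ‖q.eval ζ‖)) ∧
      (∀ ζ : ℂ, ‖ζ‖ = 1 → ‖q.eval ζ‖ ≤ 1/20) ∧
      Good (p * (1 + X ^ M * q)) := by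
  have hpos : ∀ ζ : ℂ, ‖ζ‖ = 1 → 0 < ‖p.eval ζ‖ := fun ζ hζ =>
    norm_pos_iff.mpr (hp.sb.ne_zero hζ.le)
  set τ : ℂ → ℝ := fun ζ => min (1/20) ((Bf p ζ - ‖p.eval ζ‖) / (2 * ‖p.eval ζ‖)) with hτ
  have hτc : ContinuousOn τ (sphere 0 1) := by
    apply ContinuousOn.inf continuousOn_const
    apply ContinuousOn.div
    · exact ((Bf_continuous p).sub p.continuous.norm).continuousOn
    · exact (continuous_const.mul p.continuous.norm).continuousOn
    · intro z hz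
      have := hpos z (by simpa using hz)
      positivity
  have hτpos : ∀ ζ, ‖ζ‖ = 1 → 0 < τ ζ := by
    intro ζ hζ
    have h1 := hpos ζ hζ
    have h2 := hp.lt ζ hζ
    apply lt_min (by norm_num)
    apply div_pos (by linarith) (by positivity)
  obtain ⟨q, hq⟩ := exists_poly_approx hτc hτpos
  have hq20 : ∀ ζ : ℂ, ‖ζ‖ = 1 → ‖q.eval ζ‖ ≤ 1/20 := fun ζ hζ =>
    (hq ζ hζ).2.le.trans (min_le_left _ _)
  have hq2 : ∀ ζ : ℂ, ‖ζ‖ = 1 → ‖p.eval ζ‖ * (1 + ‖q.eval ζ‖) ≤ (Bf p ζ + ‖p.eval ζ‖) / 2 := by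
    intro ζ hζ
    have h1 := hpos ζ hζ
    have h3 : ‖q.eval ζ‖ ≤ (Bf p ζ - ‖p.eval ζ‖) / (2 * ‖p.eval ζ‖) :=
      (hq ζ hζ).2.le.trans (min_le_right _ _)
    rw [le_div_iff₀ (by positivity)] at h3
    linarith
  -- margin
  set μ : ℂ → ℝ := fun ζ => min (min ((Bf p ζ - ‖p.eval ζ‖) / 2) (Bf p ζ - 45)) (51 - Bf p ζ)
    with hμ
  have hμc : Continuous μ := by
    have := Bf_continuous p
    have := p.continuous
    fun_prop
  obtain ⟨ζ₀, hζ₀, hmin⟩ := (isCompact_sphere (0:ℂ) 1).exists_isMinOn ⟨1, by simp⟩ hμc.continuousOn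
  have hζ₀' : ‖ζ₀‖ = 1 := by simpa using hζ₀
  set δ := μ ζ₀ with hδ
  have hδpos : 0 < δ := by
    have h1 := hp.lt ζ₀ hζ₀'
    have h2 := hp.lo ζ₀ hζ₀'
    have h3 := hp.hi ζ₀ hζ₀'
    apply lt_min (lt_min _ _) _ <;> linarith
  have hδle : ∀ ζ : ℂ, ‖ζ‖ = 1 → δ ≤ (Bf p ζ - ‖p.eval ζ‖) / 2 ∧ δ ≤ Bf p ζ - 45 ∧
      δ ≤ 51 - Bf p ζ := by
    intro ζ hζ
    have : δ ≤ μ ζ := hmin (by simpa using hζ)
    exact ⟨this.trans ((min_le_left _ _).trans (min_le_left _ _)),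
      this.trans ((min_le_left _ _).trans (min_le_right _ _)), this.trans (min_le_right _ _)⟩
  have ev : ∀ᶠ M : ℕ in atTop, (n1 p + n1 (p * q)) ^ 2 / (2 * (M:ℝ) + 2) < δ := by
    have t : Tendsto (fun M : ℕ => (n1 p + n1 (p * q)) ^ 2 / (2 * (M:ℝ) + 2)) atTop (𝓝 0) := by
      apply Tendsto.div_atTop tendsto_const_nhds
      apply tendsto_atTop_add_const_right
      exact tendsto_natCast_atTop_atTop.const_mul_atTop (by norm_num)
    exact t.eventually (gt_mem_nhds hδpos)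
  obtain ⟨M, hM1, hM2, hM3, hM4, hM5⟩ := (ev.and ((SB_step hp.sb hq20).and
    ((eventually_ge_atTop n₀).and ((eventually_gt_atTop p.natDegree).and
      (eventually_ge_atTop 1))))).exists
  refine ⟨q, M, hM3, hM4, ?_, hq20, ?_⟩
  · intro ζ hζ
    have h1 := hpos ζ hζ
    have h4 := (hq ζ hζ).1
    rcases min_cases (1/20 : ℝ) ((Bf p ζ - ‖p.eval ζ‖) / (2 * ‖p.eval ζ‖)) with ⟨h5, -⟩ | ⟨h5, -⟩
    · refine (min_le_left _ _).trans ?_
      simp only [hτ] at h4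
      rw [h5] at h4
      nlinarith
    · refine (min_le_right _ _).trans ?_
      simp only [hτ] at h4
      rw [h5, div_div, div_lt_iff₀ (by positivity)] at h4
      linarith
  · have hBd : ∀ ζ : ℂ, ‖ζ‖ = 1 → |Bf (p * (1 + X ^ M * q)) ζ - Bf p ζ| < δ := fun ζ hζ =>
      lt_of_le_of_lt (Bf_step hM4 hζ) hM1
    refine ⟨hM2, ?_, ?_, ?_, ?_⟩
    · intro ζ hζ
      have h6 := abs_lt.mp (hBd ζ hζ)
      have h7 := (hδle ζ hζ).1
      have h8 := hq2 ζ hζ
      have h9 : ‖(p * (1 + X ^ M * q)).eval ζ‖ ≤ ‖p.eval ζ‖ * (1 + ‖q.eval ζ‖) := by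
        simp only [eval_mul, eval_add, eval_one, eval_pow, eval_X]
        rw [norm_mul]
        gcongr
        refine (norm_add_le _ _).trans ?_
        rw [norm_one, norm_mul, norm_pow, hζ, one_pow, one_mul]
      linarith [h6.1]
    · intro ζ hζ
      have h6 := abs_lt.mp (hBd ζ hζ)
      linarith [h6.1, (hδle ζ hζ).2.1]
    · intro ζ hζ
      have h6 := abs_lt.mp (hBd ζ hζ)
      linarith [h6.2, (hδle ζ hζ).2.2]
    · simp only [eval_mul, eval_add, eval_one, eval_pow, eval_X]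
      rw [zero_pow (by omega : M ≠ 0), zero_mul, add_zero, mul_one]
      exact hp.c0

end Pool.Agent.Work.MP_9159b8_an
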