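import Mathlib
import Pool.Agent.Work.MP_9159b8_an.Step
import Pool.Agent.Work.MP_9159b8_an.Quad

set_option autoImplicit false

namespace Pool.Agent.Work.MP_9159b8_an

open Polynomial Set Metric MeasureTheory ComplexConjugate Filter Topology

lemma circle_ortho_lt {j l : ℕ} (h : l < j) :
    ∫ θ in (0:ℝ)..2 * Real.pi, (circleMap 0 1 θ) ^ j * conj ((circleMap 0 1 θ) ^ l) = 0 := by
  have h1 := circle_moment_zero (g := fun _ => 1) diffContOnCl_const (k := j - l) (by omega)
  refine Eq.trans ?_ h1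
  congr 1
  ext θ
  have h2 : circleMap 0 1 θ * conj (circleMap 0 1 θ) = 1 := by
    rw [Complex.mul_conj, Complex.normSq_eq_norm_sq, norm_circleMap_zero]
    simp
  obtain ⟨m, rfl⟩ : ∃ m, j = m + l := ⟨j - l, by omega⟩
  rw [Nat.add_sub_cancel, pow_add, map_pow, mul_assoc, ← mul_pow, h2, one_pow]
  simp

lemma circle_ortho (j l : ℕ) :
    ∫ θ in (0:ℝ)..2 * Real.pi, (circleMap 0 1 θ) ^ j * conj ((circleMap 0 1 θ) ^ l) =
      if j = l then (2 * Real.pi : ℂ) else 0 := by
  rcases lt_trichotomy j l with h | h | h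
  · rw [if_neg h.ne]
    have h1 := circle_ortho_lt h
    have h2 : ∫ θ in (0:ℝ)..2 * Real.pi, (circleMap 0 1 θ) ^ j * conj ((circleMap 0 1 θ) ^ l) =
        conj (∫ θ in (0:ℝ)..2 * Real.pi, (circleMap 0 1 θ) ^ l * conj ((circleMap 0 1 θ) ^ j)) := by
      rw [intervalIntegral.integral_of_le (by positivity),
        intervalIntegral.integral_of_le (by positivity), ← integral_conj]
      congr 1
      ext θ
      rw [map_mul, Complex.conj_conj, mul_comm]
    rw [h2, h1, map_zero]
  · subst h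
    rw [if_pos rfl]
    have h2 : ∀ θ : ℝ, (circleMap 0 1 θ) ^ j * conj ((circleMap 0 1 θ) ^ j) = 1 := by
      intro θ
      rw [map_pow, ← mul_pow, Complex.mul_conj, Complex.normSq_eq_norm_sq, norm_circleMap_zero]
      simp
    simp_rw [h2]
    simp
  · rw [if_neg h.ne']
    exact circle_ortho_lt h

/-- Energy of a polynomial. -/
noncomputable def En (p : ℂ[X]) : ℝ := ∑ j ∈ p.support, ‖p.coeff j‖ ^ 2

lemma En_eq {p : ℂ[X]} {N : ℕ} (hN : p.natDegree < N) :
    En p = ∑ j ∈ Finset.range N, ‖p.coeff j‖ ^ 2 := by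
  unfold En
  apply Finset.sum_subset
  · intro j hj
    exact Finset.mem_range.mpr (lt_of_le_of_lt (le_natDegree_of_mem_supp j hj) hN)
  · intro j _ hj
    rw [notMem_support_iff.mp hj]
    simp

lemma En_nonneg (p : ℂ[X]) : 0 ≤ En p := Finset.sum_nonneg fun _ _ => by positivity

lemma parseval (p : ℂ[X]) :
    ∫ θ in (0:ℝ)..2 * Real.pi, ‖p.eval (circleMap 0 1 θ)‖ ^ 2 = 2 * Real.pi * En p := by
  set N := p.natDegree + 1 with hN
  have hexp : ∀ z : ℂ, ((‖p.eval z‖ ^ 2 : ℝ) : ℂ) = ∑ j ∈ Finset.range N, ∑ l ∈ Finset.range N,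
      (p.coeff j * conj (p.coeff l)) * (z ^ j * conj (z ^ l)) := by
    intro z
    rw [← Complex.normSq_eq_norm_sq, ← Complex.mul_conj, eval_eq_sum_range, map_sum,
      Finset.sum_mul_sum]
    refine Finset.sum_congr rfl fun j _ => Finset.sum_congr rfl fun l _ => ?_
    rw [map_mul]
    ring
  have hc : ∀ j l : ℕ, Continuous (fun θ : ℝ => (p.coeff j * conj (p.coeff l)) *
      ((circleMap 0 1 θ) ^ j * conj ((circleMap 0 1 θ) ^ l))) := by
    intro j l
    have := continuous_circleMap (0:ℂ) 1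
    fun_prop
  have key : ((∫ θ in (0:ℝ)..2 * Real.pi, ‖p.eval (circleMap 0 1 θ)‖ ^ 2 : ℝ) : ℂ) =
      ((2 * Real.pi * En p : ℝ) : ℂ) := by
    rw [← intervalIntegral.integral_ofReal]
    simp_rw [hexp]
    rw [intervalIntegral.integral_finsetSum]
    swap
    · intro j _
      exact (continuous_finsetSum _ (fun l _ => hc j l)).intervalIntegrable _ _
    rw [En_eq (N := N) (by omega)]
    push_cast
    rw [Finset.mul_sum]
    refine Finset.sum_congr rfl fun j hj => ?_
    rw [intervalIntegral.integral_finsetSum]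
    swap
    · intro l _
      exact (hc j l).intervalIntegrable _ _
    simp_rw [intervalIntegral.integral_const_mul, circle_ortho]
    rw [Finset.sum_eq_single j]
    · rw [if_pos rfl, Complex.mul_conj, Complex.normSq_eq_norm_sq]
      push_cast
      ring
    · intro l _ hl
      rw [if_neg (Ne.symm hl), mul_zero]
    · intro h
      exact absurd hj h
  exact_mod_cast key

lemma En_step {p q : ℂ[X]} {M : ℕ} (hM : p.natDegree < M) :
    En (p * (1 + X ^ M * q)) = En p + En (p * q) := by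
  set p' := p * (1 + X ^ M * q) with hp'
  set N := max p'.natDegree (p * q).natDegree + 1 with hN
  rw [En_eq (N := M + N) (by omega : p'.natDegree < M + N), Finset.sum_range_add, En_eq hM,
    En_eq (p := p * q) (N := N) (by omega)]
  congr 1
  · refine Finset.sum_congr rfl fun j hj => ?_
    rw [hp', coeff_step_lt (Finset.mem_range.mp hj)]
  · refine Finset.sum_congr rfl fun j _ => ?_
    rw [hp', coeff_step_ge hM (Nat.le_add_right _ _), Nat.add_sub_cancel_left]

/-- The whole sequence of the construction. -/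
theorem exists_seq : ∃ (P Q : ℕ → ℂ[X]) (M : ℕ → ℕ),
    (∀ k, Good (P k)) ∧ (∀ k, P (k + 1) = P k * (1 + X ^ (M k) * Q k)) ∧
    (∀ k, (P k).natDegree < M k) ∧ (∀ k, M k < M (k + 1)) ∧
    (∀ k, ∀ ζ : ℂ, ‖ζ‖ = 1 → min ((1/10) * ‖(P k).eval ζ‖) (Bf (P k) ζ - ‖(P k).eval ζ‖) ≤
        4 * ‖(P k * Q k).eval ζ‖) := by
  choose! q M h using (fun (p : ℂ[X]) (hp : Good p) => good_step hp)
  -- state: polynomial together with a lower bound for the next exponent
  let S : ℕ → ℂ[X] × ℕ := fun k => Nat.rec (C 10, 0)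
    (fun _ s => (s.1 * (1 + X ^ (M s.1 s.2) * q s.1 s.2), M s.1 s.2 + 1)) k
  have hS0 : S 0 = (C 10, 0) := rfl
  have hS1 : ∀ k, S (k + 1) = ((S k).1 * (1 + X ^ (M (S k).1 (S k).2) * q (S k).1 (S k).2),
    M (S k).1 (S k).2 + 1) := fun k => rfl
  have hgood : ∀ k, Good (S k).1 := by
    intro k
    induction k with
    | zero => exact good_init
    | succ k ih => rw [hS1]; exact (h _ ih _).2.2.2.2
  refine ⟨fun k => (S k).1, fun k => q (S k).1 (S k).2, fun k => M (S k).1 (S k).2, hgood, ?_, ?_,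
    ?_, ?_⟩
  · intro k
    simp only [hS1]
  · intro k
    exact (h _ (hgood k) _).2.1
  · intro k
    have := (h _ (hgood (k + 1)) (S (k + 1)).2).1
    simp only
    have h2 : (S (k + 1)).2 = M (S k).1 (S k).2 + 1 := by rw [hS1]
    rw [h2] at this ⊢
    exact this
  · intro k ζ hζ
    have := (h _ (hgood k) (S k).2).2.2.1 ζ hζ
    simp only
    rw [eval_mul, norm_mul]
    exact this

end Pool.Agent.Work.MP_9159b8_an
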