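import Mathlib
import Pool.Agent.Work.MP_9159b8_an.Parseval

set_option autoImplicit false

namespace Pool.Agent.Work.MP_9159b8_an

open Polynomial Set Metric MeasureTheory ComplexConjugate Filter Topology

lemma cm_norm (θ : ℝ) : ‖circleMap 0 1 θ‖ = 1 := by
  rw [norm_circleMap_zero]; simp

lemma cont_eval_cm (p : ℂ[X]) : Continuous (fun θ : ℝ => p.eval (circleMap 0 1 θ)) :=
  p.continuous.comp (continuous_circleMap 0 1)

/-- Cauchy-Schwarz on the circle. -/
lemma integral_norm_le_sqrt (p : ℂ[X]) :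
    ∫ θ in (0:ℝ)..2 * Real.pi, ‖p.eval (circleMap 0 1 θ)‖ ≤ 2 * Real.pi * √(En p) := by
  have hpi := Real.pi_pos
  set I := ∫ θ in (0:ℝ)..2 * Real.pi, ‖p.eval (circleMap 0 1 θ)‖ with hI
  have hc := cont_eval_cm p
  set m := I / (2 * Real.pi) with hm
  have h0 : 0 ≤ ∫ θ in (0:ℝ)..2 * Real.pi, (‖p.eval (circleMap 0 1 θ)‖ - m) ^ 2 := by
    apply intervalIntegral.integral_nonneg (by positivity)
    intro θ _
    positivity
  have h1 : ∫ θ in (0:ℝ)..2 * Real.pi, (‖p.eval (circleMap 0 1 θ)‖ - m) ^ 2 =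
      2 * Real.pi * En p - 2 * m * I + m ^ 2 * (2 * Real.pi) := by
    have e1 : ∀ θ : ℝ, (‖p.eval (circleMap 0 1 θ)‖ - m) ^ 2 =
        (‖p.eval (circleMap 0 1 θ)‖ ^ 2 - (2 * m) * ‖p.eval (circleMap 0 1 θ)‖) + m ^ 2 := by
      intro θ; ring
    simp_rw [e1]
    rw [intervalIntegral.integral_add, intervalIntegral.integral_sub,
      intervalIntegral.integral_const_mul, parseval, intervalIntegral.integral_const]
    · simp only [sub_zero, smul_eq_mul]; ring
    · exact (hc.norm.pow 2).intervalIntegrable _ _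
    · exact (continuous_const.mul hc.norm).intervalIntegrable _ _
    · exact ((hc.norm.pow 2).sub (continuous_const.mul hc.norm)).intervalIntegrable _ _
    · exact continuous_const.intervalIntegrable _ _
  rw [h1] at h0
  have h2 : m * (2 * Real.pi) = I := by rw [hm]; field_simp
  have h3 : m ^ 2 ≤ En p := by
    have h4 : 2 * Real.pi * En p - 2 * m * I + m ^ 2 * (2 * Real.pi) =
        2 * Real.pi * (En p - m ^ 2) := by
      rw [← h2]; ring
    rw [h4] at h0
    have := (mul_nonneg_iff_of_pos_left (by positivity : (0:ℝ) < 2 * Real.pi)).mp h0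
    linarith
  have h5 : m ≤ √(En p) := Real.le_sqrt_of_sq_le h3
  calc I = m * (2 * Real.pi) := h2.symm
    _ ≤ √(En p) * (2 * Real.pi) := by gcongr
    _ = _ := by ring

lemma Good.norm_le {p : ℂ[X]} (hp : Good p) {z : ℂ} (hz : ‖z‖ ≤ 1) : ‖p.eval z‖ ≤ 51 :=
  poly_max (fun ζ hζ => ((hp.lt ζ hζ).trans (hp.hi ζ hζ)).le) hz

lemma Good.En_le {p : ℂ[X]} (hp : Good p) : En p ≤ 51 ^ 2 := by
  have hpi := Real.pi_pos
  have h1 : ∫ θ in (0:ℝ)..2 * Real.pi, ‖p.eval (circleMap 0 1 θ)‖ ^ 2 ≤
      ∫ _θ in (0:ℝ)..2 * Real.pi, (51:ℝ) ^ 2 := by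
    apply intervalIntegral.integral_mono_on (by positivity)
    · exact ((cont_eval_cm p).norm.pow 2).intervalIntegrable _ _
    · exact continuous_const.intervalIntegrable _ _
    · intro θ _
      have := hp.norm_le (cm_norm θ).le
      gcongr
  rw [parseval, intervalIntegral.integral_const, sub_zero, smul_eq_mul] at h1
  exact le_of_mul_le_mul_left h1 (by positivity)

/-- Jensen's formula for the zero free polynomials at hand. -/
lemma Good.integral_log {p : ℂ[X]} (hp : Good p) :
    ∫ θ in (0:ℝ)..2 * Real.pi, Real.log ‖p.eval (circleMap 0 1 θ)‖ = 2 * Real.pi * Real.log 10 := by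
  have hpi := Real.pi_pos
  have h1 := AnalyticOnNhd.circleAverage_log_norm_of_ne_zero (R := 1) (c := 0)
    (g := fun z => p.eval z) (fun z _ => (p.differentiable.analyticAt z)) (by
      intro z hz
      apply hp.sb.ne_zero
      simpa using hz)
  rw [Real.circleAverage_def, hp.c0, smul_eq_mul] at h1
  have h2 : ‖(10:ℂ)‖ = 10 := by simp
  rw [h2] at h1
  rw [← h1]
  field_simp

lemma Good.gap_bound {p q : ℂ[X]} (hp : Good p) {η : ℝ} (hη : 0 < η) (hη1 : η ≤ 1)
    (hq : ∀ ζ : ℂ, ‖ζ‖ = 1 → min ((1/10) * ‖p.eval ζ‖) (Bf p ζ - ‖p.eval ζ‖) ≤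
        4 * ‖(p * q).eval ζ‖) :
    ∫ θ in (0:ℝ)..2 * Real.pi, (Bf p (circleMap 0 1 θ) - ‖p.eval (circleMap 0 1 θ)‖) ≤
      51 * (2 * Real.pi * Real.log 51) / Real.log (51 / η) +
        (2040 / η) * (2 * Real.pi * √(En (p * q))) := by
  have hpi := Real.pi_pos
  have hc := cont_eval_cm p
  have hcq := cont_eval_cm (p * q)
  have hBc : Continuous (fun θ : ℝ => Bf p (circleMap 0 1 θ)) :=
    (Bf_continuous p).comp (continuous_circleMap 0 1)
  have hlogη : 0 < Real.log (51 / η) := by
    apply Real.log_pos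
    rw [lt_div_iff₀ hη]
    linarith
  have hppos : ∀ θ : ℝ, 0 < ‖p.eval (circleMap 0 1 θ)‖ := fun θ =>
    norm_pos_iff.mpr (hp.sb.ne_zero (cm_norm θ).le)
  have hlogc : Continuous (fun θ : ℝ => Real.log ‖p.eval (circleMap 0 1 θ)‖) :=
    hc.norm.log (fun θ => (hppos θ).ne')
  have hpt : ∀ θ : ℝ, Bf p (circleMap 0 1 θ) - ‖p.eval (circleMap 0 1 θ)‖ ≤
      (51 / Real.log (51 / η)) * (Real.log 51 - Real.log ‖p.eval (circleMap 0 1 θ)‖) +
        (2040 / η) * ‖(p * q).eval (circleMap 0 1 θ)‖ := by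
    intro θ
    set ζ := circleMap 0 1 θ with hζ
    have hζ1 : ‖ζ‖ = 1 := cm_norm θ
    have h1 := hp.lt ζ hζ1
    have h2 := hp.hi ζ hζ1
    have h3 := hppos θ
    rw [← hζ] at h3
    have h4 := hq ζ hζ1
    have h5 : 0 ≤ Real.log 51 - Real.log ‖p.eval ζ‖ := by
      have := Real.log_le_log h3 (h1.trans h2).le
      linarith
    have h6 : 0 ≤ ‖(p * q).eval ζ‖ := norm_nonneg _
    rcases lt_or_ge ‖p.eval ζ‖ η with hlt | hge
    · have h7 : Real.log (51 / η) ≤ Real.log 51 - Real.log ‖p.eval ζ‖ := by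
        rw [Real.log_div (by norm_num) hη.ne']
        have := Real.log_le_log h3 hlt.le
        linarith
      have h8 : 51 ≤ (51 / Real.log (51 / η)) * (Real.log 51 - Real.log ‖p.eval ζ‖) := by
        rw [div_mul_eq_mul_div, le_div_iff₀ hlogη]
        nlinarith
      have h9 : 0 ≤ (2040 / η) * ‖(p * q).eval ζ‖ := by positivity
      linarith
    · have h8 : 0 ≤ (51 / Real.log (51 / η)) * (Real.log 51 - Real.log ‖p.eval ζ‖) := by
        positivity
      have h10 : Bf p ζ - ‖p.eval ζ‖ ≤ (2040 / η) * ‖(p * q).eval ζ‖ := by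
        rw [div_mul_eq_mul_div, le_div_iff₀ hη]
        rcases min_cases ((1/10) * ‖p.eval ζ‖) (Bf p ζ - ‖p.eval ζ‖) with ⟨h11, -⟩ | ⟨h11, -⟩
        · rw [h11] at h4
          nlinarith
        · rw [h11] at h4
          nlinarith
      linarith
  calc ∫ θ in (0:ℝ)..2 * Real.pi, (Bf p (circleMap 0 1 θ) - ‖p.eval (circleMap 0 1 θ)‖)
      ≤ ∫ θ in (0:ℝ)..2 * Real.pi,
          ((51 / Real.log (51 / η)) * (Real.log 51 - Real.log ‖p.eval (circleMap 0 1 θ)‖) +
          (2040 / η) * ‖(p * q).eval (circleMap 0 1 θ)‖) := by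
        apply intervalIntegral.integral_mono_on (by positivity)
        · exact (hBc.sub hc.norm).intervalIntegrable _ _
        · apply Continuous.intervalIntegrable
          exact (continuous_const.mul (continuous_const.sub hlogc)).add
            (continuous_const.mul hcq.norm)
        · intro θ _; exact hpt θ
    _ = (51 / Real.log (51 / η)) * (2 * Real.pi * Real.log 51 - 2 * Real.pi * Real.log 10) +
          (2040 / η) * ∫ θ in (0:ℝ)..2 * Real.pi, ‖(p * q).eval (circleMap 0 1 θ)‖ := by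
        rw [intervalIntegral.integral_add, intervalIntegral.integral_const_mul,
          intervalIntegral.integral_const_mul, intervalIntegral.integral_sub,
          hp.integral_log, intervalIntegral.integral_const, sub_zero, smul_eq_mul]
        · exact continuous_const.intervalIntegrable _ _
        · exact hlogc.intervalIntegrable _ _
        · exact (continuous_const.mul (continuous_const.sub hlogc)).intervalIntegrable _ _
        · exact (continuous_const.mul hcq.norm).intervalIntegrable _ _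
    _ ≤ _ := by
        apply add_le_add
        · rw [div_mul_eq_mul_div]
          have : 0 ≤ Real.log 10 := Real.log_nonneg (by norm_num)
          apply div_le_div_of_nonneg_right _ hlogη.le
          nlinarith [mul_nonneg hpi.le this]
        · have := integral_norm_le_sqrt (p * q)
          gcongr

/-- The gaps tend to zero. -/
lemma gap_tendsto {P Q : ℕ → ℂ[X]} (hP : ∀ k, Good (P k))
    (hE : Tendsto (fun k => En (P k * Q k)) atTop (𝓝 0))
    (hq : ∀ k, ∀ ζ : ℂ, ‖ζ‖ = 1 → min ((1/10) * ‖(P k).eval ζ‖) (Bf (P k) ζ - ‖(P k).eval ζ‖) ≤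
        4 * ‖(P k * Q k).eval ζ‖) :
    Tendsto (fun k => ∫ θ in (0:ℝ)..2 * Real.pi,
      (Bf (P k) (circleMap 0 1 θ) - ‖(P k).eval (circleMap 0 1 θ)‖)) atTop (𝓝 0) := by
  have hpi := Real.pi_pos
  rw [Metric.tendsto_atTop]
  intro ε hε
  -- choose η
  have h1 : Tendsto (fun η : ℝ => 51 * (2 * Real.pi * Real.log 51) / Real.log (51 / η))
      (𝓝[>] 0) (𝓝 0) := by
    apply Tendsto.div_atTop tendsto_const_nhds
    apply Real.tendsto_log_atTop.comp
    have : Tendsto (fun η : ℝ => 51 * η⁻¹) (𝓝[>] 0) atTop :=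
      tendsto_inv_nhdsGT_zero.const_mul_atTop (by norm_num)
    exact this.congr (fun η => by rw [div_eq_mul_inv])
  obtain ⟨η, hη1, hη2, hη3⟩ := ((h1.eventually (gt_mem_nhds (half_pos hε))).and
    ((eventually_mem_nhdsWithin).and ((eventually_nhdsWithin_of_eventually_nhds
      (gt_mem_nhds (one_pos : (0:ℝ) < 1)))))).exists
  have hη2' : 0 < η := hη2
  have h2 : Tendsto (fun k => (2040 / η) * (2 * Real.pi * √(En (P k * Q k)))) atTop (𝓝 0) := by
    have h3 : Tendsto (fun k => √(En (P k * Q k))) atTop (𝓝 0) := by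
      have := (Real.continuous_sqrt.tendsto 0).comp hE
      rw [Real.sqrt_zero] at this
      exact this
    have := (h3.const_mul (2 * Real.pi)).const_mul (2040 / η)
    simpa using this
  obtain ⟨K, hK⟩ := eventually_atTop.mp (h2.eventually (gt_mem_nhds (half_pos hε)))
  refine ⟨K, fun k hk => ?_⟩
  have h4 := (hP k).gap_bound hη2' hη3.le (hq k)
  have h5 := hK k hk
  have h6 : 0 ≤ ∫ θ in (0:ℝ)..2 * Real.pi,
      (Bf (P k) (circleMap 0 1 θ) - ‖(P k).eval (circleMap 0 1 θ)‖) := by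
    apply intervalIntegral.integral_nonneg (by positivity)
    intro θ _
    linarith [(hP k).lt _ (cm_norm θ)]
  rw [Real.dist_eq, sub_zero, abs_of_nonneg h6]
  linarith

end Pool.Agent.Work.MP_9159b8_an
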