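import Mathlib
import Pool.Agent.Work.MP_9159b8_an.Gap

set_option autoImplicit false

namespace Pool.Agent.Work.MP_9159b8_an

open Polynomial Set Metric MeasureTheory ComplexConjugate Filter Topology

lemma exists_prim (p : ℂ[X]) : ∃ q : ℂ[X], derivative q = p ∧ q.eval 0 = 0 := by
  refine ⟨∑ j ∈ Finset.range (p.natDegree + 1), C (p.coeff j / ((j:ℂ) + 1)) * X ^ (j + 1), ?_, ?_⟩
  · rw [derivative_sum]
    conv_rhs => rw [p.as_sum_range_C_mul_X_pow]
    refine Finset.sum_congr rfl fun j _ => ?_
    rw [derivative_C_mul_X_pow, Nat.add_sub_cancel]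
    congr 2
    have : ((j:ℂ) + 1) ≠ 0 := by exact_mod_cast Nat.succ_ne_zero j
    push_cast
    field_simp
  · rw [eval_finsetSum]
    apply Finset.sum_eq_zero
    intro j _
    simp

/-- The constant in the sup bound of primitives. -/
noncomputable def C0 : ℝ := √(∑' j : ℕ, (1 / ((j:ℝ) + 1)) ^ 2)

lemma summable_C0 : Summable (fun j : ℕ => (1 / ((j:ℝ) + 1)) ^ 2) := by
  have h := (Real.summable_one_div_nat_pow (p := 2)).mpr (by norm_num)
  have h2 := (summable_nat_add_iff 1).mpr h
  refine h2.congr ?_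
  intro j
  push_cast
  rw [div_pow, one_pow]

lemma prim_bound {p q : ℂ[X]} (h : derivative q = p) (h0 : q.eval 0 = 0) {z : ℂ} (hz : ‖z‖ ≤ 1) :
    ‖q.eval z‖ ≤ C0 * √(En p) := by
  have hcoeff : ∀ j : ℕ, ‖q.coeff (j + 1)‖ = ‖p.coeff j‖ * (1 / ((j:ℝ) + 1)) := by
    intro j
    rw [← h, coeff_derivative, norm_mul]
    have : ‖((j:ℂ) + 1)‖ = (j:ℝ) + 1 := by
      have : ((j:ℂ) + 1) = ((j + 1 : ℕ) : ℂ) := by push_cast; ring
      rw [this, Complex.norm_natCast]
      push_cast; ring
    rw [this]
    have h2 : (0:ℝ) < (j:ℝ) + 1 := by positivity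
    field_simp
  have hq0 : q.coeff 0 = 0 := by rw [coeff_zero_eq_eval_zero, h0]
  set n := max q.natDegree p.natDegree + 1 with hn
  have h1 : q.eval z = ∑ j ∈ Finset.range n, q.coeff (j + 1) * z ^ (j + 1) := by
    rw [eval_eq_sum_range' (show q.natDegree < n + 1 by omega), Finset.sum_range_succ', hq0]
    simp
  rw [h1]
  calc ‖∑ j ∈ Finset.range n, q.coeff (j + 1) * z ^ (j + 1)‖
      ≤ ∑ j ∈ Finset.range n, ‖p.coeff j‖ * (1 / ((j:ℝ) + 1)) := by
        refine (norm_sum_le _ _).trans (Finset.sum_le_sum fun j _ => ?_)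
        rw [norm_mul, hcoeff, norm_pow]
        have h3 : ‖z‖ ^ (j + 1) ≤ 1 := pow_le_one₀ (norm_nonneg _) hz
        have h4 : 0 ≤ ‖p.coeff j‖ * (1 / ((j:ℝ) + 1)) := by positivity
        nlinarith
    _ ≤ √(∑ j ∈ Finset.range n, ‖p.coeff j‖ ^ 2) * √(∑ j ∈ Finset.range n, (1 / ((j:ℝ) + 1)) ^ 2) :=
        Real.sum_mul_le_sqrt_mul_sqrt _ _ _
    _ ≤ √(En p) * C0 := by
        gcongr
        · rw [En_eq (N := n) (by omega)]
        · unfold C0
          apply Real.sqrt_le_sqrt
          exact summable_C0.sum_le_tsum _ (fun j _ => by positivity)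
    _ = _ := by ring

section seq

variable {P Q : ℕ → ℂ[X]} {M : ℕ → ℕ}

lemma coeff_stable (hrec : ∀ k, P (k + 1) = P k * (1 + X ^ (M k) * Q k))
    (hM : ∀ k, M k < M (k + 1)) {k l : ℕ} (hkl : k ≤ l) {j : ℕ} (hj : j < M k) :
    (P l).coeff j = (P k).coeff j := by
  have hmono : StrictMono M := strictMono_nat_of_lt_succ hM
  induction l, hkl using Nat.le_induction with
  | base => rfl
  | succ l hl ih =>
    rw [hrec, coeff_step_lt (lt_of_lt_of_le hj (hmono.monotone hl)), ih]

lemma En_sub (hrec : ∀ k, P (k + 1) = P k * (1 + X ^ (M k) * Q k))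
    (hdeg : ∀ k, (P k).natDegree < M k) (hM : ∀ k, M k < M (k + 1)) {k l : ℕ} (hkl : k ≤ l) :
    En (P l - P k) = En (P l) - En (P k) := by
  have hmono : StrictMono M := strictMono_nat_of_lt_succ hM
  obtain ⟨r, h1, h2⟩ : ∃ r, (P l - P k).natDegree < M k + r ∧ (P l).natDegree < M k + r :=
    ⟨(P l - P k).natDegree + (P l).natDegree + 1, by omega, by omega⟩
  rw [En_eq h1, En_eq h2, En_eq (hdeg k), Finset.sum_range_add, Finset.sum_range_add]
  have h3 : ∑ x ∈ Finset.range (M k), ‖(P l - P k).coeff x‖ ^ 2 = 0 := by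
    apply Finset.sum_eq_zero
    intro j hj
    rw [coeff_sub, coeff_stable hrec hM hkl (Finset.mem_range.mp hj), sub_self]
    simp
  have h4 : ∑ x ∈ Finset.range (M k), ‖(P l).coeff x‖ ^ 2 =
      ∑ x ∈ Finset.range (M k), ‖(P k).coeff x‖ ^ 2 := by
    refine Finset.sum_congr rfl fun j hj => ?_
    rw [coeff_stable hrec hM hkl (Finset.mem_range.mp hj)]
  have h5 : ∑ x ∈ Finset.range r, ‖(P l - P k).coeff (M k + x)‖ ^ 2 =
      ∑ x ∈ Finset.range r, ‖(P l).coeff (M k + x)‖ ^ 2 := by
    refine Finset.sum_congr rfl fun j _ => ?_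
    rw [coeff_sub, coeff_eq_zero_of_natDegree_lt (p := P k) (by have := hdeg k; omega), sub_zero]
  rw [h3, h4, h5]
  ring

lemma En_mono (hrec : ∀ k, P (k + 1) = P k * (1 + X ^ (M k) * Q k))
    (hdeg : ∀ k, (P k).natDegree < M k) (hM : ∀ k, M k < M (k + 1)) :
    Monotone (fun k => En (P k)) := by
  intro k l hkl
  have := En_sub hrec hdeg hM hkl
  have h2 := En_nonneg (P l - P k)
  simp only
  linarith

lemma En_cauchy (hG : ∀ k, Good (P k)) (hrec : ∀ k, P (k + 1) = P k * (1 + X ^ (M k) * Q k))
    (hdeg : ∀ k, (P k).natDegree < M k) (hM : ∀ k, M k < M (k + 1)) :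
    ∀ ε > 0, ∃ K, ∀ k ≥ K, ∀ l ≥ K, En (P l - P k) < ε := by
  intro ε hε
  have hmono := En_mono hrec hdeg hM
  have hbdd : BddAbove (range (fun k => En (P k))) := ⟨51 ^ 2, by
    rintro _ ⟨k, rfl⟩; exact (hG k).En_le⟩
  have ht := tendsto_atTop_ciSup hmono hbdd
  have hcs := ht.cauchySeq
  rw [Metric.cauchySeq_iff] at hcs
  obtain ⟨K, hK⟩ := hcs ε hε
  refine ⟨K, fun k hk l hl => ?_⟩
  have h1 := hK l hl k hk
  rw [Real.dist_eq] at h1
  rcases le_total k l with h | h
  · rw [En_sub hrec hdeg hM h]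
    exact lt_of_le_of_lt (le_abs_self _) h1
  · have h2 : En (P l - P k) = En (P k - P l) := by
      unfold En
      have : P l - P k = -(P k - P l) := by ring
      rw [this, support_neg]
      refine Finset.sum_congr rfl fun j _ => ?_
      rw [coeff_neg, norm_neg]
    rw [h2, En_sub hrec hdeg hM h]
    rw [abs_sub_comm] at h1
    exact lt_of_le_of_lt (le_abs_self _) h1

lemma En_mul_tendsto (hG : ∀ k, Good (P k)) (hrec : ∀ k, P (k + 1) = P k * (1 + X ^ (M k) * Q k))
    (hdeg : ∀ k, (P k).natDegree < M k) (hM : ∀ k, M k < M (k + 1)) :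
    Tendsto (fun k => En (P k * Q k)) atTop (𝓝 0) := by
  have hmono := En_mono hrec hdeg hM
  have hbdd : BddAbove (range (fun k => En (P k))) := ⟨51 ^ 2, by
    rintro _ ⟨k, rfl⟩; exact (hG k).En_le⟩
  have ht := tendsto_atTop_ciSup hmono hbdd
  have ht2 := ht.comp (tendsto_add_atTop_nat 1)
  have h3 := ht2.sub ht
  rw [sub_self] at h3
  refine h3.congr ?_
  intro k
  simp only [Function.comp]
  rw [hrec, En_step (hdeg k)]
  ring

end seq

/-- The limit object. -/
theorem exists_limit : ∃ (φ F : ℂ → ℂ) (u : ℝ → ℂ),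
    ContinuousOn φ (closedBall 0 1) ∧
    (∀ z ∈ ball (0:ℂ) 1, HasDerivAt φ (F z) z) ∧
    (∀ z ∈ ball (0:ℂ) 1, F z ≠ 0) ∧ F 0 = 10 ∧ ContinuousOn F (ball 0 1) ∧
    DifferentiableOn ℂ F (ball 0 1) ∧
    (∀ z₁ ∈ closedBall (0:ℂ) 1, ∀ z₂ ∈ closedBall (0:ℂ) 1, z₁ ≠ z₂ →
      ‖φ z₁ - φ z₂ - (z₁ - z₂) * F (midpt z₁ z₂)‖ ≤ (1/2) * (‖z₁ - z₂‖ * ‖F (midpt z₁ z₂)‖)) ∧
    IntervalIntegrable u volume 0 (2 * Real.pi) ∧
    (∀ x y, 0 ≤ x → x ≤ y → y ≤ 2 * Real.pi →
      φ (circleMap 0 1 y) - φ (circleMap 0 1 x) =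
        ∫ θ in x..y, circleMap 0 1 θ * Complex.I * u θ) ∧
    (∀ᵐ θ ∂(volume.restrict (Ioc 0 (2 * Real.pi))), 45 ≤ ‖u θ‖) ∧
    (∀ g : ℂ → ℂ, DiffContOnCl ℂ g (ball 0 1) →
      ∫ z in ball (0:ℂ) 1, g z * ((‖F z‖ ^ 2 : ℝ) : ℂ) =
        ∫ θ in (0:ℝ)..2 * Real.pi, g (circleMap 0 1 θ) * ((‖u θ‖ : ℝ) : ℂ)) := by
  have hpi := Real.pi_pos
  obtain ⟨P, Q, M, hG, hrec, hdeg, hM, hq⟩ := exists_seq
  choose R hR hR0 using fun k => exists_prim (P k)
  have hcauchy := En_cauchy hG hrec hdeg hM
  have hC0 : 0 ≤ C0 := Real.sqrt_nonneg _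
  -- uniform Cauchy
  have hRbound : ∀ k l : ℕ, ∀ z : ℂ, ‖z‖ ≤ 1 →
      ‖(R k).eval z - (R l).eval z‖ ≤ C0 * √(En (P k - P l)) := by
    intro k l z hz
    have := prim_bound (p := P k - P l) (q := R k - R l) (by rw [derivative_sub, hR, hR])
      (by rw [eval_sub, hR0, hR0, sub_zero]) hz
    rwa [eval_sub] at this
  have hUC : UniformCauchySeqOn (fun k z => (R k).eval z) atTop (closedBall (0:ℂ) 1) := by
    rw [Metric.uniformCauchySeqOn_iff]
    intro ε hε
    obtain ⟨K, hK⟩ := hcauchy ((ε / (C0 + 1)) ^ 2) (by positivity)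
    refine ⟨K, fun m hm n hn z hz => ?_⟩
    rw [dist_eq_norm]
    refine lt_of_le_of_lt (hRbound m n z (by simpa using hz)) ?_
    have h1 : √(En (P m - P n)) < ε / (C0 + 1) := by
      rw [Real.sqrt_lt' (by positivity)]
      exact hK n hn m hm
    have h2 : 0 ≤ √(En (P m - P n)) := Real.sqrt_nonneg _
    calc C0 * √(En (P m - P n)) ≤ (C0 + 1) * √(En (P m - P n)) := by gcongr; linarith
      _ < (C0 + 1) * (ε / (C0 + 1)) := by gcongr
      _ = ε := by field_simp
  set φ : ℂ → ℂ := fun z => limUnder atTop (fun k => (R k).eval z) with hφ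
  have hφt : ∀ z ∈ closedBall (0:ℂ) 1, Tendsto (fun k => (R k).eval z) atTop (𝓝 (φ z)) := by
    intro z hz
    exact (hUC.cauchySeq hz).tendsto_limUnder
  have hTU : TendstoUniformlyOn (fun k z => (R k).eval z) φ atTop (closedBall (0:ℂ) 1) :=
    hUC.tendstoUniformlyOn_of_tendsto hφt
  have hφcont : ContinuousOn φ (closedBall 0 1) :=
    hTU.continuousOn (Frequently.of_forall fun k => (R k).continuous.continuousOn)
  have hTL : TendstoLocallyUniformlyOn (fun k z => (R k).eval z) φ atTop (ball (0:ℂ) 1) :=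
    (hTU.mono ball_subset_closedBall).tendstoLocallyUniformlyOn
  have hφdiff : DifferentiableOn ℂ φ (ball 0 1) :=
    hTL.differentiableOn (Eventually.of_forall fun k => (R k).differentiable.differentiableOn)
      isOpen_ball
  set F : ℂ → ℂ := deriv φ with hF
  have hTP : TendstoLocallyUniformlyOn (fun k z => (P k).eval z) F atTop (ball (0:ℂ) 1) := by
    have := hTL.deriv (Eventually.of_forall fun k => (R k).differentiable.differentiableOn)
      isOpen_ball
    refine this.congr ?_
    intro k z _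
    simp only [Function.comp]
    rw [Polynomial.deriv, hR]
  have hPt : ∀ z ∈ ball (0:ℂ) 1, Tendsto (fun k => (P k).eval z) atTop (𝓝 (F z)) :=
    fun z hz => hTP.tendsto_at hz
  have hFdiff : DifferentiableOn ℂ F (ball 0 1) :=
    hTP.differentiableOn (Eventually.of_forall fun k => (P k).differentiable.differentiableOn)
      isOpen_ball
  -- the L¹ limit
  set μ : Measure ℝ := volume.restrict (Ioc 0 (2 * Real.pi)) with hμ
  have hint : ∀ k, Integrable (fun θ : ℝ => (P k).eval (circleMap 0 1 θ)) μ := by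
    intro k
    have := (cont_eval_cm (P k)).intervalIntegrable (μ := volume) 0 (2 * Real.pi)
    rwa [intervalIntegrable_iff_integrableOn_Ioc_of_le (by positivity)] at this
  have hdistL : ∀ k l, dist ((hint k).toL1 _) ((hint l).toL1 _) ≤
      2 * Real.pi * √(En (P k - P l)) := by
    intro k l
    have h1 := integral_norm_le_sqrt (P k - P l)
    rw [intervalIntegral.integral_of_le (by positivity)] at h1
    refine le_trans (le_of_eq ?_) h1
    rw [dist_eq_norm, ← Integrable.toL1_sub, L1.norm_eq_integral_norm]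
    apply integral_congr_ae
    filter_upwards [Integrable.coeFn_toL1 ((hint k).sub (hint l))] with θ hθ
    rw [hθ]
    simp
  have hCS : CauchySeq (fun k => (hint k).toL1 _) := by
    rw [Metric.cauchySeq_iff]
    intro ε hε
    obtain ⟨K, hK⟩ := hcauchy ((ε / (2 * Real.pi)) ^ 2) (by positivity)
    refine ⟨K, fun m hm n hn => ?_⟩
    refine lt_of_le_of_lt (hdistL m n) ?_
    have h1 : √(En (P m - P n)) < ε / (2 * Real.pi) := by
      rw [Real.sqrt_lt' (by positivity)]
      exact hK n hn m hm
    calc 2 * Real.pi * √(En (P m - P n)) < 2 * Real.pi * (ε / (2 * Real.pi)) := by gcongr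
      _ = ε := by field_simp
  obtain ⟨U, hU⟩ := cauchySeq_tendsto_of_complete hCS
  set u : ℝ → ℂ := fun θ => U θ with hu
  have huint : Integrable u μ := L1.integrable_coeFn U
  have hL1 : Tendsto (fun k => ∫ θ, ‖(P k).eval (circleMap 0 1 θ) - u θ‖ ∂μ) atTop (𝓝 0) := by
    have h1 := tendsto_iff_dist_tendsto_zero.mp hU
    refine h1.congr ?_
    intro k
    rw [dist_eq_norm, L1.norm_eq_integral_norm]
    apply integral_congr_ae
    filter_upwards [Lp.coeFn_sub ((hint k).toL1 _) U, Integrable.coeFn_toL1 (hint k)] with θ h2 h3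
    rw [h2, Pi.sub_apply, h3]
  have huii : IntervalIntegrable u volume 0 (2 * Real.pi) := by
    rw [intervalIntegrable_iff_integrableOn_Ioc_of_le (by positivity)]
    exact huint
  -- gaps
  have hgap := gap_tendsto hG (En_mul_tendsto hG hrec hdeg hM) hq
  refine ⟨φ, F, u, hφcont, ?_, ?_, ?_, hFdiff.continuousOn, hFdiff, ?_, huii, ?_, ?_, ?_⟩
  · intro z hz
    exact (hφdiff.differentiableAt (isOpen_ball.mem_nhds hz)).hasDerivAt
  · intro z hz h0
    have hz' : ‖z‖ < 1 := by simpa using hz
    have h1 : ∀ k, 10 * (1 - ‖z‖) ^ (1/10:ℝ) ≤ ‖(P k).eval z‖ := by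
      intro k
      have := lower_bound (hG k).sb hz'
      rw [(hG k).c0] at this
      simpa using this
    have h2 := ge_of_tendsto' (hPt z hz).norm h1
    rw [h0, norm_zero] at h2
    have h3 : 0 < (1 - ‖z‖) ^ (1/10:ℝ) := Real.rpow_pos_of_pos (by linarith) _
    linarith
  · have h1 := hPt 0 (by simp)
    have h2 : Tendsto (fun k => (P k).eval 0) atTop (𝓝 10) := by
      have : (fun k => (P k).eval (0:ℂ)) = fun _ => 10 := by
        ext k; rw [(hG k).c0]
      rw [this]
      exact tendsto_const_nhds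
    exact tendsto_nhds_unique h1 h2
  · intro z₁ hz₁ z₂ hz₂ hne
    have hz₁' : ‖z₁‖ ≤ 1 := by simpa using hz₁
    have hz₂' : ‖z₂‖ ≤ 1 := by simpa using hz₂
    have hd : 0 < ‖z₁ - z₂‖ := norm_pos_iff.mpr (sub_ne_zero.mpr hne)
    have hm : midpt z₁ z₂ ∈ ball (0:ℂ) 1 := by
      rw [mem_ball_zero_iff]
      have := norm_midpt_le hz₁' hz₂'
      linarith
    have h1 : ∀ k, ‖(R k).eval z₁ - (R k).eval z₂ - (z₁ - z₂) * (P k).eval (midpt z₁ z₂)‖ ≤
        (1/2) * (‖z₁ - z₂‖ * ‖(P k).eval (midpt z₁ z₂)‖) := fun k =>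
      two_point (hG k).sb (hR k) hz₁' hz₂'
    have h2 := (((hφt z₁ hz₁).sub (hφt z₂ hz₂)).sub ((hPt _ hm).const_mul (z₁ - z₂))).norm
    have h3 := ((hPt _ hm).norm.const_mul ‖z₁ - z₂‖).const_mul (1/2 : ℝ)
    exact le_of_tendsto_of_tendsto' h2 h3 h1
  · intro x y hx hxy hy
    have hFTC : ∀ k, (R k).eval (circleMap 0 1 y) - (R k).eval (circleMap 0 1 x) =
        ∫ θ in x..y, circleMap 0 1 θ * Complex.I * (P k).eval (circleMap 0 1 θ) := by
      intro k
      symm
      apply intervalIntegral.integral_eq_sub_of_hasDerivAt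
      · intro θ _
        have h1 := ((R k).hasDerivAt (circleMap 0 1 θ)).comp θ (hasDerivAt_circleMap 0 1 θ)
        rw [hR] at h1
        exact h1.congr_deriv (by ring)
      · apply Continuous.intervalIntegrable
        exact ((continuous_circleMap 0 1).mul continuous_const).mul (cont_eval_cm _)
    have h1 : Tendsto (fun k => (R k).eval (circleMap 0 1 y) - (R k).eval (circleMap 0 1 x)) atTop
        (𝓝 (φ (circleMap 0 1 y) - φ (circleMap 0 1 x))) :=
      (hφt _ (by simp)).sub (hφt _ (by simp))
    have h2 : Tendsto (fun k => ∫ θ in x..y, circleMap 0 1 θ * Complex.I *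
        (P k).eval (circleMap 0 1 θ)) atTop (𝓝 (∫ θ in x..y, circleMap 0 1 θ * Complex.I * u θ)) := by
      rw [tendsto_iff_norm_sub_tendsto_zero]
      refine squeeze_zero (fun _ => norm_nonneg _) ?_ hL1
      intro k
      have hsub : Ioc x y ⊆ Ioc 0 (2 * Real.pi) := Ioc_subset_Ioc hx hy
      have hi1 : IntegrableOn (fun θ => circleMap 0 1 θ * Complex.I * (P k).eval (circleMap 0 1 θ))
          (Ioc x y) volume := by
        have : Continuous (fun θ => circleMap 0 1 θ * Complex.I *
          (P k).eval (circleMap 0 1 θ)) :=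
          ((continuous_circleMap 0 1).mul continuous_const).mul (cont_eval_cm _)
        have h := this.intervalIntegrable (μ := volume) x y
        rwa [intervalIntegrable_iff_integrableOn_Ioc_of_le hxy] at h
      have hi2 : IntegrableOn (fun θ => circleMap 0 1 θ * Complex.I * u θ) (Ioc x y) volume := by
        have hu2 : IntegrableOn u (Ioc x y) volume := by
          have : IntegrableOn u (Ioc 0 (2 * Real.pi)) volume := huint
          exact this.mono_set hsub
        apply Integrable.bdd_mul (c := 1) hu2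
        · exact ((continuous_circleMap 0 1).mul continuous_const).aestronglyMeasurable
        · apply Eventually.of_forall
          intro θ
          rw [norm_mul, cm_norm]
          simp
      rw [intervalIntegral.integral_of_le hxy, intervalIntegral.integral_of_le hxy,
        ← integral_sub hi1 hi2]
      refine (norm_integral_le_integral_norm _).trans ?_
      calc ∫ θ in Ioc x y, ‖circleMap 0 1 θ * Complex.I * (P k).eval (circleMap 0 1 θ) -
            circleMap 0 1 θ * Complex.I * u θ‖
          = ∫ θ in Ioc x y, ‖(P k).eval (circleMap 0 1 θ) - u θ‖ := by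
            congr 1
            ext θ
            rw [← mul_sub, norm_mul, norm_mul, cm_norm]
            simp
        _ ≤ ∫ θ in Ioc 0 (2 * Real.pi), ‖(P k).eval (circleMap 0 1 θ) - u θ‖ := by
            apply setIntegral_mono_set
            · exact ((hint k).sub huint).norm
            · exact Eventually.of_forall fun θ => norm_nonneg _
            · exact hsub.eventuallyLE
    simp_rw [hFTC] at h1
    exact tendsto_nhds_unique h1 h2
  · -- lower bound for u
    have hpart : ∫ θ, max (45 - ‖u θ‖) 0 ∂μ ≤ 0 := by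
      have h1 : ∀ k, ∫ θ, max (45 - ‖u θ‖) 0 ∂μ ≤
          (∫ θ in (0:ℝ)..2 * Real.pi,
            (Bf (P k) (circleMap 0 1 θ) - ‖(P k).eval (circleMap 0 1 θ)‖)) +
          ∫ θ, ‖(P k).eval (circleMap 0 1 θ) - u θ‖ ∂μ := by
        intro k
        rw [intervalIntegral.integral_of_le (by positivity), ← hμ, ← integral_add]
        · apply integral_mono_of_nonneg
          · exact Eventually.of_forall fun θ => le_max_right _ _
          · apply Integrable.add _ ((hint k).sub huint).norm
            have hc : Continuous (fun θ => Bf (P k) (circleMap 0 1 θ) -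
              ‖(P k).eval (circleMap 0 1 θ)‖) :=
              ((Bf_continuous (P k)).comp (continuous_circleMap 0 1)).sub (cont_eval_cm _).norm
            have h := hc.intervalIntegrable (μ := volume) 0 (2 * Real.pi)
            rwa [intervalIntegrable_iff_integrableOn_Ioc_of_le (by positivity)] at h
          · apply Eventually.of_forall
            intro θ
            simp only
            have h2 := (hG k).lo _ (cm_norm θ)
            have h3 := (hG k).lt _ (cm_norm θ)
            have h4 : ‖(P k).eval (circleMap 0 1 θ)‖ ≤ ‖(P k).eval (circleMap 0 1 θ) - u θ‖ +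
                ‖u θ‖ := by
              simpa using norm_add_le ((P k).eval (circleMap 0 1 θ) - u θ) (u θ)
            apply max_le
            · linarith
            · have := norm_nonneg ((P k).eval (circleMap 0 1 θ) - u θ)
              linarith
        · have hc : Continuous (fun θ => Bf (P k) (circleMap 0 1 θ) -
              ‖(P k).eval (circleMap 0 1 θ)‖) :=
              ((Bf_continuous (P k)).comp (continuous_circleMap 0 1)).sub (cont_eval_cm _).norm
          have h := hc.intervalIntegrable (μ := volume) 0 (2 * Real.pi)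
          rwa [intervalIntegrable_iff_integrableOn_Ioc_of_le (by positivity)] at h
        · exact ((hint k).sub huint).norm
      have h2 := hgap.add hL1
      rw [add_zero] at h2
      exact ge_of_tendsto' h2 h1
    have hnn : 0 ≤ᵐ[μ] fun θ => max (45 - ‖u θ‖) 0 := Eventually.of_forall fun θ => le_max_right _ _
    have hfin : IsFiniteMeasure μ := by
      rw [hμ]
      exact ⟨by rw [Measure.restrict_apply_univ]; exact measure_Ioc_lt_top⟩
    have hii : Integrable (fun θ => max (45 - ‖u θ‖) 0) μ :=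
      ((integrable_const 45).sub huint.norm).sup (integrable_zero _ _ _)
    have h0 : ∫ θ, max (45 - ‖u θ‖) 0 ∂μ = 0 :=
      le_antisymm hpart (integral_nonneg_of_ae hnn)
    rw [integral_eq_zero_iff_of_nonneg_ae hnn hii] at h0
    filter_upwards [h0] with θ hθ
    have : 45 - ‖u θ‖ ≤ 0 := by
      have h3 := le_max_left (45 - ‖u θ‖) 0
      simp only [Pi.zero_apply] at hθ
      rw [hθ] at h3
      exact h3
    linarith
  · -- quadrature identity
    intro g hg
    have hgcont : ContinuousOn g (closedBall 0 1) := by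
      have := hg.continuousOn
      rwa [closure_ball (0:ℂ) one_ne_zero] at this
    obtain ⟨Cg, hCg⟩ := (isCompact_closedBall (0:ℂ) 1).exists_bound_of_continuousOn hgcont
    have hCg0 : 0 ≤ Cg := (norm_nonneg _).trans (hCg 0 (by simp))
    have hpoly := fun k => ball_poly hg (P k)
    -- left side
    have hLt : Tendsto (fun k => ∫ z in ball (0:ℂ) 1, g z * ((‖(P k).eval z‖ ^ 2 : ℝ) : ℂ)) atTop
        (𝓝 (∫ z in ball (0:ℂ) 1, g z * ((‖F z‖ ^ 2 : ℝ) : ℂ))) := by
      apply tendsto_integral_of_dominated_convergence (fun _ => Cg * 51 ^ 2)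
      · intro k
        apply ContinuousOn.aestronglyMeasurable _ measurableSet_ball
        apply (hgcont.mono ball_subset_closedBall).mul
        apply Continuous.continuousOn
        exact Complex.continuous_ofReal.comp ((P k).continuous.norm.pow 2)
      · have : IsFiniteMeasure (volume.restrict (ball (0:ℂ) 1)) :=
          ⟨by rw [Measure.restrict_apply_univ]; exact measure_ball_lt_top⟩
        exact integrable_const _
      · intro k
        filter_upwards [ae_restrict_mem measurableSet_ball] with z hz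
        rw [norm_mul, Complex.norm_real, Real.norm_eq_abs, abs_of_nonneg (by positivity)]
        have h1 := hCg z (ball_subset_closedBall hz)
        have h2 := (hG k).norm_le (z := z) (by
          have : ‖z‖ < 1 := by simpa using hz
          exact this.le)
        gcongr
      · filter_upwards [ae_restrict_mem measurableSet_ball] with z hz
        apply Tendsto.const_mul
        have h1 := ((hPt z hz).norm.pow 2)
        exact (Complex.continuous_ofReal.tendsto _).comp h1
    have hRt : Tendsto (fun k => ∫ θ in (0:ℝ)..2 * Real.pi,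
        g (circleMap 0 1 θ) * (Bf (P k) (circleMap 0 1 θ) : ℂ)) atTop
        (𝓝 (∫ θ in (0:ℝ)..2 * Real.pi, g (circleMap 0 1 θ) * ((‖u θ‖ : ℝ) : ℂ))) := by
      rw [tendsto_iff_norm_sub_tendsto_zero]
      have h2 := (hgap.add hL1).const_mul Cg
      rw [add_zero, mul_zero] at h2
      refine squeeze_zero (fun _ => norm_nonneg _) ?_ h2
      intro k
      have hgc : Continuous (fun θ : ℝ => g (circleMap 0 1 θ)) := by
        apply hgcont.comp_continuous (continuous_circleMap 0 1)
        intro θ
        rw [mem_closedBall_zero_iff, cm_norm]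
      have hBc : Continuous (fun θ : ℝ => Bf (P k) (circleMap 0 1 θ)) :=
        (Bf_continuous (P k)).comp (continuous_circleMap 0 1)
      have hi1 : Integrable (fun θ => g (circleMap 0 1 θ) * (Bf (P k) (circleMap 0 1 θ) : ℂ)) μ := by
        have hc : Continuous (fun θ => g (circleMap 0 1 θ) * (Bf (P k) (circleMap 0 1 θ) : ℂ)) :=
          hgc.mul (Complex.continuous_ofReal.comp hBc)
        have h := hc.intervalIntegrable (μ := volume) 0 (2 * Real.pi)
        rwa [intervalIntegrable_iff_integrableOn_Ioc_of_le (by positivity)] at h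
      have hi2 : Integrable (fun θ => g (circleMap 0 1 θ) * ((‖u θ‖ : ℝ) : ℂ)) μ := by
        apply Integrable.bdd_mul (c := Cg) huint.norm.ofReal
        · exact hgc.aestronglyMeasurable
        · apply Eventually.of_forall
          intro θ
          exact hCg _ (by rw [mem_closedBall_zero_iff, cm_norm])
      have hi3 : Integrable (fun θ => Bf (P k) (circleMap 0 1 θ) -
          ‖(P k).eval (circleMap 0 1 θ)‖) μ := by
        have hc : Continuous (fun θ => Bf (P k) (circleMap 0 1 θ) -
              ‖(P k).eval (circleMap 0 1 θ)‖) := hBc.sub (cont_eval_cm _).norm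
        have h := hc.intervalIntegrable (μ := volume) 0 (2 * Real.pi)
        rwa [intervalIntegrable_iff_integrableOn_Ioc_of_le (by positivity)] at h
      rw [intervalIntegral.integral_of_le (by positivity),
        intervalIntegral.integral_of_le (by positivity),
        intervalIntegral.integral_of_le (by positivity), ← hμ, ← integral_sub hi1 hi2]
      refine (norm_integral_le_integral_norm _).trans ?_
      have hi4 : Integrable (fun θ => ‖(P k).eval (circleMap 0 1 θ) - u θ‖) μ :=
        ((hint k).sub huint).norm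
      rw [← integral_add hi3 hi4, ← integral_const_mul]
      apply integral_mono (hi1.sub hi2).norm ((hi3.add hi4).const_mul Cg)
      intro θ
      simp only [Pi.sub_apply, Pi.add_apply]
      rw [← mul_sub, norm_mul, ← Complex.ofReal_sub, Complex.norm_real, Real.norm_eq_abs]
      have h3 := hCg (circleMap 0 1 θ) (by rw [mem_closedBall_zero_iff, cm_norm])
      have h4 := (hG k).lt _ (cm_norm θ)
      have h5 : |Bf (P k) (circleMap 0 1 θ) - ‖u θ‖| ≤
          (Bf (P k) (circleMap 0 1 θ) - ‖(P k).eval (circleMap 0 1 θ)‖) +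
          ‖(P k).eval (circleMap 0 1 θ) - u θ‖ := by
        have h6 := abs_norm_sub_norm_le ((P k).eval (circleMap 0 1 θ)) (u θ)
        have h7 := abs_le.mp h6
        rw [abs_le]
        constructor <;> linarith [h7.1, h7.2]
      gcongr
    simp_rw [hpoly] at hLt
    exact tendsto_nhds_unique hLt hRt

end Pool.Agent.Work.MP_9159b8_an
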