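import Mathlib

set_option autoImplicit false

namespace Pool.Agent.Work.MP_9159b8_an

open MeasureTheory Set Filter Topology
open scoped ENNReal

/-- The inverse of an injective continuous function on a compact set is continuous. -/
lemma continuousOn_invFunOn_of_isCompact {c : ℝ → ℂ} {K : Set ℝ} (hK : IsCompact K)
    (hc : ContinuousOn c K) (hinj : InjOn c K) :
    ContinuousOn (Function.invFunOn c K) (c '' K) := by
  intro w hw
  have hwK : Function.invFunOn c K w ∈ K := Function.invFunOn_mem hw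
  have hwe : c (Function.invFunOn c K w) = w := Function.invFunOn_eq hw
  rw [ContinuousWithinAt]
  have hmem : ∀ᶠ u in 𝓝[c '' K] w, Function.invFunOn c K u ∈ K := by
    filter_upwards [self_mem_nhdsWithin] with u hu
    exact Function.invFunOn_mem hu
  refine hK.tendsto_nhds_of_unique_mapClusterPt hmem ?_
  intro y hy hcl
  -- y is a cluster point, so `c y = w`
  have h1 : MapClusterPt (c y) (𝓝[c '' K] w) (fun u => c (Function.invFunOn c K u)) := by
    rw [mapClusterPt_iff_ultrafilter] at hcl ⊢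
    obtain ⟨G, hG, hGy⟩ := hcl
    refine ⟨G, hG, ?_⟩
    have h2 : Tendsto (Function.invFunOn c K) G (𝓝[K] y) := by
      rw [tendsto_nhdsWithin_iff]
      exact ⟨hGy, hG hmem⟩
    exact (hc y hy).tendsto.comp h2
  have h3 : Tendsto (fun u => c (Function.invFunOn c K u)) (𝓝[c '' K] w) (𝓝 w) := by
    have h4 : Tendsto (fun u : ℂ => u) (𝓝[c '' K] w) (𝓝 w) := tendsto_id.mono_left nhdsWithin_le_nhds
    refine h4.congr' ?_
    filter_upwards [self_mem_nhdsWithin] with u hu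
    exact (Function.invFunOn_eq hu).symm
  have h5 : c y = w := by
    have := h1.clusterPt
    have hle : map (fun u => c (Function.invFunOn c K u)) (𝓝[c '' K] w) ≤ 𝓝 w := h3
    have h6 : ClusterPt (c y) (𝓝 w) := ClusterPt.mono this hle
    exact eq_of_nhds_neBot h6
  exact hinj hy hwK (h5.trans hwe.symm)

/-- If a closed curve coincides near a point with a regular analytic arc then arcs are at most twice
as long as their chords near this point. -/
lemma local_chord_arc {c : ℝ → ℂ} (hcc : Continuous c) (hper : Function.Periodic c (2 * Real.pi))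
    (hinj : ∀ x y, |x - y| < 2 * Real.pi → c x = c y → x = y) {U : Set ℂ} 
    {θ₀ : ℝ} (h0 : c θ₀ ∈ U) {a b : ℝ} {g : ℝ → ℂ} (hg : AnalyticOnNhd ℝ g (Ioo a b))
    (hginj : InjOn g (Ioo a b)) (hg' : ∀ t ∈ Ioo a b, deriv g t ≠ 0)
    (hΓ : range c ∩ U = g '' Ioo a b) :
    ∃ δ > 0, ∀ x y, |x - θ₀| < δ → |y - θ₀| < δ → x ≤ y →
      μH[1] (c '' Icc x y) ≤ ENNReal.ofReal (2 * ‖c x - c y‖) := by
  have hpi := Real.pi_pos
  have h1 : c θ₀ ∈ g '' Ioo a b := by rw [← hΓ]; exact ⟨mem_range_self _, h0⟩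
  obtain ⟨t₀, ht₀, hgt₀⟩ := h1
  have hstrict : HasStrictDerivAt g (deriv g t₀) t₀ := (hg t₀ ht₀).hasStrictDerivAt
  set D : ℝ := ‖deriv g t₀‖ with hD
  have hDpos : 0 < D := norm_pos_iff.mpr (hg' t₀ ht₀)
  -- bi-Lipschitz near t₀
  have hbl : ∃ η > 0, ∀ s t, |s - t₀| ≤ η → |t - t₀| ≤ η →
      ‖g s - g t - (s - t) • deriv g t₀‖ ≤ (D / 3) * |s - t| := by
    have h2 := hstrict.hasStrictFDerivAt.isLittleO.def (by positivity : (0:ℝ) < D / 3)
    rw [Metric.eventually_nhds_iff] at h2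
    obtain ⟨η, hη, h3⟩ := h2
    refine ⟨η / 2, by positivity, ?_⟩
    intro s t hs ht
    have h4 : dist ((s, t) : ℝ × ℝ) (t₀, t₀) < η := by
      rw [Prod.dist_eq, Real.dist_eq, Real.dist_eq]
      simp only [max_lt_iff]
      constructor <;> linarith
    have h5 := h3 h4
    simpa using h5
  obtain ⟨η₁, hη₁, hbl⟩ := hbl
  -- compact sets
  set I₁ : Set ℝ := Icc (θ₀ - Real.pi / 2) (θ₀ + Real.pi / 2) with hI₁
  set K : Set ℝ := Icc (θ₀ - Real.pi) (θ₀ - Real.pi / 2) ∪ Icc (θ₀ + Real.pi / 2) (θ₀ + Real.pi)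
    with hK
  have hcK : IsCompact (c '' K) := (isCompact_Icc.union isCompact_Icc).image hcc
  have hnot : c θ₀ ∉ c '' K := by
    rintro ⟨x, hx, hxe⟩
    rcases hx with hx | hx
    · have := hinj x θ₀ (by rw [abs_lt]; constructor <;> linarith [hx.1, hx.2]) hxe
      linarith [hx.2]
    · have := hinj x θ₀ (by rw [abs_lt]; constructor <;> linarith [hx.1, hx.2]) hxe
      linarith [hx.1]
  have hV : (c '' K)ᶜ ∈ 𝓝 (g t₀) := by
    rw [hgt₀]; exact hcK.isClosed.isOpen_compl.mem_nhds hnot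
  have hgcont : ContinuousAt g t₀ := hstrict.hasDerivAt.continuousAt
  have hev : ∀ᶠ t in 𝓝 t₀, g t ∈ (c '' K)ᶜ ∧ t ∈ Ioo a b :=
    (hgcont.eventually hV).and (Ioo_mem_nhds ht₀.1 ht₀.2)
  rw [Metric.eventually_nhds_iff] at hev
  obtain ⟨η₂, hη₂, hev⟩ := hev
  set η : ℝ := min η₁ (η₂ / 2) with hη
  have hηpos : 0 < η := lt_min hη₁ (by positivity)
  set J : Set ℝ := Icc (t₀ - η) (t₀ + η) with hJ
  have hJprop : ∀ t ∈ J, |t - t₀| ≤ η₁ ∧ g t ∈ (c '' K)ᶜ ∧ t ∈ Ioo a b := by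
    intro t ht
    have h6 : |t - t₀| ≤ η := by rw [abs_le]; constructor <;> linarith [ht.1, ht.2]
    refine ⟨h6.trans (min_le_left _ _), ?_⟩
    apply hev
    rw [Real.dist_eq]
    have : η ≤ η₂ / 2 := min_le_right _ _
    linarith
  have hmemI : ∀ t ∈ J, g t ∈ c '' I₁ := by
    intro t ht
    obtain ⟨-, h7, h8⟩ := hJprop t ht
    have h9 : g t ∈ range c := by
      have : g t ∈ range c ∩ U := by rw [hΓ]; exact mem_image_of_mem g h8
      exact this.1
    obtain ⟨x, hx⟩ := h9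
    obtain ⟨y, hy, hxy⟩ := hper.exists_mem_Ico (by positivity) x (θ₀ - Real.pi)
    have hy2 : y < θ₀ + Real.pi := by linarith [hy.2]
    refine ⟨y, ?_, by rw [← hxy, hx]⟩
    by_contra hcon
    apply h7
    refine ⟨y, ?_, by rw [← hxy, hx]⟩
    rw [hI₁, mem_Icc, not_and_or, not_le, not_le] at hcon
    rcases hcon with h | h
    · exact Or.inl ⟨hy.1, h.le⟩
    · exact Or.inr ⟨h.le, hy2.le⟩
  have hinjI : InjOn c I₁ := by
    intro x hx y hy hxy
    apply hinj x y _ hxy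
    rw [abs_lt]; constructor <;> linarith [hx.1, hx.2, hy.1, hy.2]
  set ψ : ℝ → ℝ := Function.invFunOn c I₁ ∘ g with hψ
  have hψmem : ∀ t ∈ J, ψ t ∈ I₁ := fun t ht => Function.invFunOn_mem (hmemI t ht)
  have hψc : ∀ t ∈ J, c (ψ t) = g t := fun t ht => Function.invFunOn_eq (hmemI t ht)
  have hgJ : ContinuousOn g J := fun t ht =>
    ((hg t (hJprop t ht).2.2).continuousAt).continuousWithinAt
  have hψcont : ContinuousOn ψ J :=
    (continuousOn_invFunOn_of_isCompact isCompact_Icc hcc.continuousOn hinjI).comp hgJ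
      (fun t ht => hmemI t ht)
  have hψinj : InjOn ψ J := by
    intro s hs t ht hst
    apply hginj (hJprop s hs).2.2 (hJprop t ht).2.2
    rw [← hψc s hs, ← hψc t ht, hst]
  have ht₀J : t₀ ∈ J := ⟨by linarith, by linarith⟩
  have hlJ : t₀ - η ∈ J := ⟨le_rfl, by linarith⟩
  have hrJ : t₀ + η ∈ J := ⟨by linarith, le_rfl⟩
  have hψt₀ : ψ t₀ = θ₀ := by
    apply hinjI (hψmem t₀ ht₀J) ⟨by linarith, by linarith⟩
    rw [hψc t₀ ht₀J, hgt₀]
  have hle : t₀ - η ≤ t₀ + η := by linarith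
  have hmono := ContinuousOn.strictMonoOn_of_injOn_Icc' hle hψcont hψinj
  set δ : ℝ := min |ψ (t₀ - η) - θ₀| |ψ (t₀ + η) - θ₀| with hδ
  have hsurj : 0 < δ ∧ ∀ x, |x - θ₀| < δ → ∃ t ∈ J, ψ t = x := by
    rcases hmono with hm | hm
    · have e1 : ψ (t₀ - η) < θ₀ := by rw [← hψt₀]; exact hm hlJ ht₀J (by linarith)
      have e2 : θ₀ < ψ (t₀ + η) := by rw [← hψt₀]; exact hm ht₀J hrJ (by linarith)
      refine ⟨lt_min (abs_pos.mpr (by linarith)) (abs_pos.mpr (by linarith)), ?_⟩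
      intro x hx
      have e3 : |x - θ₀| < θ₀ - ψ (t₀ - η) := by
        have := hx.trans_le (min_le_left _ _)
        rwa [abs_of_neg (by linarith : ψ (t₀ - η) - θ₀ < 0), neg_sub] at this
      have e4 : |x - θ₀| < ψ (t₀ + η) - θ₀ := by
        have := hx.trans_le (min_le_right _ _)
        rwa [abs_of_pos (by linarith : 0 < ψ (t₀ + η) - θ₀)] at this
      rw [abs_lt] at e3 e4
      have := intermediate_value_Icc hle hψcont
      obtain ⟨t, ht, hte⟩ := this ⟨by linarith [e3.1] , by linarith [e4.2]⟩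
      exact ⟨t, ht, hte⟩
    · have e1 : θ₀ < ψ (t₀ - η) := by rw [← hψt₀]; exact hm hlJ ht₀J (by linarith)
      have e2 : ψ (t₀ + η) < θ₀ := by rw [← hψt₀]; exact hm ht₀J hrJ (by linarith)
      refine ⟨lt_min (abs_pos.mpr (by linarith)) (abs_pos.mpr (by linarith)), ?_⟩
      intro x hx
      have e3 : |x - θ₀| < ψ (t₀ - η) - θ₀ := by
        have := hx.trans_le (min_le_left _ _)
        rwa [abs_of_pos (by linarith : 0 < ψ (t₀ - η) - θ₀)] at this
      have e4 : |x - θ₀| < θ₀ - ψ (t₀ + η) := by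
        have := hx.trans_le (min_le_right _ _)
        rwa [abs_of_neg (by linarith : ψ (t₀ + η) - θ₀ < 0), neg_sub] at this
      rw [abs_lt] at e3 e4
      have := intermediate_value_Icc' hle hψcont
      obtain ⟨t, ht, hte⟩ := this ⟨by linarith [e4.1] , by linarith [e3.2]⟩
      exact ⟨t, ht, hte⟩
  refine ⟨δ, hsurj.1, ?_⟩
  intro x y hx hy hxy
  obtain ⟨s, hs, hsx⟩ := hsurj.2 x hx
  obtain ⟨t, ht, hty⟩ := hsurj.2 y hy
  have hsubJ : uIcc s t ⊆ J := by
    rw [hJ] at hs ht ⊢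
    exact uIcc_subset_Icc hs ht
  have hsub : c '' Icc x y ⊆ g '' uIcc s t := by
    rintro _ ⟨z, hz, rfl⟩
    have := intermediate_value_uIcc (hψcont.mono hsubJ)
    rw [hsx, hty, uIcc_of_le hxy] at this
    obtain ⟨r, hr, hrz⟩ := this hz
    exact ⟨r, hr, by rw [← hrz, hψc r (hsubJ hr)]⟩
  have hLip : LipschitzOnWith (Real.toNNReal (4 / 3 * D)) g (uIcc s t) := by
    apply LipschitzOnWith.of_dist_le_mul
    intro p hp q hq
    have h10 := hbl p q (hJprop p (hsubJ hp)).1 (hJprop q (hsubJ hq)).1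
    rw [Real.coe_toNNReal _ (by positivity), dist_eq_norm, Real.dist_eq]
    have h11 : ‖g p - g q‖ ≤ ‖g p - g q - (p - q) • deriv g t₀‖ + ‖(p - q) • deriv g t₀‖ := by
      simpa using norm_add_le (g p - g q - (p - q) • deriv g t₀) ((p - q) • deriv g t₀)
    rw [norm_smul, Real.norm_eq_abs] at h11
    rw [← hD] at h11
    linarith
  have hlow : (2 / 3 * D) * |s - t| ≤ ‖g s - g t‖ := by
    have h10 := hbl s t (hJprop s hs).1 (hJprop t ht).1
    have h11 : ‖(s - t) • deriv g t₀‖ ≤ ‖g s - g t‖ + ‖g s - g t - (s - t) • deriv g t₀‖ := by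
      have := norm_sub_le (g s - g t) (g s - g t - (s - t) • deriv g t₀)
      simpa using this
    rw [norm_smul, Real.norm_eq_abs] at h11
    rw [← hD] at h11
    linarith
  calc μH[1] (c '' Icc x y) ≤ μH[1] (g '' uIcc s t) := measure_mono hsub
    _ ≤ ((Real.toNNReal (4 / 3 * D) : NNReal) : ℝ≥0∞) ^ (1:ℝ) * μH[1] (uIcc s t) :=
        hLip.hausdorffMeasure_image_le zero_le_one
    _ = ENNReal.ofReal (4 / 3 * D) * ENNReal.ofReal (|t - s|) := by
        rw [hausdorffMeasure_real, Real.volume_interval, ENNReal.rpow_one]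
        rfl
    _ = ENNReal.ofReal ((4 / 3 * D) * |t - s|) := (ENNReal.ofReal_mul (by positivity)).symm
    _ ≤ ENNReal.ofReal (2 * ‖c x - c y‖) := by
        apply ENNReal.ofReal_le_ofReal
        rw [← hsx, ← hty, hψc s hs, hψc t ht, abs_sub_comm]
        linarith

end Pool.Agent.Work.MP_9159b8_an
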