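import Mathlib
import Pool.Agent.Work.MP_9159b8_an.Limit
import Pool.Agent.Work.MP_9159b8_an.Curve
import Pool.Agent.Work.MP_9159b8_an.NonReg

set_option autoImplicit false

namespace Pool.Agent.Work.MP_9159b8_an

open Set Metric MeasureTheory ComplexConjugate Filter Topology

lemma midpt_circle {α θ : ℝ} (hα : 0 < α) (hα2 : α < Real.pi / 2) :
    ‖circleMap 0 1 (θ - α) - circleMap 0 1 (θ + α)‖ = 2 * Real.sin α ∧
    midpt (circleMap 0 1 (θ - α)) (circleMap 0 1 (θ + α)) =
      circleMap 0 ((1 - Real.sin α) * Real.cos α) θ := by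
  have hpi := Real.pi_pos
  have hsin : 0 < Real.sin α := Real.sin_pos_of_pos_of_lt_pi hα (by linarith)
  have h1 : circleMap 0 1 (θ - α) = circleMap 0 1 θ * (Complex.cos α - Complex.sin α * Complex.I) := by
    rw [circleMap_zero, circleMap_zero]
    rw [show ((θ - α : ℝ) : ℂ) * Complex.I = (θ:ℂ) * Complex.I + (-(α:ℂ)) * Complex.I by
      push_cast; ring]
    rw [Complex.exp_add, Complex.exp_mul_I (-(α:ℂ)), Complex.cos_neg, Complex.sin_neg]
    ring
  have h2 : circleMap 0 1 (θ + α) = circleMap 0 1 θ * (Complex.cos α + Complex.sin α * Complex.I) := by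
    rw [circleMap_zero, circleMap_zero]
    rw [show ((θ + α : ℝ) : ℂ) * Complex.I = (θ:ℂ) * Complex.I + (α:ℂ) * Complex.I by
      push_cast; ring]
    rw [Complex.exp_add, Complex.exp_mul_I (α:ℂ)]
    ring
  have h3 : ‖circleMap 0 1 (θ - α) - circleMap 0 1 (θ + α)‖ = 2 * Real.sin α := by
    rw [h1, h2]
    have : circleMap 0 1 θ * (Complex.cos α - Complex.sin α * Complex.I) -
        circleMap 0 1 θ * (Complex.cos α + Complex.sin α * Complex.I) =
        circleMap 0 1 θ * (-(2 * Complex.sin α) * Complex.I) := by ring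
    rw [this, norm_mul, cm_norm, one_mul, norm_mul, Complex.norm_I, mul_one, norm_neg, norm_mul,
      ← Complex.ofReal_sin, Complex.norm_real, Real.norm_eq_abs, abs_of_pos hsin]
    simp
  refine ⟨h3, ?_⟩
  unfold midpt
  rw [h3, h1, h2, circleMap_zero, circleMap_zero]
  push_cast
  ring

/-- The main construction, contradicting the frozen statement. -/
theorem main_counterexample :
    ¬ (∀ (Ω : Set ℂ), IsOpen Ω → IsConnected Ω → Bornology.IsBounded Ω →
      (∃ (n : ℕ) (γ : Fin n → Circle → ℂ),
        (∀ i, Continuous (γ i)) ∧ (∀ i, Function.Injective (γ i)) ∧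
        (∀ i j, i ≠ j → Disjoint (Set.range (γ i)) (Set.range (γ j))) ∧
        (∀ i, μH[1] (Set.range (γ i)) < ⊤) ∧
        frontier Ω = ⋃ i, Set.range (γ i)) →
      (∀ f : ℂ → ℂ, DifferentiableOn ℂ f Ω → ContinuousOn f (closure Ω) →
        (volume Ω).toReal⁻¹ * ∫ z in Ω, (f z).re =
          (μH[1] (frontier Ω)).toReal⁻¹ * ∫ z in frontier Ω, (f z).re ∂μH[1]) →
      ∀ p ∈ frontier Ω, ∃ U : Set ℂ, IsOpen U ∧ p ∈ U ∧
        ∃ (a b : ℝ) (g : ℝ → ℂ), a < b ∧ AnalyticOnNhd ℝ g (Set.Ioo a b) ∧
          Set.InjOn g (Set.Ioo a b) ∧ (∀ t ∈ Set.Ioo a b, deriv g t ≠ 0) ∧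
          frontier Ω ∩ U = g '' Set.Ioo a b) := by
  intro H
  have hpi := Real.pi_pos
  obtain ⟨φ, F, u, hφc, hφd, hF0, hF10, hFc, hFd, htp, hui, hFTC, hu45, hquad⟩ := exists_limit
  -- injectivity
  have hmid : ∀ z₁ ∈ closedBall (0:ℂ) 1, ∀ z₂ ∈ closedBall (0:ℂ) 1, z₁ ≠ z₂ →
      midpt z₁ z₂ ∈ ball (0:ℂ) 1 := by
    intro z₁ h₁ z₂ h₂ hne
    rw [mem_ball_zero_iff]
    have := norm_midpt_le (z₁ := z₁) (z₂ := z₂) (by simpa using h₁) (by simpa using h₂)
    have hd : 0 < ‖z₁ - z₂‖ := norm_pos_iff.mpr (sub_ne_zero.mpr hne)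
    linarith
  have hinj : InjOn φ (closedBall 0 1) := by
    intro z₁ h₁ z₂ h₂ heq
    by_contra hne
    have h := htp z₁ h₁ z₂ h₂ hne
    have hm := hF0 _ (hmid z₁ h₁ z₂ h₂ hne)
    have hd : 0 < ‖z₁ - z₂‖ := norm_pos_iff.mpr (sub_ne_zero.mpr hne)
    have hFm : 0 < ‖F (midpt z₁ z₂)‖ := norm_pos_iff.mpr hm
    rw [heq, sub_self, zero_sub, norm_neg, norm_mul] at h
    nlinarith [mul_pos hd hFm]
  have hsph : sphere (0:ℂ) 1 ⊆ closedBall 0 1 := sphere_subset_closedBall
  set Ω : Set ℂ := φ '' ball 0 1 with hΩ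
  have hΩopen : IsOpen Ω := by
    rw [isOpen_iff_mem_nhds]
    rintro _ ⟨z, hz, rfl⟩
    have hd : DifferentiableOn ℂ φ (ball 0 1) := fun w hw =>
      (hφd w hw).differentiableAt.differentiableWithinAt
    have hA : AnalyticAt ℂ φ z := hd.analyticAt (isOpen_ball.mem_nhds hz)
    have hs : HasStrictDerivAt φ (F z) z := by
      have := hA.hasStrictDerivAt
      rwa [(hφd z hz).deriv] at this
    rw [← hs.map_nhds_eq (hF0 z hz)]
    exact image_mem_map (isOpen_ball.mem_nhds hz)
  have hΩconn : IsConnected Ω := by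
    have : IsConnected (ball (0:ℂ) 1) :=
      ⟨⟨0, by simp⟩, (convex_ball (0:ℂ) 1).isPreconnected⟩
    exact this.image φ (hφc.mono ball_subset_closedBall)
  have hcpt : IsCompact (φ '' closedBall 0 1) := (isCompact_closedBall _ _).image_of_continuousOn hφc
  have hΩbdd : Bornology.IsBounded Ω :=
    hcpt.isBounded.subset (image_mono ball_subset_closedBall)
  have hclos : closure Ω = φ '' closedBall 0 1 := by
    apply Subset.antisymm
    · exact closure_minimal (image_mono ball_subset_closedBall) hcpt.isClosed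
    · have h := ContinuousOn.image_closure (f := φ) (s := ball (0:ℂ) 1)
        (by rw [closure_ball (0:ℂ) one_ne_zero]; exact hφc)
      rwa [closure_ball (0:ℂ) one_ne_zero] at h
  have hfront : frontier Ω = φ '' sphere 0 1 := by
    rw [hΩopen.frontier_eq, hclos, hΩ, ← hinj.image_sdiff_subset ball_subset_closedBall]
    congr 1
    exact closedBall_sdiff_ball
  -- the boundary curve
  set c : ℝ → ℂ := fun θ => φ (circleMap 0 1 θ) with hc
  set v : ℝ → ℂ := fun θ => circleMap 0 1 θ * Complex.I * u θ with hv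
  have hcm_mem : ∀ θ : ℝ, circleMap 0 1 θ ∈ closedBall (0:ℂ) 1 := fun θ => by
    rw [mem_closedBall_zero_iff, cm_norm]
  have hcc : Continuous c := hφc.comp_continuous (continuous_circleMap 0 1) hcm_mem
  have hcper : Function.Periodic c (2 * Real.pi) := by
    intro θ
    simp only [hc]
    rw [periodic_circleMap]
  have hcinj : ∀ x y, |x - y| < 2 * Real.pi → c x = c y → x = y := by
    intro x y hxy he
    have h1 : circleMap 0 1 x = circleMap 0 1 y := hinj (hcm_mem x) (hcm_mem y) he
    exact eq_of_circleMap_eq one_ne_zero hxy h1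
  have hcinjOn : InjOn c (Ioc 0 (2 * Real.pi)) := by
    intro x hx y hy he
    apply hcinj x y _ he
    rw [abs_lt]
    constructor <;> linarith [hx.1, hx.2, hy.1, hy.2]
  have hvnorm : ∀ θ, ‖v θ‖ = ‖u θ‖ := by
    intro θ
    simp only [hv]
    rw [norm_mul, norm_mul, cm_norm]
    simp
  have hvii : IntervalIntegrable v volume 0 (2 * Real.pi) := by
    apply IntervalIntegrable.continuousOn_mul hui
    exact ((continuous_circleMap 0 1).mul continuous_const).continuousOn
  have hrange : range c = φ '' sphere 0 1 := by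
    ext w
    constructor
    · rintro ⟨θ, rfl⟩
      exact ⟨circleMap 0 1 θ, by rw [mem_sphere_zero_iff_norm, cm_norm], rfl⟩
    · rintro ⟨z, hz, rfl⟩
      have : z ∈ range (circleMap 0 1) := by
        rw [range_circleMap]; simpa using hz
      obtain ⟨θ, hθ⟩ := this
      exact ⟨θ, by simp only [hc]; rw [hθ]⟩
  have himg : c '' Ioc 0 (2 * Real.pi) = range c := by
    have := hcper.image_Ioc (by positivity : (0:ℝ) < 2 * Real.pi) 0
    rwa [zero_add] at this
  have hΓ : frontier Ω = c '' Ioc 0 (2 * Real.pi) := by rw [himg, hrange, hfront]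
  have hmeas := curve_measure (c := c) (v := v) (L := 2 * Real.pi) (by positivity) hcc hcinjOn hvii
    hFTC
  -- topological hypotheses
  have hcurve : ∃ (n : ℕ) (γ : Fin n → Circle → ℂ),
        (∀ i, Continuous (γ i)) ∧ (∀ i, Function.Injective (γ i)) ∧
        (∀ i j, i ≠ j → Disjoint (Set.range (γ i)) (Set.range (γ j))) ∧
        (∀ i, μH[1] (Set.range (γ i)) < ⊤) ∧
        frontier Ω = ⋃ i, Set.range (γ i) := by
    have hr : range (fun ζ : Circle => φ (ζ:ℂ)) = frontier Ω := by
      rw [hfront]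
      ext w
      constructor
      · rintro ⟨ζ, rfl⟩
        exact ⟨ζ, by rw [mem_sphere_zero_iff_norm, Circle.norm_coe], rfl⟩
      · rintro ⟨z, hz, rfl⟩
        exact ⟨⟨z, hz⟩, rfl⟩
    refine ⟨1, fun _ ζ => φ (ζ:ℂ), ?_, ?_, ?_, ?_, ?_⟩
    · intro _
      exact hφc.comp_continuous continuous_subtype_val (fun ζ => by
        rw [mem_closedBall_zero_iff, Circle.norm_coe])
    · intro _ ζ₁ ζ₂ h
      have := hinj (by rw [mem_closedBall_zero_iff, Circle.norm_coe])
        (by rw [mem_closedBall_zero_iff, Circle.norm_coe]) h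
      exact Circle.ext this
    · intro i j hij
      exact absurd (Subsingleton.elim i j) hij
    · intro _
      rw [hr, hΓ]
      exact (hausdorff_arc_le hvii hFTC le_rfl (by positivity) le_rfl).trans_lt
        ENNReal.ofReal_lt_top
    · rw [iUnion_const, hr]
  -- the quadrature identity
  have hident : ∀ f : ℂ → ℂ, DifferentiableOn ℂ f Ω → ContinuousOn f (closure Ω) →
      ∫ z in Ω, (f z).re = ∫ z in frontier Ω, (f z).re ∂μH[1] := by
    intro f hfd hfc
    have hg : DiffContOnCl ℂ (fun z => f (φ z)) (ball 0 1) := by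
      constructor
      · exact hfd.comp (fun z hz => (hφd z hz).differentiableAt.differentiableWithinAt)
          (fun z hz => mem_image_of_mem φ hz)
      · rw [closure_ball (0:ℂ) one_ne_zero]
        exact hfc.comp hφc (fun z hz => by rw [hclos]; exact mem_image_of_mem φ hz)
    have hgc : ContinuousOn (fun z => f (φ z)) (closedBall 0 1) := by
      have := hg.continuousOn
      rwa [closure_ball (0:ℂ) one_ne_zero] at this
    obtain ⟨Cg, hCg⟩ := (isCompact_closedBall (0:ℂ) 1).exists_bound_of_continuousOn hgc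
    have hq := hquad _ hg
    -- left side
    have hL : ∫ z in Ω, (f z).re = ∫ z in ball (0:ℂ) 1, ‖F z‖ ^ 2 * (f (φ z)).re := by
      have hder : ∀ z ∈ ball (0:ℂ) 1, HasFDerivWithinAt φ
          ((ContinuousLinearMap.toSpanSingleton ℂ (F z)).restrictScalars ℝ) (ball 0 1) z := by
        intro z hz
        exact ((hφd z hz).hasFDerivAt.restrictScalars ℝ).hasFDerivWithinAt
      have := integral_image_eq_integral_abs_det_fderiv_smul volume measurableSet_ball hder
        (hinj.mono ball_subset_closedBall) (fun z => (f z).re)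
      rw [hΩ, this]
      apply setIntegral_congr_fun measurableSet_ball
      intro z _
      simp only
      have hdet : ((ContinuousLinearMap.toSpanSingleton ℂ (F z)).restrictScalars ℝ).det =
          ‖F z‖ ^ 2 := by
        rw [← Complex.normSq_eq_norm_sq, ← Algebra.norm_complex_apply, Algebra.norm_apply]
        unfold ContinuousLinearMap.det
        congr 1
        ext
        simp [mul_comm]
      rw [hdet, abs_of_nonneg (by positivity), smul_eq_mul]
    -- right side
    have hR : ∫ z in frontier Ω, (f z).re ∂μH[1] =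
        ∫ θ in (0:ℝ)..2 * Real.pi, ‖u θ‖ * (f (c θ)).re := by
      have hΓclosed : IsClosed (frontier Ω) := isClosed_frontier
      have hfm : AEStronglyMeasurable (fun z => (f z).re)
          ((μH[1] : Measure ℂ).restrict (frontier Ω)) := by
        apply ContinuousOn.aestronglyMeasurable _ hΓclosed.measurableSet
        exact Complex.continuous_re.comp_continuousOn (hfc.mono frontier_subset_closure)
      rw [hΓ] at hfm ⊢
      rw [hmeas] at hfm ⊢
      rw [integral_map hcc.aemeasurable hfm,
        integral_withDensity_eq_integral_toReal_smul₀]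
      · rw [intervalIntegral.integral_of_le (by positivity)]
        congr 1
        ext θ
        rw [toReal_enorm, hvnorm, smul_eq_mul]
      · have : IntegrableOn v (Ioc 0 (2 * Real.pi)) volume := by
          rwa [intervalIntegrable_iff_integrableOn_Ioc_of_le (by positivity)] at hvii
        exact this.1.enorm
      · exact Eventually.of_forall fun θ => enorm_lt_top
    rw [hL, hR]
    have hFm : AEStronglyMeasurable F (volume.restrict (ball (0:ℂ) 1)) :=
      hFc.aestronglyMeasurable measurableSet_ball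
    have e1 : (∫ z in ball (0:ℂ) 1, f (φ z) * ((‖F z‖ ^ 2 : ℝ) : ℂ)).re =
        ∫ z in ball (0:ℂ) 1, ‖F z‖ ^ 2 * (f (φ z)).re := by
      have hI : Integrable (fun z => f (φ z) * ((‖F z‖ ^ 2 : ℝ) : ℂ))
          (volume.restrict (ball (0:ℂ) 1)) := by
        -- area of Ω is finite
        have hIF : Integrable (fun z => ((‖F z‖ ^ 2 : ℝ) : ℂ)) (volume.restrict (ball (0:ℂ) 1)) := by
          have hder : ∀ z ∈ ball (0:ℂ) 1, HasFDerivWithinAt φ
              ((ContinuousLinearMap.toSpanSingleton ℂ (F z)).restrictScalars ℝ) (ball 0 1) z := by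
            intro z hz
            exact ((hφd z hz).hasFDerivAt.restrictScalars ℝ).hasFDerivWithinAt
          have h1 := (integrableOn_image_iff_integrableOn_abs_det_fderiv_smul volume
            measurableSet_ball hder (hinj.mono ball_subset_closedBall) (fun _ => (1:ℂ))).mp ?_
          · refine h1.congr ?_
            filter_upwards [ae_restrict_mem measurableSet_ball] with z hz
            have hdet : ((ContinuousLinearMap.toSpanSingleton ℂ (F z)).restrictScalars ℝ).det =
                ‖F z‖ ^ 2 := by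
              rw [← Complex.normSq_eq_norm_sq, ← Algebra.norm_complex_apply, Algebra.norm_apply]
              unfold ContinuousLinearMap.det
              congr 1
              ext
              simp [mul_comm]
            rw [hdet, abs_of_nonneg (by positivity)]
            simp
          · rw [← hΩ]
            exact integrableOn_const (hΩbdd.measure_lt_top.ne)
        apply Integrable.bdd_mul (c := Cg) hIF
        · exact (hgc.mono ball_subset_closedBall).aestronglyMeasurable measurableSet_ball
        · filter_upwards [ae_restrict_mem measurableSet_ball] with z hz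
          exact hCg z (ball_subset_closedBall hz)
      have h2 := Complex.reCLM.integral_comp_comm hI
      simp only [Complex.reCLM_apply] at h2
      rw [← h2]
      congr 1
      ext z
      rw [Complex.re_mul_ofReal, mul_comm]
    have e2 : (∫ θ in (0:ℝ)..2 * Real.pi, f (φ (circleMap 0 1 θ)) * ((‖u θ‖ : ℝ) : ℂ)).re =
        ∫ θ in (0:ℝ)..2 * Real.pi, ‖u θ‖ * (f (c θ)).re := by
      rw [intervalIntegral.integral_of_le (by positivity),
        intervalIntegral.integral_of_le (by positivity)]
      have hI : Integrable (fun θ => f (φ (circleMap 0 1 θ)) * ((‖u θ‖ : ℝ) : ℂ))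
          (volume.restrict (Ioc 0 (2 * Real.pi))) := by
        have hu2 : IntegrableOn u (Ioc 0 (2 * Real.pi)) volume := by
          rwa [intervalIntegrable_iff_integrableOn_Ioc_of_le (by positivity)] at hui
        apply Integrable.bdd_mul (c := Cg) hu2.norm.ofReal
        · have : Continuous (fun θ : ℝ => f (φ (circleMap 0 1 θ))) :=
            hgc.comp_continuous (continuous_circleMap 0 1) hcm_mem
          exact this.aestronglyMeasurable
        · exact Eventually.of_forall fun θ => hCg _ (hcm_mem θ)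
      have h2 := Complex.reCLM.integral_comp_comm hI
      simp only [Complex.reCLM_apply] at h2
      rw [← h2]
      congr 1
      ext θ
      rw [Complex.re_mul_ofReal, mul_comm]
    rw [← e1, ← e2, hq]
  have harea : (volume Ω).toReal = (μH[1] (frontier Ω)).toReal := by
    have := hident (fun _ => 1) (differentiableOn_const _) continuousOn_const
    simpa [Measure.real] using this
  have hidentity : ∀ f : ℂ → ℂ, DifferentiableOn ℂ f Ω → ContinuousOn f (closure Ω) →
        (volume Ω).toReal⁻¹ * ∫ z in Ω, (f z).re =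
          (μH[1] (frontier Ω)).toReal⁻¹ * ∫ z in frontier Ω, (f z).re ∂μH[1] := by
    intro f hfd hfc
    rw [harea, hident f hfd hfc]
  have hreg := H Ω hΩopen hΩconn hΩbdd hcurve hidentity
  -- lower bound for arcs
  have harc1 : ∀ x y, 0 ≤ x → x ≤ y → y ≤ 2 * Real.pi →
      ENNReal.ofReal (45 * (y - x)) ≤ μH[1] (c '' Ioc x y) := by
    intro x y hx hxy hy
    have h1 := arcMeasure_Ioc hcc hcinjOn hvii hFTC hx hxy hy
    rw [arcMeasure_apply hcc hcinjOn measurableSet_Ioc,
      inter_eq_left.mpr (Ioc_subset_Ioc hx hy)] at h1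
    rw [h1]
    apply ENNReal.ofReal_le_ofReal
    have hvi : IntervalIntegrable v volume x y := by
      apply hvii.mono_set
      rw [uIcc_of_le hxy, uIcc_of_le (by positivity)]
      exact Icc_subset_Icc hx hy
    have h2 : ∫ t in x..y, (45:ℝ) ≤ ∫ t in x..y, ‖v t‖ := by
      apply intervalIntegral.integral_mono_ae_restrict hxy (by simp) hvi.norm
      have h3 : ∀ᵐ θ ∂(volume.restrict (Icc x y)), 45 ≤ ‖u θ‖ := by
        rw [← restrict_Ioc_eq_restrict_Icc]
        exact ae_mono (Measure.restrict_mono (Ioc_subset_Ioc hx hy) le_rfl) hu45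
      filter_upwards [h3] with θ hθ
      rw [hvnorm]
      exact hθ
    rw [intervalIntegral.integral_const, smul_eq_mul] at h2
    linarith
  have harc2 : ∀ x y, -Real.pi < x → x < 0 → 0 < y → y < Real.pi →
      ENNReal.ofReal (45 * (y - x)) ≤ μH[1] (c '' Icc x y) := by
    intro x y hx hx0 hy0 hy
    have h1 := harc1 0 y le_rfl hy0.le (by linarith)
    have h2 := harc1 (x + 2 * Real.pi) (2 * Real.pi) (by linarith) (by linarith) le_rfl
    have hsub : c '' Ioc 0 y ∪ c '' Ioc (x + 2 * Real.pi) (2 * Real.pi) ⊆ c '' Icc x y := by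
      apply union_subset
      · exact image_mono (fun t ht => ⟨by linarith [ht.1], ht.2⟩)
      · rintro _ ⟨t, ht, rfl⟩
        refine ⟨t - 2 * Real.pi, ⟨by linarith [ht.1], by linarith [ht.2]⟩, ?_⟩
        exact hcper.sub_eq t
    have hdisj : Disjoint (c '' Ioc 0 y) (c '' Ioc (x + 2 * Real.pi) (2 * Real.pi)) := by
      rw [disjoint_left]
      rintro _ ⟨s, hs, rfl⟩ ⟨t, ht, he⟩
      have := hcinjOn (⟨by linarith [ht.1], ht.2⟩ : t ∈ Ioc 0 (2 * Real.pi))
        (⟨hs.1, by linarith [hs.2]⟩ : s ∈ Ioc 0 (2 * Real.pi)) he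
      linarith [ht.1, hs.2]
    have hmeas2 : MeasurableSet (c '' Ioc (x + 2 * Real.pi) (2 * Real.pi)) := by
      apply measurableSet_Ioc.image_of_continuousOn_injOn hcc.continuousOn
      exact hcinjOn.mono (Ioc_subset_Ioc (by linarith) le_rfl)
    calc ENNReal.ofReal (45 * (y - x)) =
        ENNReal.ofReal (45 * (y - 0)) + ENNReal.ofReal (45 * (2 * Real.pi - (x + 2 * Real.pi))) := by
          rw [← ENNReal.ofReal_add (by nlinarith) (by nlinarith)]
          congr 1
          ring
      _ ≤ μH[1] (c '' Ioc 0 y) + μH[1] (c '' Ioc (x + 2 * Real.pi) (2 * Real.pi)) :=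
          add_le_add h1 h2
      _ = μH[1] (c '' Ioc 0 y ∪ c '' Ioc (x + 2 * Real.pi) (2 * Real.pi)) :=
          (measure_union hdisj hmeas2).symm
      _ ≤ _ := measure_mono hsub
  have harc : ∀ θ α, 0 ≤ θ → θ ≤ 2 * Real.pi → 0 < α → α < Real.pi / 2 →
      ENNReal.ofReal (90 * α) ≤ μH[1] (c '' Icc (θ - α) (θ + α)) := by
    intro θ α h0 h2 hα hα2
    have he : 90 * α = 45 * ((θ + α) - (θ - α)) := by ring
    rcases lt_or_ge (θ - α) 0 with h | h
    · rw [he]
      exact harc2 _ _ (by linarith) h (by linarith) (by linarith)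
    · rcases lt_or_ge (2 * Real.pi) (θ + α) with h' | h'
      · have h3 := harc2 (θ - α - 2 * Real.pi) (θ + α - 2 * Real.pi) (by linarith) (by linarith)
          (by linarith) (by linarith)
        have h4 : c '' Icc (θ - α - 2 * Real.pi) (θ + α - 2 * Real.pi) ⊆
            c '' Icc (θ - α) (θ + α) := by
          rintro _ ⟨t, ht, rfl⟩
          exact ⟨t + 2 * Real.pi, ⟨by linarith [ht.1], by linarith [ht.2]⟩, hcper t⟩
        have h5 : 90 * α = 45 * ((θ + α - 2 * Real.pi) - (θ - α - 2 * Real.pi)) := by ring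
        rw [h5]
        exact h3.trans (measure_mono h4)
      · rw [he]
        exact (harc1 _ _ h (by linarith) h').trans (measure_mono (image_mono Ioc_subset_Icc_self))
  -- points where the derivative is small
  have hsmall : ∀ r : ℝ, 0 < r → r < 1 → ∃ θ ∈ Icc (0:ℝ) (2 * Real.pi), ‖F (circleMap 0 r θ)‖ ≤ 10 := by
    intro r hr hr1
    have hcb : closedBall (0:ℂ) r ⊆ ball 0 1 := closedBall_subset_ball hr1
    have hdc : DiffContOnCl ℂ (fun z => (F z)⁻¹) (ball 0 r) := by
      apply DifferentiableOn.diffContOnCl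
      rw [closure_ball (0:ℂ) hr.ne']
      intro z hz
      exact ((hFd z (hcb hz)).mono hcb).inv (hF0 z (hcb hz))
    obtain ⟨z, hz, hmax⟩ := Complex.exists_mem_frontier_isMaxOn_norm (isBounded_ball)
      (⟨0, by simpa using hr⟩ : (ball (0:ℂ) r).Nonempty) hdc
    rw [frontier_ball (0:ℂ) hr.ne'] at hz
    have h0 := hmax (show (0:ℂ) ∈ closure (ball 0 r) from subset_closure (by simpa using hr))
    simp only [Function.comp, mem_ofPred_eq] at h0
    rw [hF10, norm_inv, norm_inv] at h0
    have hFz : 0 < ‖F z‖ := norm_pos_iff.mpr (hF0 z (hcb (sphere_subset_closedBall hz)))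
    have h10 : ‖(10:ℂ)‖ = 10 := by simp
    rw [h10, inv_le_inv₀ (by norm_num) hFz] at h0
    have hzr : z ∈ circleMap 0 r '' Ioc 0 (2 * Real.pi) := by
      rw [image_circleMap_Ioc]
      simpa [abs_of_pos hr] using hz
    obtain ⟨θ, hθ, rfl⟩ := hzr
    exact ⟨θ, ⟨hθ.1.le, hθ.2⟩, h0⟩
  -- a sequence of bad points
  set α : ℕ → ℝ := fun n => 1 / ((n:ℝ) + 2) with hα
  have hαpos : ∀ n, 0 < α n := fun n => by simp only [hα]; positivity
  have hαle : ∀ n, α n ≤ 1/2 := fun n => by
    simp only [hα]
    apply one_div_le_one_div_of_le (by norm_num)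
    have : (0:ℝ) ≤ n := Nat.cast_nonneg n
    linarith
  have hα2 : ∀ n, α n < Real.pi / 2 := fun n => by
    have := hαle n
    have := Real.pi_gt_three
    linarith
  have hαlim : Tendsto α atTop (𝓝 0) := by
    have h1 := tendsto_one_div_add_atTop_nhds_zero_nat (𝕜 := ℝ)
    have h2 := h1.comp (tendsto_add_atTop_nat 1)
    refine h2.congr ?_
    intro n
    simp only [Function.comp, hα]
    push_cast
    ring_nf
  have hrn : ∀ n, 0 < (1 - Real.sin (α n)) * Real.cos (α n) ∧
      (1 - Real.sin (α n)) * Real.cos (α n) < 1 := by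
    intro n
    have hs : 0 < Real.sin (α n) := Real.sin_pos_of_pos_of_lt_pi (hαpos n) (by linarith [hα2 n])
    have hs1 : Real.sin (α n) < 1 := by
      have := Real.sin_lt (hαpos n)
      linarith [hαle n]
    have hcs : 0 < Real.cos (α n) := Real.cos_pos_of_mem_Ioo ⟨by linarith [hαpos n], hα2 n⟩
    have hc1 : Real.cos (α n) ≤ 1 := Real.cos_le_one _
    constructor
    · exact mul_pos (by linarith) hcs
    · nlinarith
  choose θ hθmem hθF using fun n => hsmall _ (hrn n).1 (hrn n).2
  obtain ⟨θ₀, hθ₀, ψ, hψ, hlim⟩ := (isCompact_Icc (a := (0:ℝ)) (b := 2 * Real.pi)).tendsto_subseq hθmem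
  have hp : c θ₀ ∈ frontier Ω := by rw [hfront, ← hrange]; exact mem_range_self _
  obtain ⟨U, hU, hpU, a, b, g, hab, hg, hginj, hgd, hgU⟩ := hreg (c θ₀) hp
  have hfr : frontier Ω = range c := by rw [hfront, hrange]
  rw [hfr] at hgU
  obtain ⟨δ, hδ, hchord⟩ := local_chord_arc hcc hcper hcinj hpU hg hginj hgd hgU
  have ev1 : ∀ᶠ n in atTop, |θ (ψ n) - θ₀| < δ / 2 := by
    have := (Metric.tendsto_nhds.mp hlim) (δ / 2) (by positivity)
    simpa [Real.dist_eq] using this
  have ev2 : ∀ᶠ n in atTop, α (ψ n) < δ / 2 :=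
    (hαlim.comp hψ.tendsto_atTop).eventually (gt_mem_nhds (by positivity))
  obtain ⟨n, h1, h2⟩ := (ev1.and ev2).exists
  set t := θ (ψ n)
  set β := α (ψ n) with hβ
  have hβpos : 0 < β := hαpos _
  have h1' := abs_lt.mp h1
  have hcx := hchord (t - β) (t + β) (by rw [abs_lt]; constructor <;> linarith [h1'.1, h1'.2])
    (by rw [abs_lt]; constructor <;> linarith [h1'.1, h1'.2]) (by linarith)
  have hlow := harc t β (hθmem _).1 (hθmem _).2 hβpos (hα2 _)
  obtain ⟨hm1, hm2⟩ := midpt_circle (θ := t) hβpos (hα2 _)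
  have hsin : 0 < Real.sin β := Real.sin_pos_of_pos_of_lt_pi hβpos (by linarith [hα2 (ψ n)])
  have hne : circleMap 0 1 (t - β) ≠ circleMap 0 1 (t + β) := by
    intro h
    rw [h, sub_self, norm_zero] at hm1
    linarith
  have hest := htp _ (hcm_mem (t - β)) _ (hcm_mem (t + β)) hne
  rw [hm1, hm2] at hest
  have hFsmall := hθF (ψ n)
  have hup : ‖c (t - β) - c (t + β)‖ ≤ 30 * Real.sin β := by
    set A := (circleMap 0 1 (t - β) - circleMap 0 1 (t + β)) *
      F (circleMap 0 ((1 - Real.sin β) * Real.cos β) t) with hA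
    have hAn : ‖A‖ ≤ 20 * Real.sin β := by
      rw [hA, norm_mul, hm1]
      nlinarith
    have h5 : ‖c (t - β) - c (t + β)‖ ≤ ‖φ (circleMap 0 1 (t - β)) - φ (circleMap 0 1 (t + β)) - A‖ +
        ‖A‖ := by
      have := norm_add_le (φ (circleMap 0 1 (t - β)) - φ (circleMap 0 1 (t + β)) - A) A
      simpa using this
    have h6 : 1/2 * (2 * Real.sin β * ‖F (circleMap 0 ((1 - Real.sin β) * Real.cos β) t)‖) ≤
        10 * Real.sin β := by nlinarith
    linarith
  have hsinle : Real.sin β ≤ β := Real.sin_le hβpos.le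
  have hfin := hlow.trans hcx
  have h7 : (0:ℝ) < 90 * β := by positivity
  rw [ENNReal.ofReal_le_ofReal_iff' ] at hfin
  rcases hfin with h | h
  · nlinarith
  · linarith

end Pool.Agent.Work.MP_9159b8_an
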