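import Mathlib
import Pool.Agent.Work.MP_9159b8_an.Final

/-!
# The counterexample, own statement: existence of the domain, not locally `C¹`
-/

set_option autoImplicit false

namespace Pool.Agent.Work.MP_9159b8_an

open Set Metric MeasureTheory ComplexConjugate Filter Topology
open scoped ENNReal

/-- If a closed curve coincides near a point with a regular `C¹` arc then arcs are at most twice
as long as their chords near this point. -/
lemma local_chord_arc_C1 {c : ℝ → ℂ} (hcc : Continuous c) (hper : Function.Periodic c (2 * Real.pi))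
    (hinj : ∀ x y, |x - y| < 2 * Real.pi → c x = c y → x = y) {U : Set ℂ} 
    {θ₀ : ℝ} (h0 : c θ₀ ∈ U) {a b : ℝ} {g : ℝ → ℂ} (hg : ContDiffOn ℝ 1 g (Ioo a b))
    (hginj : InjOn g (Ioo a b)) (hg' : ∀ t ∈ Ioo a b, deriv g t ≠ 0)
    (hΓ : range c ∩ U = g '' Ioo a b) :
    ∃ δ > 0, ∀ x y, |x - θ₀| < δ → |y - θ₀| < δ → x ≤ y →
      μH[1] (c '' Icc x y) ≤ ENNReal.ofReal (2 * ‖c x - c y‖) := by
  have hpi := Real.pi_pos
  have h1 : c θ₀ ∈ g '' Ioo a b := by rw [← hΓ]; exact ⟨mem_range_self _, h0⟩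
  obtain ⟨t₀, ht₀, hgt₀⟩ := h1
  have hstrict : HasStrictDerivAt g (deriv g t₀) t₀ :=
    ((hg.contDiffAt (Ioo_mem_nhds ht₀.1 ht₀.2)).hasStrictDerivAt one_ne_zero)
  set D : ℝ := ‖deriv g t₀‖ with hD
  have hDpos : 0 < D := norm_pos_iff.mpr (hg' t₀ ht₀)
  -- bi-Lipschitz near t₀
  have hbl : ∃ η > 0, ∀ s t, |s - t₀| ≤ η → |t - t₀| ≤ η →
      ‖g s - g t - (s - t) • deriv g t₀‖ ≤ (D / 3) * |s - t| := by
    have h2 := hstrict.hasStrictFDerivAt.isLittleO.def (by positivity : (0:ℝ) < D / 3)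
    rw [Metric.eventually_nhds_iff] at h2
    obtain ⟨η, hη, h3⟩ := h2
    refine ⟨η / 2, by positivity, ?_⟩
    intro s t hs ht
    have h4 : dist ((s, t) : ℝ × ℝ) (t₀, t₀) < η := by
      rw [Prod.dist_eq, Real.dist_eq, Real.dist_eq]
      simp only [max_lt_iff]
      constructor <;> linarith
    have h5 := h3 h4
    simpa using h5
  obtain ⟨η₁, hη₁, hbl⟩ := hbl
  -- compact sets
  set I₁ : Set ℝ := Icc (θ₀ - Real.pi / 2) (θ₀ + Real.pi / 2) with hI₁
  set K : Set ℝ := Icc (θ₀ - Real.pi) (θ₀ - Real.pi / 2) ∪ Icc (θ₀ + Real.pi / 2) (θ₀ + Real.pi)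
    with hK
  have hcK : IsCompact (c '' K) := (isCompact_Icc.union isCompact_Icc).image hcc
  have hnot : c θ₀ ∉ c '' K := by
    rintro ⟨x, hx, hxe⟩
    rcases hx with hx | hx
    · have := hinj x θ₀ (by rw [abs_lt]; constructor <;> linarith [hx.1, hx.2]) hxe
      linarith [hx.2]
    · have := hinj x θ₀ (by rw [abs_lt]; constructor <;> linarith [hx.1, hx.2]) hxe
      linarith [hx.1]
  have hV : (c '' K)ᶜ ∈ 𝓝 (g t₀) := by
    rw [hgt₀]; exact hcK.isClosed.isOpen_compl.mem_nhds hnot
  have hgcont : ContinuousAt g t₀ := hstrict.hasDerivAt.continuousAt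
  have hev : ∀ᶠ t in 𝓝 t₀, g t ∈ (c '' K)ᶜ ∧ t ∈ Ioo a b :=
    (hgcont.eventually hV).and (Ioo_mem_nhds ht₀.1 ht₀.2)
  rw [Metric.eventually_nhds_iff] at hev
  obtain ⟨η₂, hη₂, hev⟩ := hev
  set η : ℝ := min η₁ (η₂ / 2) with hη
  have hηpos : 0 < η := lt_min hη₁ (by positivity)
  set J : Set ℝ := Icc (t₀ - η) (t₀ + η) with hJ
  have hJprop : ∀ t ∈ J, |t - t₀| ≤ η₁ ∧ g t ∈ (c '' K)ᶜ ∧ t ∈ Ioo a b := by
    intro t ht
    have h6 : |t - t₀| ≤ η := by rw [abs_le]; constructor <;> linarith [ht.1, ht.2]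
    refine ⟨h6.trans (min_le_left _ _), ?_⟩
    apply hev
    rw [Real.dist_eq]
    have : η ≤ η₂ / 2 := min_le_right _ _
    linarith
  have hmemI : ∀ t ∈ J, g t ∈ c '' I₁ := by
    intro t ht
    obtain ⟨-, h7, h8⟩ := hJprop t ht
    have h9 : g t ∈ range c := by
      have : g t ∈ range c ∩ U := by rw [hΓ]; exact mem_image_of_mem g h8
      exact this.1
    obtain ⟨x, hx⟩ := h9
    obtain ⟨y, hy, hxy⟩ := hper.exists_mem_Ico (by positivity) x (θ₀ - Real.pi)
    have hy2 : y < θ₀ + Real.pi := by linarith [hy.2]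
    refine ⟨y, ?_, by rw [← hxy, hx]⟩
    by_contra hcon
    apply h7
    refine ⟨y, ?_, by rw [← hxy, hx]⟩
    rw [hI₁, mem_Icc, not_and_or, not_le, not_le] at hcon
    rcases hcon with h | h
    · exact Or.inl ⟨hy.1, h.le⟩
    · exact Or.inr ⟨h.le, hy2.le⟩
  have hinjI : InjOn c I₁ := by
    intro x hx y hy hxy
    apply hinj x y _ hxy
    rw [abs_lt]; constructor <;> linarith [hx.1, hx.2, hy.1, hy.2]
  set ψ : ℝ → ℝ := Function.invFunOn c I₁ ∘ g with hψ
  have hψmem : ∀ t ∈ J, ψ t ∈ I₁ := fun t ht => Function.invFunOn_mem (hmemI t ht)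
  have hψc : ∀ t ∈ J, c (ψ t) = g t := fun t ht => Function.invFunOn_eq (hmemI t ht)
  have hgJ : ContinuousOn g J := fun t ht =>
    ((hg.contDiffAt (Ioo_mem_nhds (hJprop t ht).2.2.1 (hJprop t ht).2.2.2)).continuousAt).continuousWithinAt
  have hψcont : ContinuousOn ψ J :=
    (continuousOn_invFunOn_of_isCompact isCompact_Icc hcc.continuousOn hinjI).comp hgJ
      (fun t ht => hmemI t ht)
  have hψinj : InjOn ψ J := by
    intro s hs t ht hst
    apply hginj (hJprop s hs).2.2 (hJprop t ht).2.2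
    rw [← hψc s hs, ← hψc t ht, hst]
  have ht₀J : t₀ ∈ J := ⟨by linarith, by linarith⟩
  have hlJ : t₀ - η ∈ J := ⟨le_rfl, by linarith⟩
  have hrJ : t₀ + η ∈ J := ⟨by linarith, le_rfl⟩
  have hψt₀ : ψ t₀ = θ₀ := by
    apply hinjI (hψmem t₀ ht₀J) ⟨by linarith, by linarith⟩
    rw [hψc t₀ ht₀J, hgt₀]
  have hle : t₀ - η ≤ t₀ + η := by linarith
  have hmono := ContinuousOn.strictMonoOn_of_injOn_Icc' hle hψcont hψinj
  set δ : ℝ := min |ψ (t₀ - η) - θ₀| |ψ (t₀ + η) - θ₀| with hδ
  have hsurj : 0 < δ ∧ ∀ x, |x - θ₀| < δ → ∃ t ∈ J, ψ t = x := by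
    rcases hmono with hm | hm
    · have e1 : ψ (t₀ - η) < θ₀ := by rw [← hψt₀]; exact hm hlJ ht₀J (by linarith)
      have e2 : θ₀ < ψ (t₀ + η) := by rw [← hψt₀]; exact hm ht₀J hrJ (by linarith)
      refine ⟨lt_min (abs_pos.mpr (by linarith)) (abs_pos.mpr (by linarith)), ?_⟩
      intro x hx
      have e3 : |x - θ₀| < θ₀ - ψ (t₀ - η) := by
        have := hx.trans_le (min_le_left _ _)
        rwa [abs_of_neg (by linarith : ψ (t₀ - η) - θ₀ < 0), neg_sub] at this
      have e4 : |x - θ₀| < ψ (t₀ + η) - θ₀ := by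
        have := hx.trans_le (min_le_right _ _)
        rwa [abs_of_pos (by linarith : 0 < ψ (t₀ + η) - θ₀)] at this
      rw [abs_lt] at e3 e4
      have := intermediate_value_Icc hle hψcont
      obtain ⟨t, ht, hte⟩ := this ⟨by linarith [e3.1] , by linarith [e4.2]⟩
      exact ⟨t, ht, hte⟩
    · have e1 : θ₀ < ψ (t₀ - η) := by rw [← hψt₀]; exact hm hlJ ht₀J (by linarith)
      have e2 : ψ (t₀ + η) < θ₀ := by rw [← hψt₀]; exact hm ht₀J hrJ (by linarith)
      refine ⟨lt_min (abs_pos.mpr (by linarith)) (abs_pos.mpr (by linarith)), ?_⟩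
      intro x hx
      have e3 : |x - θ₀| < ψ (t₀ - η) - θ₀ := by
        have := hx.trans_le (min_le_left _ _)
        rwa [abs_of_pos (by linarith : 0 < ψ (t₀ - η) - θ₀)] at this
      have e4 : |x - θ₀| < θ₀ - ψ (t₀ + η) := by
        have := hx.trans_le (min_le_right _ _)
        rwa [abs_of_neg (by linarith : ψ (t₀ + η) - θ₀ < 0), neg_sub] at this
      rw [abs_lt] at e3 e4
      have := intermediate_value_Icc' hle hψcont
      obtain ⟨t, ht, hte⟩ := this ⟨by linarith [e4.1] , by linarith [e3.2]⟩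
      exact ⟨t, ht, hte⟩
  refine ⟨δ, hsurj.1, ?_⟩
  intro x y hx hy hxy
  obtain ⟨s, hs, hsx⟩ := hsurj.2 x hx
  obtain ⟨t, ht, hty⟩ := hsurj.2 y hy
  have hsubJ : uIcc s t ⊆ J := by
    rw [hJ] at hs ht ⊢
    exact uIcc_subset_Icc hs ht
  have hsub : c '' Icc x y ⊆ g '' uIcc s t := by
    rintro _ ⟨z, hz, rfl⟩
    have := intermediate_value_uIcc (hψcont.mono hsubJ)
    rw [hsx, hty, uIcc_of_le hxy] at this
    obtain ⟨r, hr, hrz⟩ := this hz
    exact ⟨r, hr, by rw [← hrz, hψc r (hsubJ hr)]⟩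
  have hLip : LipschitzOnWith (Real.toNNReal (4 / 3 * D)) g (uIcc s t) := by
    apply LipschitzOnWith.of_dist_le_mul
    intro p hp q hq
    have h10 := hbl p q (hJprop p (hsubJ hp)).1 (hJprop q (hsubJ hq)).1
    rw [Real.coe_toNNReal _ (by positivity), dist_eq_norm, Real.dist_eq]
    have h11 : ‖g p - g q‖ ≤ ‖g p - g q - (p - q) • deriv g t₀‖ + ‖(p - q) • deriv g t₀‖ := by
      simpa using norm_add_le (g p - g q - (p - q) • deriv g t₀) ((p - q) • deriv g t₀)
    rw [norm_smul, Real.norm_eq_abs] at h11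
    rw [← hD] at h11
    linarith
  have hlow : (2 / 3 * D) * |s - t| ≤ ‖g s - g t‖ := by
    have h10 := hbl s t (hJprop s hs).1 (hJprop t ht).1
    have h11 : ‖(s - t) • deriv g t₀‖ ≤ ‖g s - g t‖ + ‖g s - g t - (s - t) • deriv g t₀‖ := by
      have := norm_sub_le (g s - g t) (g s - g t - (s - t) • deriv g t₀)
      simpa using this
    rw [norm_smul, Real.norm_eq_abs] at h11
    rw [← hD] at h11
    linarith
  calc μH[1] (c '' Icc x y) ≤ μH[1] (g '' uIcc s t) := measure_mono hsub
    _ ≤ ((Real.toNNReal (4 / 3 * D) : NNReal) : ℝ≥0∞) ^ (1:ℝ) * μH[1] (uIcc s t) :=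
        hLip.hausdorffMeasure_image_le zero_le_one
    _ = ENNReal.ofReal (4 / 3 * D) * ENNReal.ofReal (|t - s|) := by
        rw [hausdorffMeasure_real, Real.volume_interval, ENNReal.rpow_one]
        rfl
    _ = ENNReal.ofReal ((4 / 3 * D) * |t - s|) := (ENNReal.ofReal_mul (by positivity)).symm
    _ ≤ ENNReal.ofReal (2 * ‖c x - c y‖) := by
        apply ENNReal.ofReal_le_ofReal
        rw [← hsx, ← hty, hψc s hs, hψc t ht, abs_sub_comm]
        linarith


/-- A Riemann map with continuous injective extension whose image satisfies the quadrature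
identity, has a rectifiable boundary, equal area and boundary length, and is not locally `C¹`. -/
theorem exists_domain : ∃ (φ : ℂ → ℂ) (Ω : Set ℂ), ContinuousOn φ (closedBall 0 1) ∧
    InjOn φ (closedBall 0 1) ∧ DifferentiableOn ℂ φ (ball 0 1) ∧ Ω = φ '' ball 0 1 ∧
    IsOpen Ω ∧ IsConnected Ω ∧ Bornology.IsBounded Ω ∧
    frontier Ω = φ '' sphere 0 1 ∧ μH[1] (frontier Ω) < ⊤ ∧
    volume Ω = μH[1] (frontier Ω) ∧
    (∀ f : ℂ → ℂ, DifferentiableOn ℂ f Ω → ContinuousOn f (closure Ω) →
      ∫ z in Ω, (f z).re = ∫ z in frontier Ω, (f z).re ∂μH[1]) ∧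
    ∃ p ∈ frontier Ω, ∀ U : Set ℂ, IsOpen U → p ∈ U →
      ¬ ∃ (a b : ℝ) (g : ℝ → ℂ), a < b ∧ ContDiffOn ℝ 1 g (Ioo a b) ∧ InjOn g (Ioo a b) ∧
        (∀ t ∈ Ioo a b, deriv g t ≠ 0) ∧ frontier Ω ∩ U = g '' Ioo a b := by
  have hpi := Real.pi_pos
  obtain ⟨φ, F, u, hφc, hφd, hF0, hF10, hFc, hFd, htp, hui, hFTC, hu45, hquad⟩ := exists_limit
  -- injectivity
  have hmid : ∀ z₁ ∈ closedBall (0:ℂ) 1, ∀ z₂ ∈ closedBall (0:ℂ) 1, z₁ ≠ z₂ →
      midpt z₁ z₂ ∈ ball (0:ℂ) 1 := by
    intro z₁ h₁ z₂ h₂ hne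
    rw [mem_ball_zero_iff]
    have := norm_midpt_le (z₁ := z₁) (z₂ := z₂) (by simpa using h₁) (by simpa using h₂)
    have hd : 0 < ‖z₁ - z₂‖ := norm_pos_iff.mpr (sub_ne_zero.mpr hne)
    linarith
  have hinj : InjOn φ (closedBall 0 1) := by
    intro z₁ h₁ z₂ h₂ heq
    by_contra hne
    have h := htp z₁ h₁ z₂ h₂ hne
    have hm := hF0 _ (hmid z₁ h₁ z₂ h₂ hne)
    have hd : 0 < ‖z₁ - z₂‖ := norm_pos_iff.mpr (sub_ne_zero.mpr hne)
    have hFm : 0 < ‖F (midpt z₁ z₂)‖ := norm_pos_iff.mpr hm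
    rw [heq, sub_self, zero_sub, norm_neg, norm_mul] at h
    nlinarith [mul_pos hd hFm]
  have hsph : sphere (0:ℂ) 1 ⊆ closedBall 0 1 := sphere_subset_closedBall
  set Ω : Set ℂ := φ '' ball 0 1 with hΩ
  have hΩopen : IsOpen Ω := by
    rw [isOpen_iff_mem_nhds]
    rintro _ ⟨z, hz, rfl⟩
    have hd : DifferentiableOn ℂ φ (ball 0 1) := fun w hw =>
      (hφd w hw).differentiableAt.differentiableWithinAt
    have hA : AnalyticAt ℂ φ z := hd.analyticAt (isOpen_ball.mem_nhds hz)
    have hs : HasStrictDerivAt φ (F z) z := by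
      have := hA.hasStrictDerivAt
      rwa [(hφd z hz).deriv] at this
    rw [← hs.map_nhds_eq (hF0 z hz)]
    exact image_mem_map (isOpen_ball.mem_nhds hz)
  have hΩconn : IsConnected Ω := by
    have : IsConnected (ball (0:ℂ) 1) :=
      ⟨⟨0, by simp⟩, (convex_ball (0:ℂ) 1).isPreconnected⟩
    exact this.image φ (hφc.mono ball_subset_closedBall)
  have hcpt : IsCompact (φ '' closedBall 0 1) := (isCompact_closedBall _ _).image_of_continuousOn hφc
  have hΩbdd : Bornology.IsBounded Ω :=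
    hcpt.isBounded.subset (image_mono ball_subset_closedBall)
  have hclos : closure Ω = φ '' closedBall 0 1 := by
    apply Subset.antisymm
    · exact closure_minimal (image_mono ball_subset_closedBall) hcpt.isClosed
    · have h := ContinuousOn.image_closure (f := φ) (s := ball (0:ℂ) 1)
        (by rw [closure_ball (0:ℂ) one_ne_zero]; exact hφc)
      rwa [closure_ball (0:ℂ) one_ne_zero] at h
  have hfront : frontier Ω = φ '' sphere 0 1 := by
    rw [hΩopen.frontier_eq, hclos, hΩ, ← hinj.image_sdiff_subset ball_subset_closedBall]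
    congr 1
    exact closedBall_sdiff_ball
  -- the boundary curve
  set c : ℝ → ℂ := fun θ => φ (circleMap 0 1 θ) with hc
  set v : ℝ → ℂ := fun θ => circleMap 0 1 θ * Complex.I * u θ with hv
  have hcm_mem : ∀ θ : ℝ, circleMap 0 1 θ ∈ closedBall (0:ℂ) 1 := fun θ => by
    rw [mem_closedBall_zero_iff, cm_norm]
  have hcc : Continuous c := hφc.comp_continuous (continuous_circleMap 0 1) hcm_mem
  have hcper : Function.Periodic c (2 * Real.pi) := by
    intro θ
    simp only [hc]
    rw [periodic_circleMap]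
  have hcinj : ∀ x y, |x - y| < 2 * Real.pi → c x = c y → x = y := by
    intro x y hxy he
    have h1 : circleMap 0 1 x = circleMap 0 1 y := hinj (hcm_mem x) (hcm_mem y) he
    exact eq_of_circleMap_eq one_ne_zero hxy h1
  have hcinjOn : InjOn c (Ioc 0 (2 * Real.pi)) := by
    intro x hx y hy he
    apply hcinj x y _ he
    rw [abs_lt]
    constructor <;> linarith [hx.1, hx.2, hy.1, hy.2]
  have hvnorm : ∀ θ, ‖v θ‖ = ‖u θ‖ := by
    intro θ
    simp only [hv]
    rw [norm_mul, norm_mul, cm_norm]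
    simp
  have hvii : IntervalIntegrable v volume 0 (2 * Real.pi) := by
    apply IntervalIntegrable.continuousOn_mul hui
    exact ((continuous_circleMap 0 1).mul continuous_const).continuousOn
  have hrange : range c = φ '' sphere 0 1 := by
    ext w
    constructor
    · rintro ⟨θ, rfl⟩
      exact ⟨circleMap 0 1 θ, by rw [mem_sphere_zero_iff_norm, cm_norm], rfl⟩
    · rintro ⟨z, hz, rfl⟩
      have : z ∈ range (circleMap 0 1) := by
        rw [range_circleMap]; simpa using hz
      obtain ⟨θ, hθ⟩ := this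
      exact ⟨θ, by simp only [hc]; rw [hθ]⟩
  have himg : c '' Ioc 0 (2 * Real.pi) = range c := by
    have := hcper.image_Ioc (by positivity : (0:ℝ) < 2 * Real.pi) 0
    rwa [zero_add] at this
  have hΓ : frontier Ω = c '' Ioc 0 (2 * Real.pi) := by rw [himg, hrange, hfront]
  have hmeas := curve_measure (c := c) (v := v) (L := 2 * Real.pi) (by positivity) hcc hcinjOn hvii
    hFTC
  -- the quadrature identity
  have hident : ∀ f : ℂ → ℂ, DifferentiableOn ℂ f Ω → ContinuousOn f (closure Ω) →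
      ∫ z in Ω, (f z).re = ∫ z in frontier Ω, (f z).re ∂μH[1] := by
    intro f hfd hfc
    have hg : DiffContOnCl ℂ (fun z => f (φ z)) (ball 0 1) := by
      constructor
      · exact hfd.comp (fun z hz => (hφd z hz).differentiableAt.differentiableWithinAt)
          (fun z hz => mem_image_of_mem φ hz)
      · rw [closure_ball (0:ℂ) one_ne_zero]
        exact hfc.comp hφc (fun z hz => by rw [hclos]; exact mem_image_of_mem φ hz)
    have hgc : ContinuousOn (fun z => f (φ z)) (closedBall 0 1) := by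
      have := hg.continuousOn
      rwa [closure_ball (0:ℂ) one_ne_zero] at this
    obtain ⟨Cg, hCg⟩ := (isCompact_closedBall (0:ℂ) 1).exists_bound_of_continuousOn hgc
    have hq := hquad _ hg
    -- left side
    have hL : ∫ z in Ω, (f z).re = ∫ z in ball (0:ℂ) 1, ‖F z‖ ^ 2 * (f (φ z)).re := by
      have hder : ∀ z ∈ ball (0:ℂ) 1, HasFDerivWithinAt φ
          ((ContinuousLinearMap.toSpanSingleton ℂ (F z)).restrictScalars ℝ) (ball 0 1) z := by
        intro z hz
        exact ((hφd z hz).hasFDerivAt.restrictScalars ℝ).hasFDerivWithinAt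
      have := integral_image_eq_integral_abs_det_fderiv_smul volume measurableSet_ball hder
        (hinj.mono ball_subset_closedBall) (fun z => (f z).re)
      rw [hΩ, this]
      apply setIntegral_congr_fun measurableSet_ball
      intro z _
      simp only
      have hdet : ((ContinuousLinearMap.toSpanSingleton ℂ (F z)).restrictScalars ℝ).det =
          ‖F z‖ ^ 2 := by
        rw [← Complex.normSq_eq_norm_sq, ← Algebra.norm_complex_apply, Algebra.norm_apply]
        unfold ContinuousLinearMap.det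
        congr 1
        ext
        simp [mul_comm]
      rw [hdet, abs_of_nonneg (by positivity), smul_eq_mul]
    -- right side
    have hR : ∫ z in frontier Ω, (f z).re ∂μH[1] =
        ∫ θ in (0:ℝ)..2 * Real.pi, ‖u θ‖ * (f (c θ)).re := by
      have hΓclosed : IsClosed (frontier Ω) := isClosed_frontier
      have hfm : AEStronglyMeasurable (fun z => (f z).re)
          ((μH[1] : Measure ℂ).restrict (frontier Ω)) := by
        apply ContinuousOn.aestronglyMeasurable _ hΓclosed.measurableSet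
        exact Complex.continuous_re.comp_continuousOn (hfc.mono frontier_subset_closure)
      rw [hΓ] at hfm ⊢
      rw [hmeas] at hfm ⊢
      rw [integral_map hcc.aemeasurable hfm,
        integral_withDensity_eq_integral_toReal_smul₀]
      · rw [intervalIntegral.integral_of_le (by positivity)]
        congr 1
        ext θ
        rw [toReal_enorm, hvnorm, smul_eq_mul]
      · have : IntegrableOn v (Ioc 0 (2 * Real.pi)) volume := by
          rwa [intervalIntegrable_iff_integrableOn_Ioc_of_le (by positivity)] at hvii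
        exact this.1.enorm
      · exact Eventually.of_forall fun θ => enorm_lt_top
    rw [hL, hR]
    have hFm : AEStronglyMeasurable F (volume.restrict (ball (0:ℂ) 1)) :=
      hFc.aestronglyMeasurable measurableSet_ball
    have e1 : (∫ z in ball (0:ℂ) 1, f (φ z) * ((‖F z‖ ^ 2 : ℝ) : ℂ)).re =
        ∫ z in ball (0:ℂ) 1, ‖F z‖ ^ 2 * (f (φ z)).re := by
      have hI : Integrable (fun z => f (φ z) * ((‖F z‖ ^ 2 : ℝ) : ℂ))
          (volume.restrict (ball (0:ℂ) 1)) := by
        -- area of Ω is finite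
        have hIF : Integrable (fun z => ((‖F z‖ ^ 2 : ℝ) : ℂ)) (volume.restrict (ball (0:ℂ) 1)) := by
          have hder : ∀ z ∈ ball (0:ℂ) 1, HasFDerivWithinAt φ
              ((ContinuousLinearMap.toSpanSingleton ℂ (F z)).restrictScalars ℝ) (ball 0 1) z := by
            intro z hz
            exact ((hφd z hz).hasFDerivAt.restrictScalars ℝ).hasFDerivWithinAt
          have h1 := (integrableOn_image_iff_integrableOn_abs_det_fderiv_smul volume
            measurableSet_ball hder (hinj.mono ball_subset_closedBall) (fun _ => (1:ℂ))).mp ?_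
          · refine h1.congr ?_
            filter_upwards [ae_restrict_mem measurableSet_ball] with z hz
            have hdet : ((ContinuousLinearMap.toSpanSingleton ℂ (F z)).restrictScalars ℝ).det =
                ‖F z‖ ^ 2 := by
              rw [← Complex.normSq_eq_norm_sq, ← Algebra.norm_complex_apply, Algebra.norm_apply]
              unfold ContinuousLinearMap.det
              congr 1
              ext
              simp [mul_comm]
            rw [hdet, abs_of_nonneg (by positivity)]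
            simp
          · rw [← hΩ]
            exact integrableOn_const (hΩbdd.measure_lt_top.ne)
        apply Integrable.bdd_mul (c := Cg) hIF
        · exact (hgc.mono ball_subset_closedBall).aestronglyMeasurable measurableSet_ball
        · filter_upwards [ae_restrict_mem measurableSet_ball] with z hz
          exact hCg z (ball_subset_closedBall hz)
      have h2 := Complex.reCLM.integral_comp_comm hI
      simp only [Complex.reCLM_apply] at h2
      rw [← h2]
      congr 1
      ext z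
      rw [Complex.re_mul_ofReal, mul_comm]
    have e2 : (∫ θ in (0:ℝ)..2 * Real.pi, f (φ (circleMap 0 1 θ)) * ((‖u θ‖ : ℝ) : ℂ)).re =
        ∫ θ in (0:ℝ)..2 * Real.pi, ‖u θ‖ * (f (c θ)).re := by
      rw [intervalIntegral.integral_of_le (by positivity),
        intervalIntegral.integral_of_le (by positivity)]
      have hI : Integrable (fun θ => f (φ (circleMap 0 1 θ)) * ((‖u θ‖ : ℝ) : ℂ))
          (volume.restrict (Ioc 0 (2 * Real.pi))) := by
        have hu2 : IntegrableOn u (Ioc 0 (2 * Real.pi)) volume := by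
          rwa [intervalIntegrable_iff_integrableOn_Ioc_of_le (by positivity)] at hui
        apply Integrable.bdd_mul (c := Cg) hu2.norm.ofReal
        · have : Continuous (fun θ : ℝ => f (φ (circleMap 0 1 θ))) :=
            hgc.comp_continuous (continuous_circleMap 0 1) hcm_mem
          exact this.aestronglyMeasurable
        · exact Eventually.of_forall fun θ => hCg _ (hcm_mem θ)
      have h2 := Complex.reCLM.integral_comp_comm hI
      simp only [Complex.reCLM_apply] at h2
      rw [← h2]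
      congr 1
      ext θ
      rw [Complex.re_mul_ofReal, mul_comm]
    rw [← e1, ← e2, hq]
  have harea : (volume Ω).toReal = (μH[1] (frontier Ω)).toReal := by
    have := hident (fun _ => 1) (differentiableOn_const _) continuousOn_const
    simpa [Measure.real] using this
  have hPlt : μH[1] (frontier Ω) < ⊤ := by
    rw [hΓ]
    exact (hausdorff_arc_le hvii hFTC le_rfl (by positivity) le_rfl).trans_lt
      ENNReal.ofReal_lt_top
  have hAP : volume Ω = μH[1] (frontier Ω) := by
    rw [← ENNReal.ofReal_toReal hΩbdd.measure_lt_top.ne, harea, ENNReal.ofReal_toReal hPlt.ne]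
  -- lower bound for arcs
  have harc1 : ∀ x y, 0 ≤ x → x ≤ y → y ≤ 2 * Real.pi →
      ENNReal.ofReal (45 * (y - x)) ≤ μH[1] (c '' Ioc x y) := by
    intro x y hx hxy hy
    have h1 := arcMeasure_Ioc hcc hcinjOn hvii hFTC hx hxy hy
    rw [arcMeasure_apply hcc hcinjOn measurableSet_Ioc,
      inter_eq_left.mpr (Ioc_subset_Ioc hx hy)] at h1
    rw [h1]
    apply ENNReal.ofReal_le_ofReal
    have hvi : IntervalIntegrable v volume x y := by
      apply hvii.mono_set
      rw [uIcc_of_le hxy, uIcc_of_le (by positivity)]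
      exact Icc_subset_Icc hx hy
    have h2 : ∫ t in x..y, (45:ℝ) ≤ ∫ t in x..y, ‖v t‖ := by
      apply intervalIntegral.integral_mono_ae_restrict hxy (by simp) hvi.norm
      have h3 : ∀ᵐ θ ∂(volume.restrict (Icc x y)), 45 ≤ ‖u θ‖ := by
        rw [← restrict_Ioc_eq_restrict_Icc]
        exact ae_mono (Measure.restrict_mono (Ioc_subset_Ioc hx hy) le_rfl) hu45
      filter_upwards [h3] with θ hθ
      rw [hvnorm]
      exact hθ
    rw [intervalIntegral.integral_const, smul_eq_mul] at h2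
    linarith
  have harc2 : ∀ x y, -Real.pi < x → x < 0 → 0 < y → y < Real.pi →
      ENNReal.ofReal (45 * (y - x)) ≤ μH[1] (c '' Icc x y) := by
    intro x y hx hx0 hy0 hy
    have h1 := harc1 0 y le_rfl hy0.le (by linarith)
    have h2 := harc1 (x + 2 * Real.pi) (2 * Real.pi) (by linarith) (by linarith) le_rfl
    have hsub : c '' Ioc 0 y ∪ c '' Ioc (x + 2 * Real.pi) (2 * Real.pi) ⊆ c '' Icc x y := by
      apply union_subset
      · exact image_mono (fun t ht => ⟨by linarith [ht.1], ht.2⟩)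
      · rintro _ ⟨t, ht, rfl⟩
        refine ⟨t - 2 * Real.pi, ⟨by linarith [ht.1], by linarith [ht.2]⟩, ?_⟩
        exact hcper.sub_eq t
    have hdisj : Disjoint (c '' Ioc 0 y) (c '' Ioc (x + 2 * Real.pi) (2 * Real.pi)) := by
      rw [disjoint_left]
      rintro _ ⟨s, hs, rfl⟩ ⟨t, ht, he⟩
      have := hcinjOn (⟨by linarith [ht.1], ht.2⟩ : t ∈ Ioc 0 (2 * Real.pi))
        (⟨hs.1, by linarith [hs.2]⟩ : s ∈ Ioc 0 (2 * Real.pi)) he
      linarith [ht.1, hs.2]
    have hmeas2 : MeasurableSet (c '' Ioc (x + 2 * Real.pi) (2 * Real.pi)) := by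
      apply measurableSet_Ioc.image_of_continuousOn_injOn hcc.continuousOn
      exact hcinjOn.mono (Ioc_subset_Ioc (by linarith) le_rfl)
    calc ENNReal.ofReal (45 * (y - x)) =
        ENNReal.ofReal (45 * (y - 0)) + ENNReal.ofReal (45 * (2 * Real.pi - (x + 2 * Real.pi))) := by
          rw [← ENNReal.ofReal_add (by nlinarith) (by nlinarith)]
          congr 1
          ring
      _ ≤ μH[1] (c '' Ioc 0 y) + μH[1] (c '' Ioc (x + 2 * Real.pi) (2 * Real.pi)) :=
          add_le_add h1 h2
      _ = μH[1] (c '' Ioc 0 y ∪ c '' Ioc (x + 2 * Real.pi) (2 * Real.pi)) :=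
          (measure_union hdisj hmeas2).symm
      _ ≤ _ := measure_mono hsub
  have harc : ∀ θ α, 0 ≤ θ → θ ≤ 2 * Real.pi → 0 < α → α < Real.pi / 2 →
      ENNReal.ofReal (90 * α) ≤ μH[1] (c '' Icc (θ - α) (θ + α)) := by
    intro θ α h0 h2 hα hα2
    have he : 90 * α = 45 * ((θ + α) - (θ - α)) := by ring
    rcases lt_or_ge (θ - α) 0 with h | h
    · rw [he]
      exact harc2 _ _ (by linarith) h (by linarith) (by linarith)
    · rcases lt_or_ge (2 * Real.pi) (θ + α) with h' | h'
      · have h3 := harc2 (θ - α - 2 * Real.pi) (θ + α - 2 * Real.pi) (by linarith) (by linarith)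
          (by linarith) (by linarith)
        have h4 : c '' Icc (θ - α - 2 * Real.pi) (θ + α - 2 * Real.pi) ⊆
            c '' Icc (θ - α) (θ + α) := by
          rintro _ ⟨t, ht, rfl⟩
          exact ⟨t + 2 * Real.pi, ⟨by linarith [ht.1], by linarith [ht.2]⟩, hcper t⟩
        have h5 : 90 * α = 45 * ((θ + α - 2 * Real.pi) - (θ - α - 2 * Real.pi)) := by ring
        rw [h5]
        exact h3.trans (measure_mono h4)
      · rw [he]
        exact (harc1 _ _ h (by linarith) h').trans (measure_mono (image_mono Ioc_subset_Icc_self))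
  -- points where the derivative is small
  have hsmall : ∀ r : ℝ, 0 < r → r < 1 → ∃ θ ∈ Icc (0:ℝ) (2 * Real.pi), ‖F (circleMap 0 r θ)‖ ≤ 10 := by
    intro r hr hr1
    have hcb : closedBall (0:ℂ) r ⊆ ball 0 1 := closedBall_subset_ball hr1
    have hdc : DiffContOnCl ℂ (fun z => (F z)⁻¹) (ball 0 r) := by
      apply DifferentiableOn.diffContOnCl
      rw [closure_ball (0:ℂ) hr.ne']
      intro z hz
      exact ((hFd z (hcb hz)).mono hcb).inv (hF0 z (hcb hz))
    obtain ⟨z, hz, hmax⟩ := Complex.exists_mem_frontier_isMaxOn_norm (isBounded_ball)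
      (⟨0, by simpa using hr⟩ : (ball (0:ℂ) r).Nonempty) hdc
    rw [frontier_ball (0:ℂ) hr.ne'] at hz
    have h0 := hmax (show (0:ℂ) ∈ closure (ball 0 r) from subset_closure (by simpa using hr))
    simp only [Function.comp, mem_ofPred_eq] at h0
    rw [hF10, norm_inv, norm_inv] at h0
    have hFz : 0 < ‖F z‖ := norm_pos_iff.mpr (hF0 z (hcb (sphere_subset_closedBall hz)))
    have h10 : ‖(10:ℂ)‖ = 10 := by simp
    rw [h10, inv_le_inv₀ (by norm_num) hFz] at h0
    have hzr : z ∈ circleMap 0 r '' Ioc 0 (2 * Real.pi) := by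
      rw [image_circleMap_Ioc]
      simpa [abs_of_pos hr] using hz
    obtain ⟨θ, hθ, rfl⟩ := hzr
    exact ⟨θ, ⟨hθ.1.le, hθ.2⟩, h0⟩
  -- a sequence of bad points
  set α : ℕ → ℝ := fun n => 1 / ((n:ℝ) + 2) with hα
  have hαpos : ∀ n, 0 < α n := fun n => by simp only [hα]; positivity
  have hαle : ∀ n, α n ≤ 1/2 := fun n => by
    simp only [hα]
    apply one_div_le_one_div_of_le (by norm_num)
    have : (0:ℝ) ≤ n := Nat.cast_nonneg n
    linarith
  have hα2 : ∀ n, α n < Real.pi / 2 := fun n => by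
    have := hαle n
    have := Real.pi_gt_three
    linarith
  have hαlim : Tendsto α atTop (𝓝 0) := by
    have h1 := tendsto_one_div_add_atTop_nhds_zero_nat (𝕜 := ℝ)
    have h2 := h1.comp (tendsto_add_atTop_nat 1)
    refine h2.congr ?_
    intro n
    simp only [Function.comp, hα]
    push_cast
    ring_nf
  have hrn : ∀ n, 0 < (1 - Real.sin (α n)) * Real.cos (α n) ∧
      (1 - Real.sin (α n)) * Real.cos (α n) < 1 := by
    intro n
    have hs : 0 < Real.sin (α n) := Real.sin_pos_of_pos_of_lt_pi (hαpos n) (by linarith [hα2 n])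
    have hs1 : Real.sin (α n) < 1 := by
      have := Real.sin_lt (hαpos n)
      linarith [hαle n]
    have hcs : 0 < Real.cos (α n) := Real.cos_pos_of_mem_Ioo ⟨by linarith [hαpos n], hα2 n⟩
    have hc1 : Real.cos (α n) ≤ 1 := Real.cos_le_one _
    constructor
    · exact mul_pos (by linarith) hcs
    · nlinarith
  choose θ hθmem hθF using fun n => hsmall _ (hrn n).1 (hrn n).2
  obtain ⟨θ₀, hθ₀, ψ, hψ, hlim⟩ := (isCompact_Icc (a := (0:ℝ)) (b := 2 * Real.pi)).tendsto_subseq hθmem
  have hp : c θ₀ ∈ frontier Ω := by rw [hfront, ← hrange]; exact mem_range_self _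
  refine ⟨φ, Ω, hφc, hinj, fun z hz => (hφd z hz).differentiableAt.differentiableWithinAt, rfl,
    hΩopen, hΩconn, hΩbdd, hfront, hPlt, hAP, hident, c θ₀, hp, ?_⟩
  rintro U hU hpU ⟨a, b, g, hab, hg, hginj, hgd, hgU⟩
  have hfr : frontier Ω = range c := by rw [hfront, hrange]
  rw [hfr] at hgU
  obtain ⟨δ, hδ, hchord⟩ := local_chord_arc_C1 hcc hcper hcinj hpU hg hginj hgd hgU
  have ev1 : ∀ᶠ n in atTop, |θ (ψ n) - θ₀| < δ / 2 := by
    have := (Metric.tendsto_nhds.mp hlim) (δ / 2) (by positivity)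
    simpa [Real.dist_eq] using this
  have ev2 : ∀ᶠ n in atTop, α (ψ n) < δ / 2 :=
    (hαlim.comp hψ.tendsto_atTop).eventually (gt_mem_nhds (by positivity))
  obtain ⟨n, h1, h2⟩ := (ev1.and ev2).exists
  set t := θ (ψ n)
  set β := α (ψ n) with hβ
  have hβpos : 0 < β := hαpos _
  have h1' := abs_lt.mp h1
  have hcx := hchord (t - β) (t + β) (by rw [abs_lt]; constructor <;> linarith [h1'.1, h1'.2])
    (by rw [abs_lt]; constructor <;> linarith [h1'.1, h1'.2]) (by linarith)
  have hlow := harc t β (hθmem _).1 (hθmem _).2 hβpos (hα2 _)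
  obtain ⟨hm1, hm2⟩ := midpt_circle (θ := t) hβpos (hα2 _)
  have hsin : 0 < Real.sin β := Real.sin_pos_of_pos_of_lt_pi hβpos (by linarith [hα2 (ψ n)])
  have hne : circleMap 0 1 (t - β) ≠ circleMap 0 1 (t + β) := by
    intro h
    rw [h, sub_self, norm_zero] at hm1
    linarith
  have hest := htp _ (hcm_mem (t - β)) _ (hcm_mem (t + β)) hne
  rw [hm1, hm2] at hest
  have hFsmall := hθF (ψ n)
  have hup : ‖c (t - β) - c (t + β)‖ ≤ 30 * Real.sin β := by
    set A := (circleMap 0 1 (t - β) - circleMap 0 1 (t + β)) *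
      F (circleMap 0 ((1 - Real.sin β) * Real.cos β) t) with hA
    have hAn : ‖A‖ ≤ 20 * Real.sin β := by
      rw [hA, norm_mul, hm1]
      nlinarith
    have h5 : ‖c (t - β) - c (t + β)‖ ≤ ‖φ (circleMap 0 1 (t - β)) - φ (circleMap 0 1 (t + β)) - A‖ +
        ‖A‖ := by
      have := norm_add_le (φ (circleMap 0 1 (t - β)) - φ (circleMap 0 1 (t + β)) - A) A
      simpa using this
    have h6 : 1/2 * (2 * Real.sin β * ‖F (circleMap 0 ((1 - Real.sin β) * Real.cos β) t)‖) ≤
        10 * Real.sin β := by nlinarith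
    linarith
  have hsinle : Real.sin β ≤ β := Real.sin_le hβpos.le
  have hfin := hlow.trans hcx
  have h7 : (0:ℝ) < 90 * β := by positivity
  rw [ENNReal.ofReal_le_ofReal_iff' ] at hfin
  rcases hfin with h | h
  · nlinarith
  · linarith

end Pool.Agent.Work.MP_9159b8_an
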